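import Pool.Agent.Y502.Tor

/-! # The main theorem -/

set_option autoImplicit false

open Real Metric Set Filter Topology MeasureTheory
open scoped ContDiff ComplexOrder

namespace Pool.Agent.Y502

/-! ### Smoothness and positivity of the two potentials -/

lemma kk_smooth : ContDiff ℝ ∞ kk :=
  (contDiff_const.mul Real.contDiff_cos).add (contDiff_const.mul Real.contDiff_sin)

lemma re_smooth : ContDiff ℝ ∞ fun z : ℂ => z.re := Complex.reCLM.contDiff

lemma im_smooth : ContDiff ℝ ∞ fun z : ℂ => z.im := Complex.imCLM.contDiff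

lemma X1_smooth : ContDiff ℝ ∞ X1 := by
  have : X1 = fun z : ℂ => -(1 / 2) * z.re - √3 / 2 * z.im := by ext z; rw [X1]; ring
  rw [this]
  exact (contDiff_const.mul re_smooth).sub (contDiff_const.mul im_smooth)

lemma X2_smooth : ContDiff ℝ ∞ X2 := by
  have : X2 = fun z : ℂ => -(1 / 2) * z.re + √3 / 2 * z.im := by ext z; rw [X2]; ring
  rw [this]
  exact (contDiff_const.mul re_smooth).add (contDiff_const.mul im_smooth)

lemma u0_smooth : ContDiff ℝ ∞ u0 :=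
  ((kk_smooth.comp re_smooth).add (kk_smooth.comp X1_smooth)).add (kk_smooth.comp X2_smooth)

lemma u1_smooth : ContDiff ℝ ∞ u1 := u0_smooth.comp contDiff_neg

/-- derivative of the profile -/
noncomputable def kk1 (x : ℝ) : ℝ := -(13 / 10) * sin x + 2 * cos x

lemma kk_d1 (x : ℝ) : HasDerivAt kk (kk1 x) x := by
  have := ((Real.hasDerivAt_cos x).const_mul (13 / 10)).add ((Real.hasDerivAt_sin x).const_mul 2)
  refine this.congr_deriv ?_
  rw [kk1]; ring

lemma kk_d2 (x : ℝ) : HasDerivAt kk1 (-kk x) x := by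
  have := ((Real.hasDerivAt_sin x).const_mul (-(13 / 10))).add
    ((Real.hasDerivAt_cos x).const_mul 2)
  refine this.congr_deriv ?_
  rw [kk]; ring

/-- second derivatives of `kk ∘ L` for a real linear function `L` -/
lemma dd_lin (L : ℂ →L[ℝ] ℝ) (x a b : ℂ) :
    dd (fun z => kk (L z)) x a b = -kk (L x) * (L a * L b) := by
  rw [dd_comp kk_d1 kk_d2 (s := fun z => L z) L.contDiff.contDiffAt]
  have h1 : ∀ q, fderiv ℝ (fun z => L z) q = L := fun q => L.fderiv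
  have h2 : dd (fun z => L z) x a b = 0 := by
    rw [dd]
    simp only [h1]
    simp
  rw [h1, h2]
  ring

lemma lap_lin (L : ℂ →L[ℝ] ℝ) (x : ℂ) :
    lap (fun z => kk (L z)) x = -kk (L x) * (L 1 ^ 2 + L Complex.I ^ 2) / 4 := by
  have hs : ContDiff ℝ ∞ fun z => kk (L z) := kk_smooth.comp L.contDiff
  rw [lap_eq hs, dd_lin, dd_lin]
  ring

/-- `X1` and `X2` as linear maps -/
noncomputable def L1 : ℂ →L[ℝ] ℝ := (-(1 / 2) : ℝ) • Complex.reCLM - (√3 / 2) • Complex.imCLM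
noncomputable def L2 : ℂ →L[ℝ] ℝ := (-(1 / 2) : ℝ) • Complex.reCLM + (√3 / 2) • Complex.imCLM

lemma L1_apply (z : ℂ) : L1 z = X1 z := by
  rw [X1, L1]; simp; ring

lemma L2_apply (z : ℂ) : L2 z = X2 z := by
  rw [X2, L2]; simp; ring

lemma lap_add {f g : ℂ → ℝ} (hf : ContDiff ℝ ∞ f) (hg : ContDiff ℝ ∞ g) (x : ℂ) :
    lap (fun z => f z + g z) x = lap f x + lap g x := by
  rw [lap, levi_add (cd2 hf x) (cd2 hg x), Complex.add_re, lap, lap]

lemma lap_u0 (x : ℂ) : lap u0 x = -u0 x / 4 := by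
  have e : u0 = fun z => (kk (Complex.reCLM z) + kk (L1 z)) + kk (L2 z) := by
    ext z; rw [L1_apply, L2_apply, u0]; rfl
  have s0 : ContDiff ℝ ∞ fun z => kk (Complex.reCLM z) := kk_smooth.comp Complex.reCLM.contDiff
  have s1 : ContDiff ℝ ∞ fun z => kk (L1 z) := kk_smooth.comp L1.contDiff
  have s2 : ContDiff ℝ ∞ fun z => kk (L2 z) := kk_smooth.comp L2.contDiff
  have h : lap u0 x = (lap (fun z => kk (Complex.reCLM z)) x + lap (fun z => kk (L1 z)) x) +
      lap (fun z => kk (L2 z)) x := by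
    rw [e, lap_add (s0.add s1) s2, lap_add s0 s1]
  rw [h, lap_lin, lap_lin, lap_lin]
  have a1 : L1 1 = -(1 / 2) := by rw [L1_apply, X1]; norm_num
  have a2 : L1 Complex.I = -(√3 / 2) := by rw [L1_apply, X1]; norm_num
  have b1 : L2 1 = -(1 / 2) := by rw [L2_apply, X2]; norm_num
  have b2 : L2 Complex.I = √3 / 2 := by rw [L2_apply, X2]; norm_num
  rw [a1, a2, b1, b2, L1_apply, L2_apply, u0]
  simp only [Complex.reCLM_apply, Complex.one_re, Complex.I_re]
  have h3 := sq3'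
  linear_combination (-(kk (X1 x) + kk (X2 x)) / 16) * h3

lemma lap_u1 (x : ℂ) : lap u1 x = -u1 x / 4 := by
  have e : u1 = fun z => u0 ((-1 : ℝ) • z) := by ext z; rw [u1]; simp
  rw [e, lap_scale u0_smooth, lap_u0]
  simp

/-! ### Definitions for the torus -/

section

variable {Λ : AddSubgroup ℂ}

/-- `ω + dd^c f` is a Kähler form. -/
def IsKaehler (f : ℂ ⧸ Λ → ℝ) : Prop :=
  ContDiff ℝ ∞ (fun x : ℂ => f x) ∧ ∀ x : ℂ, 0 < 1 + (levi (fun y : ℂ => f y) x 1 1).re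

/-- `f₁`, `f₂` are joined by the weak geodesic `φ`. -/
def IsWeakGeodesic (a b : ℝ) (f₁ f₂ : ℂ ⧸ Λ → ℝ) (φ : (ℂ ⧸ Λ) × ℂ → ℝ) : Prop :=
  (∃ B, ∀ q : (ℂ ⧸ Λ) × ℂ, a ≤ ‖q.2‖ → ‖q.2‖ ≤ b → |φ q| ≤ B) ∧
  ContinuousOn φ {q | a ≤ ‖q.2‖ ∧ ‖q.2‖ ≤ b} ∧
  (∀ x z, ‖z‖ = a → φ (x, z) = f₁ x) ∧
  (∀ x z, ‖z‖ = b → φ (x, z) = f₂ x) ∧
  PSHc {p | a < ‖p.2‖ ∧ ‖p.2‖ < b} (fun p => ‖p.1‖ ^ 2 + φ (p.1, p.2)) ∧
  MAZero {p | a < ‖p.2‖ ∧ ‖p.2‖ < b} (fun p => ‖p.1‖ ^ 2 + φ (p.1, p.2))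

/-- `ω + dd^c f ≥ ε ω` for some `ε > 0`. -/
def StrictlyPositive (f : ℂ ⧸ Λ → ℝ) : Prop :=
  ∃ ε > 0, ∀ χ : ℂ → ℝ, ContDiff ℝ ∞ χ → HasCompactSupport χ → (∀ x, 0 ≤ χ x) →
    ε * ∫ x, χ x ≤ ∫ x : ℂ, (χ x + f x * (levi χ x 1 1).re)

end

/-- The geodesic on the torus. -/
noncomputable def Phi (lam c : ℝ) (q : (ℂ ⧸ Lam) × ℂ) : ℝ := phi (el lam c q.2) q.1.out

lemma Phi_lift (lam c : ℝ) (p : ℂ × ℂ) : Phi lam c ((p.1 : ℂ ⧸ Lam), p.2) = phi (el lam c p.2) p.1 :=
  phi_out _ _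

lemma Phi_cont : Continuous fun q : (ℂ ⧸ Lam) × ℝ => phi q.2 q.1.out := by
  have hq : IsOpenQuotientMap (Prod.map (fun z : ℂ => (z : ℂ ⧸ Lam)) (fun t : ℝ => t)) :=
    QuotientAddGroup.isOpenQuotientMap_mk.prodMap IsOpenQuotientMap.id
  rw [← hq.continuous_comp_iff]
  have : (fun q : (ℂ ⧸ Lam) × ℝ => phi q.2 q.1.out) ∘
      (Prod.map (fun z : ℂ => (z : ℂ ⧸ Lam)) (fun t : ℝ => t)) = fun p : ℂ × ℝ => phi p.2 p.1 := by
    ext p
    exact phi_out p.2 p.1
  rw [this]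
  exact phi_cont

theorem main (a b : ℝ) (ha : 0 < a) (hab : a < b) :
    ∃ (Λ : AddSubgroup ℂ) (f₁ f₂ : ℂ ⧸ Λ → ℝ) (φ : (ℂ ⧸ Λ) × ℂ → ℝ) (z : ℂ),
      DiscreteTopology Λ ∧ CompactSpace (ℂ ⧸ Λ) ∧ IsKaehler f₁ ∧ IsKaehler f₂ ∧
      IsWeakGeodesic a b f₁ f₂ φ ∧ a < ‖z‖ ∧ ‖z‖ < b ∧ ¬ StrictlyPositive fun x => φ (x, z) := by
  have hb : 0 < b := ha.trans hab
  have hlog : Real.log a < Real.log b := Real.log_lt_log ha hab
  set D := Real.log b - Real.log a with hD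
  have hDpos : 0 < D := by rw [hD]; linarith
  set lam := D⁻¹ with hlam
  have hlampos : 0 < lam := inv_pos.2 hDpos
  set c := -(lam * Real.log a) with hc
  have helz : ∀ z : ℂ, el lam c z = lam * (Real.log ‖z‖ - Real.log a) := by
    intro z; rw [el, hc]; ring
  have hlamD : lam * D = 1 := inv_mul_cancel₀ hDpos.ne'
  have hela : ∀ z : ℂ, ‖z‖ = a → el lam c z = 0 := by
    intro z hz; rw [helz, hz]; ring
  have helb : ∀ z : ℂ, ‖z‖ = b → el lam c z = 1 := by
    intro z hz; rw [helz, hz, ← hD, hlamD]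
  have hel : ∀ z : ℂ, a < ‖z‖ → ‖z‖ < b → el lam c z ∈ Ioo (0 : ℝ) 1 := by
    intro z h1 h2
    have g1 : Real.log a < Real.log ‖z‖ := Real.log_lt_log ha h1
    have g2 : Real.log ‖z‖ < Real.log b := Real.log_lt_log (ha.trans h1) h2
    rw [helz]
    constructor
    · exact mul_pos hlampos (by linarith)
    · calc lam * (Real.log ‖z‖ - Real.log a) < lam * D :=
          mul_lt_mul_of_pos_left (by rw [hD]; linarith) hlampos
        _ = 1 := hlamD
  have hel' : ∀ z : ℂ, a ≤ ‖z‖ → ‖z‖ ≤ b → el lam c z ∈ Icc (0 : ℝ) 1 := by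
    intro z h1 h2
    rcases h1.eq_or_lt with h | h
    · rw [hela z h.symm]; simp
    · rcases h2.eq_or_lt with h' | h'
      · rw [helb z h']; simp
      · have := hel z h h'
        exact ⟨this.1.le, this.2.le⟩
  have hmid : el lam c (Real.exp ((Real.log a + Real.log b) / 2) : ℂ) = 1 / 2 := by
    rw [helz, Complex.norm_real, Real.norm_eq_abs, Real.abs_exp,
      Real.log_exp]
    have : (Real.log a + Real.log b) / 2 - Real.log a = D / 2 := by rw [hD]; ring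
    rw [this, ← mul_div_assoc, hlamD]
  refine ⟨Lam, fun x => u0 x.out, fun x => u1 x.out, Phi lam c,
    (Real.exp ((Real.log a + Real.log b) / 2) : ℂ), Lam_discrete, Lam_compact, ?_, ?_, ?_, ?_, ?_, ?_⟩
  · have e : (fun x : ℂ => u0 ((x : ℂ ⧸ Lam)).out) = u0 := by ext x; exact u0_out x
    refine ⟨?_, ?_⟩
    · simp only [e]; exact u0_smooth
    · intro x
      simp only [e]
      have h1 := lap_u0 x
      have h2 := u0_le x
      rw [lap] at h1
      rw [h1]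
      linarith
  · have e : (fun x : ℂ => u1 ((x : ℂ ⧸ Lam)).out) = u1 := by ext x; exact u1_out x
    refine ⟨?_, ?_⟩
    · simp only [e]; exact u1_smooth
    · intro x
      simp only [e]
      have h1 := lap_u1 x
      have h2 := u0_le (-x)
      rw [lap] at h1
      rw [h1, u1]
      linarith
  · have e : (fun p : ℂ × ℂ => ‖p.1‖ ^ 2 + Phi lam c ((p.1 : ℂ ⧸ Lam), p.2)) = uu lam c := by
      ext p
      rw [Phi_lift, uu]
    refine ⟨⟨30, ?_⟩, ?_, ?_, ?_, ?_, ?_⟩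
    · intro q h1 h2
      exact phi_bd (hel' q.2 h1 h2) _
    · have h1 : ContinuousOn (fun q : (ℂ ⧸ Lam) × ℂ => (q.1, el lam c q.2))
          {q | a ≤ ‖q.2‖ ∧ ‖q.2‖ ≤ b} := by
        apply continuousOn_fst.prodMk
        intro q hq
        have hq0 : q.2 ≠ 0 := by
          intro h
          have := hq.1
          rw [h, norm_zero] at this
          linarith
        have h2 : ContinuousAt (el lam c) q.2 := (cd_el (m := 0) lam c hq0).continuousAt
        exact (ContinuousAt.comp (f := fun q : (ℂ ⧸ Lam) × ℂ => q.2) h2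
          continuousAt_snd).continuousWithinAt
      have h3 : ContinuousOn ((fun q : (ℂ ⧸ Lam) × ℝ => phi q.2 q.1.out) ∘
          fun q : (ℂ ⧸ Lam) × ℂ => (q.1, el lam c q.2)) {q | a ≤ ‖q.2‖ ∧ ‖q.2‖ ≤ b} :=
        Phi_cont.comp_continuousOn h1
      refine h3.congr ?_
      intro q _
      simp only [Phi, Function.comp_apply]
    · intro x z hz
      simp only [Phi, hela z hz, phi_zero]
    · intro x z hz
      simp only [Phi, helb z hz, phi_one]
    · rw [e]; exact PSHc_uu ha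
    · rw [e]; exact MAZero_uu ha hab hlampos hel
  · rw [Complex.norm_real, Real.norm_eq_abs, Real.abs_exp]
    calc a = Real.exp (Real.log a) := (Real.exp_log ha).symm
      _ < _ := Real.exp_lt_exp.2 (by linarith)
  · rw [Complex.norm_real, Real.norm_eq_abs, Real.abs_exp]
    calc _ < Real.exp (Real.log b) := Real.exp_lt_exp.2 (by linarith)
      _ = b := Real.exp_log hb
  · rintro ⟨ε, hε, h⟩
    apply not_SP
    refine ⟨ε, hε, ?_⟩
    intro χ h1 h2 h3
    have h4 := h χ h1 h2 h3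
    simp only [Phi] at h4
    rw [hmid] at h4
    simp only [phi_out] at h4
    exact h4

/-- Sanity check of the definitions: if both potentials vanish, the weak geodesic is `0`, and
its slices are strictly positive. -/
theorem check (Λ : AddSubgroup ℂ) (a b : ℝ) :
    IsKaehler (fun _ : ℂ ⧸ Λ => 0) ∧
    IsWeakGeodesic a b (fun _ : ℂ ⧸ Λ => 0) (fun _ => 0) (fun _ => 0) ∧
    StrictlyPositive (fun _ : ℂ ⧸ Λ => 0) := by
  refine ⟨⟨contDiff_const, ?_⟩, ⟨⟨0, ?_⟩, continuousOn_const, ?_, ?_, ?_, ?_⟩, ⟨1, one_pos, ?_⟩⟩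
  · intro x
    rw [levi_const]
    simp
  · intro q _ _
    simp
  · intro x z _
    rfl
  · intro x z _
    rfl
  · refine ⟨by fun_prop, ?_⟩
    intro p d _
    simp only [add_zero, Prod.fst_add, Prod.smul_fst, smul_eq_mul]
    have h := ca_affine (fun z => ‖z‖ ^ 2) p.1 d.1
    rw [h, ca_sq]
    nlinarith [sq_nonneg ‖d.1‖]
  · intro U _ _ _
    have hs : ContDiff ℝ ∞ fun z : ℂ => ‖z‖ ^ 2 := contDiff_norm_sq ℝ
    have hh : ∀ p : ℂ × ℂ, hess (fun p : ℂ × ℂ => ‖p.1‖ ^ 2 + 0) p =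
        (1 : ℂ) • Matrix.vecMulVec (fun j => (bas j).1) (star fun j => (bas j).1) +
        (0 : ℂ) • Matrix.vecMulVec (fun _ => 0) (star fun _ : Fin 2 => (0 : ℂ)) := by
      intro p
      ext j k
      simp only [add_zero, zero_smul, one_smul]
      rw [hess, Matrix.of_apply, levi_fst (f := fun z : ℂ => ‖z‖ ^ 2) (cd2 hs p.1),
        levi_bas hs, lap_sq, Matrix.vecMulVec_apply]
      simp
    refine ⟨fun _ p => ‖p.1‖ ^ 2 + 0, ?_, ?_, ?_, ?_, ?_⟩
    · intro k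
      have : ContDiff ℝ ∞ fun p : ℂ × ℂ => ‖p.1‖ ^ 2 + 0 := (hs.comp contDiff_fst).add contDiff_const
      exact this.contDiffOn
    · intro k p _
      rw [hh, one_smul, zero_smul, add_zero]
      exact Matrix.posSemidef_vecMulVec_self_star _
    · intro p _
      exact antitone_const
    · intro p _
      exact tendsto_const_nhds
    · intro χ _ _ _
      have : ∀ p : ℂ × ℂ, (hess (fun p : ℂ × ℂ => ‖p.1‖ ^ 2 + 0) p).det = 0 := by
        intro p
        rw [hh, det_rank_two]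
        simp
      simp only [this, Complex.zero_re, mul_zero, integral_zero]
      exact tendsto_const_nhds
  · intro χ _ _ _
    simp

end Pool.Agent.Y502
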