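import Pool.Agent.Y502.Mass

/-! # Approximation of the geodesic -/

set_option autoImplicit false

open Real Metric Set Filter Topology MeasureTheory
open scoped ContDiff ENNReal ComplexOrder

namespace Pool.Agent.Y502

/-- The piecewise linear function with increasing breakpoints. -/
lemma sum_max_eq {T : ℕ → ℝ} (hT : ∀ k, T k ≤ T (k + 1)) (t : ℝ) (n : ℕ) :
    ∃ m ≤ n, ∑ k ∈ Finset.range n, max (t - T k) 0 = ∑ k ∈ Finset.range m, (t - T k) := by
  induction n with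
  | zero => exact ⟨0, le_rfl, by simp⟩
  | succ n ih =>
    rcases le_total t (T n) with h | h
    · obtain ⟨m, hm, h2⟩ := ih
      refine ⟨m, by omega, ?_⟩
      rw [Finset.sum_range_succ, h2, max_eq_right (by linarith), add_zero]
    · refine ⟨n + 1, le_rfl, ?_⟩
      apply Finset.sum_congr rfl
      intro k hk
      have hk' : k ≤ n := Nat.lt_succ_iff.1 (Finset.mem_range.1 hk)
      have : T k ≤ T n := monotone_nat_of_le_succ hT hk'
      rw [max_eq_left (by linarith)]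

/-- The exact breakpoints. -/
noncomputable def TT (Δ : ℝ) (x : ℂ) (k : ℕ) : ℝ := (psi (ta Δ k) x - psi (ta Δ (k + 1)) x) / Δ

lemma TT_mono {Δ : ℝ} (hΔ : 0 < Δ) (x : ℂ) (k : ℕ) : TT Δ x k ≤ TT Δ x (k + 1) := by
  rw [TT, TT]
  apply div_le_div_of_nonneg_right _ hΔ.le
  have := psi_concave (τ := ta Δ k) (τ' := ta Δ (k + 1 + 1)) (s := 1 / 2) (t := 1 / 2)
    (by norm_num) (by norm_num) (by norm_num) x
  have e : 1 / 2 * ta Δ k + 1 / 2 * ta Δ (k + 1 + 1) = ta Δ (k + 1) := by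
    rw [ta, ta, ta]
    push_cast
    ring
  rw [e] at this
  linarith

lemma tele {Δ : ℝ} (hΔ : 0 < Δ) (x : ℂ) (t : ℝ) (m : ℕ) :
    psi (ta Δ m) x + ta Δ m * t =
      psi (ta Δ 0) x + ta Δ 0 * t + ∑ k ∈ Finset.range m, Δ * (t - TT Δ x k) := by
  induction m with
  | zero => simp
  | succ m ih =>
    rw [Finset.sum_range_succ, ← add_assoc, ← ih, TT]
    have : ta Δ (m + 1) = ta Δ m + Δ := by rw [ta, ta]; push_cast; ring
    rw [this]
    field_simp
    ring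

lemma ta_zero (Δ : ℝ) : ta Δ 0 = -20 := by simp [ta]

/-- The discretised geodesic is uniformly close to the geodesic. -/
lemma grid_close {Δ : ℝ} {n : ℕ} (hΔ : 0 < Δ) (hn : n * Δ = 40) (x : ℂ) {t : ℝ}
    (ht : t ∈ Icc (0 : ℝ) 1) :
    |(psi (ta Δ 0) x + ta Δ 0 * t + ∑ k ∈ Finset.range n, Δ * max (t - TT Δ x k) 0) - phi t x| ≤
      Δ := by
  have hmem : ∀ m ≤ n, ta Δ m ∈ Icc (-20 : ℝ) 20 := by
    intro m hm
    rw [ta]
    have h1 : (m : ℝ) ≤ n := by exact_mod_cast hm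
    have h2 : (0 : ℝ) ≤ m := Nat.cast_nonneg m
    constructor
    · nlinarith
    · nlinarith
  rw [abs_le]
  constructor
  · -- phi ≤ V + Δ
    have : phi t x ≤ (psi (ta Δ 0) x + ta Δ 0 * t +
        ∑ k ∈ Finset.range n, Δ * max (t - TT Δ x k) 0) + Δ := by
      apply phi_le
      intro τ hτ
      set m := ⌊(τ + 20) / Δ⌋₊ with hm
      have hq : 0 ≤ (τ + 20) / Δ := div_nonneg (by linarith [hτ.1]) hΔ.le
      have hm1 : (m : ℝ) ≤ (τ + 20) / Δ := Nat.floor_le hq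
      have hm2 : (τ + 20) / Δ < m + 1 := Nat.lt_floor_add_one _
      rw [le_div_iff₀ hΔ] at hm1
      rw [div_lt_iff₀ hΔ] at hm2
      have hmn : m ≤ n := by
        have h3 : (m : ℝ) * Δ ≤ n * Δ := by rw [hn]; linarith [hτ.2]
        have h4 : (m : ℝ) ≤ n := le_of_mul_le_mul_right h3 hΔ
        exact_mod_cast h4
      have h5 : ta Δ m ≤ τ := by rw [ta]; linarith
      have h6 : τ ≤ ta Δ m + Δ := by rw [ta]; linarith
      have h7 := psi_anti h5 x
      have h8 := tele hΔ x t m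
      have h9 : ∑ k ∈ Finset.range m, Δ * (t - TT Δ x k) ≤
          ∑ k ∈ Finset.range n, Δ * max (t - TT Δ x k) 0 := by
        calc ∑ k ∈ Finset.range m, Δ * (t - TT Δ x k)
            ≤ ∑ k ∈ Finset.range m, Δ * max (t - TT Δ x k) 0 := by
              apply Finset.sum_le_sum
              intro k _
              exact mul_le_mul_of_nonneg_left (le_max_left _ _) hΔ.le
          _ ≤ _ := by
              apply Finset.sum_le_sum_of_subset_of_nonneg
              · exact Finset.range_mono hmn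
              · intro k _ _
                exact mul_nonneg hΔ.le (le_max_right _ _)
      have h10 : τ * t ≤ ta Δ m * t + Δ := by
        have : (τ - ta Δ m) * t ≤ Δ * 1 :=
          mul_le_mul (by linarith) ht.2 ht.1 hΔ.le
        linarith
      linarith
    linarith
  · obtain ⟨m, hm, hsum⟩ := sum_max_eq (TT_mono hΔ x) t n
    have h1 : ∑ k ∈ Finset.range n, Δ * max (t - TT Δ x k) 0 =
        ∑ k ∈ Finset.range m, Δ * (t - TT Δ x k) := by
      rw [← Finset.mul_sum, hsum, Finset.mul_sum]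
    rw [h1, ← tele hΔ x t m]
    have := le_phi (t := t) (hmem m hm) x
    linarith

section

variable {δ : ℝ} {ρ : ℂ → ℝ} (hρ : Mo δ ρ) {ε : ℝ} {θ θ1 θ2 : ℝ → ℝ} (hθ : Th ε θ θ1 θ2)

include hρ hθ in
lemma app_close {Δ κ e R lam c : ℝ} {n : ℕ} (hδ : 0 < δ) (hε : 0 < ε) (hΔ : 0 < Δ) (hκ : 0 ≤ κ)
    (hn : n * Δ = 40) (he : 40 * δ / Δ + κ * n ≤ e) {p : ℂ × ℂ} (hp : ‖p.1‖ ≤ R)
    (ht : el lam c p.2 ∈ Icc (0 : ℝ) 1) :
    |WW θ (ff ρ Δ) Δ κ lam c (-20) n p - (‖p.1‖ ^ 2 + phi (el lam c p.2) p.1)| ≤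
      Δ + (2 * R + δ + 10) * δ + 40 * (2 * ε + e) := by
  set x := p.1 with hx
  set t := el lam c p.2 with htdef
  have hR : 0 ≤ R := le_trans (norm_nonneg _) hp
  -- the first term
  have h1 : |ff ρ Δ 0 x - FF Δ 0 x| ≤ (2 * R + δ + 10) * δ := by
    apply hρ.close (FF_cont Δ 0)
    intro y hy
    have hy0 := norm_nonneg y
    have a1 := abs_le.1 (psi_lip (ta Δ 0) x (-y))
    rw [norm_neg, ← sub_eq_add_neg] at a1
    have a2 : ‖x - y‖ ≤ ‖x‖ + ‖y‖ := norm_sub_le _ _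
    have a3 : ‖x‖ - ‖y‖ ≤ ‖x - y‖ := norm_sub_norm_le _ _
    have a4 : ‖x - y‖ ^ 2 - ‖x‖ ^ 2 ≤ (2 * R + δ) * δ := by
      have : ‖x - y‖ ^ 2 ≤ (‖x‖ + ‖y‖) ^ 2 := pow_le_pow_left₀ (norm_nonneg _) a2 2
      nlinarith [norm_nonneg x, norm_nonneg y]
    have a5 : -((2 * R + δ) * δ) ≤ ‖x - y‖ ^ 2 - ‖x‖ ^ 2 := by
      rcases le_total ‖y‖ ‖x‖ with h | h
      · have : (‖x‖ - ‖y‖) ^ 2 ≤ ‖x - y‖ ^ 2 := pow_le_pow_left₀ (by linarith) a3 2
        nlinarith [norm_nonneg x, norm_nonneg y]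
      · nlinarith [norm_nonneg x, norm_nonneg y, sq_nonneg ‖x - y‖]
    rw [FF, FF, abs_le]
    constructor <;> nlinarith [a1.1, a1.2]
  -- the breakpoints
  have h2 : ∀ k ∈ Finset.range n, |Δ * θ (sk (ff ρ Δ) Δ κ lam c k p) -
      Δ * max (t - TT Δ x k) 0| ≤ Δ * (2 * ε + e) := by
    intro k hk
    have hk' : k < n := Finset.mem_range.1 hk
    have b1 := hθ.close (sk (ff ρ Δ) Δ κ lam c k p)
    have b2 := tk_close hρ hΔ hκ k (x := x) (x' := x) (by simpa using hδ.le)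
    have b3 : κ * k ≤ κ * n := mul_le_mul_of_nonneg_left (by exact_mod_cast hk'.le) hκ
    have b4 : |tk (ff ρ Δ) Δ κ k x - TT Δ x k| ≤ e := by
      rw [TT]
      exact b2.trans (by linarith)
    have b5 : |max (sk (ff ρ Δ) Δ κ lam c k p) 0 - max (t - TT Δ x k) 0| ≤ e := by
      refine (abs_max_sub_max_le_abs _ _ _).trans ?_
      rw [sk]
      have : el lam c p.2 - tk (ff ρ Δ) Δ κ k p.1 - (t - TT Δ x k) =
        -(tk (ff ρ Δ) Δ κ k x - TT Δ x k) := by rw [htdef, hx]; ring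
      rw [this, abs_neg]
      exact b4
    rw [← mul_sub, abs_mul, abs_of_pos hΔ]
    apply mul_le_mul_of_nonneg_left _ hΔ.le
    calc |θ (sk (ff ρ Δ) Δ κ lam c k p) - max (t - TT Δ x k) 0|
        ≤ |θ (sk (ff ρ Δ) Δ κ lam c k p) - max (sk (ff ρ Δ) Δ κ lam c k p) 0| +
          |max (sk (ff ρ Δ) Δ κ lam c k p) 0 - max (t - TT Δ x k) 0| := abs_sub_le _ _ _
      _ ≤ 2 * ε + e := by linarith
  have h3 : |∑ k ∈ Finset.range n, Δ * θ (sk (ff ρ Δ) Δ κ lam c k p) -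
      ∑ k ∈ Finset.range n, Δ * max (t - TT Δ x k) 0| ≤ 40 * (2 * ε + e) := by
    rw [← Finset.sum_sub_distrib]
    refine (Finset.abs_sum_le_sum_abs _ _).trans ?_
    refine (Finset.sum_le_sum h2).trans ?_
    rw [Finset.sum_const, Finset.card_range, nsmul_eq_mul, ← hn]
    apply le_of_eq
    ring
  have h4 := grid_close hΔ hn x ht
  rw [WW]
  have e1 : FF Δ 0 x = ‖x‖ ^ 2 + psi (ta Δ 0) x := rfl
  rw [ta_zero] at h4 e1
  rw [e1] at h1
  have g1 := abs_le.1 h1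
  have g3 := abs_le.1 h3
  have g4 := abs_le.1 h4
  rw [abs_le]
  constructor <;> linarith [g1.1, g1.2, g3.1, g3.2, g4.1, g4.2]

end

/-- The geodesic in `(x, z)`. -/
noncomputable def uu (lam c : ℝ) (p : ℂ × ℂ) : ℝ := ‖p.1‖ ^ 2 + phi (el lam c p.2) p.1

/-- Existence of good approximants. -/
lemma exists_app {a b lam c R η E : ℝ} (ha : 0 < a) (hab : a < b) (hlam : 0 < lam) (hR : 0 < R)
    (hη : 0 < η) (hE : 0 < E) : ∃ W : ℂ × ℂ → ℝ,
    (∀ p : ℂ × ℂ, p.2 ≠ 0 → ContDiffAt ℝ ∞ W p) ∧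
    (∀ p : ℂ × ℂ, p.2 ≠ 0 → (hess W p).PosSemidef) ∧
    (∀ p : ℂ × ℂ, ‖p.1‖ ≤ R → el lam c p.2 ∈ Icc (0 : ℝ) 1 → |W p - uu lam c p| ≤ E) ∧
    ∀ Z : Set ℂ, MeasurableSet Z → (∀ z ∈ Z, a < ‖z‖ ∧ ‖z‖ < b) →
      (∀ z ∈ Z, el lam c z ∈ Icc η (1 - η)) →
      ∫⁻ p in ball (0 : ℂ) R ×ˢ Z, ENNReal.ofReal (hess W p).det.re ≤ ENNReal.ofReal E := by
  -- the volume of the ball
  set V : ℝ := (volume (ball (0 : ℂ) R)).toReal with hV
  have hVnn : 0 ≤ V := ENNReal.toReal_nonneg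
  have hVeq : volume (ball (0 : ℂ) R) = ENNReal.ofReal V :=
    (ENNReal.ofReal_toReal measure_ball_lt_top.ne).symm
  -- choose n
  obtain ⟨n, hn⟩ := exists_nat_gt (40 / min (E / 4) (E / (6 * π * lam * (V + 1))))
  have hmin : 0 < min (E / 4) (E / (6 * π * lam * (V + 1))) :=
    lt_min (by positivity) (by positivity)
  have hnpos : (0 : ℝ) < n := lt_trans (by positivity) hn
  set Δ : ℝ := 40 / n with hΔdef
  have hΔ : 0 < Δ := by positivity
  have hΔle : Δ ≤ min (E / 4) (E / (6 * π * lam * (V + 1))) := by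
    rw [hΔdef, div_le_iff₀ hnpos]
    rw [div_lt_iff₀ hmin] at hn
    linarith
  have hΔ1 : Δ ≤ E / 4 := hΔle.trans (min_le_left _ _)
  have hΔ2 : Δ * (6 * π * lam * (V + 1)) ≤ E := by
    have := hΔle.trans (min_le_right _ _)
    rwa [le_div_iff₀ (by positivity)] at this
  have hnΔ : n * Δ = 40 := by rw [hΔdef]; field_simp
  -- choose μ
  set μ : ℝ := min (η / 4) (E / 400) with hμ
  have hμpos : 0 < μ := lt_min (by positivity) (by positivity)
  have hμ1 : μ ≤ η / 4 := min_le_left _ _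
  have hμ2 : μ ≤ E / 400 := min_le_right _ _
  set κ : ℝ := μ / n with hκ
  have hκpos : 0 < κ := by positivity
  have hκn : κ * n = μ := by rw [hκ]; field_simp
  have hn1 : (1 : ℝ) ≤ n := by
    have : 0 < n := by exact_mod_cast hnpos
    exact_mod_cast this
  have hκle : κ ≤ μ := by rw [hκ]; exact div_le_self hμpos.le hn1
  set ε : ℝ := κ / 2 with hε
  have hεpos : 0 < ε := by positivity
  set δ : ℝ := min (μ * Δ / 40) (min 1 (E / (4 * (2 * R + 11)))) with hδ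
  have hδpos : 0 < δ := lt_min (by positivity) (lt_min one_pos (by positivity))
  have hδ1 : 40 * δ / Δ ≤ μ := by
    have : δ ≤ μ * Δ / 40 := min_le_left _ _
    rw [div_le_iff₀ hΔ]
    linarith
  have hδ2 : δ ≤ 1 := (min_le_right _ _).trans (min_le_left _ _)
  have hδ3 : δ * (4 * (2 * R + 11)) ≤ E := by
    have : δ ≤ E / (4 * (2 * R + 11)) := (min_le_right _ _).trans (min_le_right _ _)
    rwa [le_div_iff₀ (by positivity)] at this
  obtain ⟨ρ, hρ⟩ := exists_mo hδpos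
  obtain ⟨θ, θ1, θ2, hθ⟩ := exists_theta hεpos
  have he : 40 * δ / Δ + κ * n ≤ 2 * μ := by linarith
  refine ⟨WW θ (ff ρ Δ) Δ κ lam c (-20) n, ?_, ?_, ?_, ?_⟩
  · intro p hp
    exact cd_WW hθ (ff_smooth hρ Δ) Δ κ lam c (-20) n hp
  · intro p hp
    exact psd_app hρ hθ hΔ hκpos.le lam c (-20) n hp
  · intro p hp ht
    refine (app_close hρ hθ hδpos hεpos hΔ hκpos.le hnΔ he hp ht).trans ?_
    have h1 : (2 * R + δ + 10) * δ ≤ (2 * R + 11) * δ := by
      apply mul_le_mul_of_nonneg_right _ hδpos.le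
      linarith
    nlinarith
  · intro Z hZ hZa hZe
    refine (mass_app hρ hθ hεpos hΔ (by rw [hε]; linarith) ha hab hlam (-20) n he (η := η)
      (by linarith) (ball 0 R) Z hZ measurableSet_ball hZa hZe).trans ?_
    rw [hVeq, ← ENNReal.ofReal_mul (by positivity)]
    apply ENNReal.ofReal_le_ofReal
    have : 6 * π * lam * Δ * V ≤ Δ * (6 * π * lam * (V + 1)) := by
      have : 0 ≤ 6 * π * lam * Δ := by positivity
      nlinarith
    linarith

end Pool.Agent.Y502
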