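import Mathlib

/-! # Circle averages of continuous functions: basic tools -/

set_option autoImplicit false

open Real Metric Set Filter Topology MeasureTheory
open scoped ComplexConjugate

namespace Pool.Agent.Y502

lemma ci {f : ℂ → ℝ} (hf : Continuous f) (c : ℂ) (r : ℝ) : CircleIntegrable f c r :=
  hf.continuousOn.circleIntegrable'

lemma ca_mono {f g : ℂ → ℝ} (hf : Continuous f) (hg : Continuous g) (c : ℂ) (r : ℝ)
    (h : ∀ x, f x ≤ g x) : circleAverage f c r ≤ circleAverage g c r :=
  circleAverage_mono (ci hf c r) (ci hg c r) fun x _ => h x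

lemma ca_mono_on {f g : ℂ → ℝ} (hf : Continuous f) (hg : Continuous g) (c : ℂ) (r : ℝ)
    (h : ∀ x ∈ sphere c |r|, f x ≤ g x) : circleAverage f c r ≤ circleAverage g c r :=
  circleAverage_mono (ci hf c r) (ci hg c r) h

lemma ca_add {f g : ℂ → ℝ} (hf : Continuous f) (hg : Continuous g) (c : ℂ) (r : ℝ) :
    circleAverage (fun z => f z + g z) c r = circleAverage f c r + circleAverage g c r :=
  circleAverage_fun_add (ci hf c r) (ci hg c r)

lemma ca_sub {f g : ℂ → ℝ} (hf : Continuous f) (hg : Continuous g) (c : ℂ) (r : ℝ) :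
    circleAverage (fun z => f z - g z) c r = circleAverage f c r - circleAverage g c r :=
  circleAverage_fun_sub (ci hf c r) (ci hg c r)

lemma ca_mul (a : ℝ) (f : ℂ → ℝ) (c : ℂ) (r : ℝ) :
    circleAverage (fun z => a * f z) c r = a * circleAverage f c r := by
  have := circleAverage_fun_smul (a := a) (f := f) (c := c) (R := r)
  simpa [smul_eq_mul] using this

lemma ca_const (a : ℝ) (c : ℂ) (r : ℝ) : circleAverage (fun _ => a) c r = a :=
  circleAverage_const a c r

lemma ca_neg (f : ℂ → ℝ) (c : ℂ) (r : ℝ) :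
    circleAverage (fun z => - f z) c r = - circleAverage f c r := by
  have := ca_mul (-1) f c r
  simpa using this

/-- Translation. -/
lemma ca_transl (f : ℂ → ℝ) (a c : ℂ) (r : ℝ) :
    circleAverage (fun z => f (z + a)) c r = circleAverage f (c + a) r := by
  simp only [circleAverage_def, circleMap]
  congr 2
  ext θ
  congr 1
  ring

/-- Rotation about the centre. -/
lemma ca_rot (f : ℂ → ℝ) (c : ℂ) (r : ℝ) {u : ℂ} (hu : ‖u‖ = 1) :
    circleAverage (fun z => f (c + u * (z - c))) c r = circleAverage f c r := by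
  obtain ⟨η, hη⟩ : ∃ η : ℝ, u = Complex.exp (η * Complex.I) := by
    refine ⟨u.arg, ?_⟩
    have := Complex.norm_mul_exp_arg_mul_I u
    rw [hu] at this
    simpa using this.symm
  conv_rhs => rw [circleAverage_eq_integral_add η]
  rw [circleAverage_def]
  congr 2
  ext θ
  congr 1
  simp only [circleMap, hη, add_sub_cancel_left]
  push_cast
  rw [add_mul, Complex.exp_add]
  ring

/-- Rotation about the origin: change of centre. -/
lemma ca_rot0 (f : ℂ → ℝ) (c : ℂ) (r : ℝ) {u : ℂ} (hu : ‖u‖ = 1) :
    circleAverage (fun z => f (u * z)) c r = circleAverage f (u * c) r := by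
  have h2 := ca_rot f (u * c) r hu
  rw [← h2]
  have h1 := ca_transl (fun z => f (u * z)) c 0 r
  have h3 := ca_transl (fun z => f (u * c + u * (z - u * c))) (u * c) 0 r
  rw [zero_add] at h1 h3
  rw [← h1, ← h3]
  congr 1
  ext z
  congr 1
  ring

lemma ca_neg0 (f : ℂ → ℝ) (c : ℂ) (r : ℝ) :
    circleAverage (fun z => f (-z)) c r = circleAverage f (-c) r := by
  have := ca_rot0 f c r (u := -1) (by simp)
  simpa using this

/-- A continuous linear functional averages to its value at the centre. -/
lemma ca_lin (L : ℂ →L[ℝ] ℝ) (c : ℂ) (r : ℝ) : circleAverage (fun z => L z) c r = L c := by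
  have h1 := ca_rot (fun z => L z) c r (u := -1) (by simp)
  have h2 : (fun z : ℂ => L (c + -1 * (z - c))) = fun z => (2 * L c) - L z := by
    ext z
    have : c + -1 * (z - c) = (2 : ℝ) • c - z := by
      simp; ring
    rw [this, map_sub, map_smul, smul_eq_mul]
  rw [h2, ca_sub continuous_const L.continuous, ca_const] at h1
  linarith

/-- `|z - a|²` averages to `|c - a|² + r²`. -/
lemma ca_sq (c : ℂ) (r : ℝ) : circleAverage (fun z => ‖z‖ ^ 2) c r = ‖c‖ ^ 2 + r ^ 2 := by
  have h1 : circleAverage (fun z => ‖z - c‖ ^ 2) c r = r ^ 2 := by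
    apply circleAverage_const_on_circle
    intro x hx
    rw [mem_sphere, dist_eq_norm] at hx
    rw [hx, sq_abs]
  have h2 : (fun z : ℂ => ‖z‖ ^ 2) =
      fun z => ‖z - c‖ ^ 2 + (2 * (innerSL ℝ c) z - ‖c‖ ^ 2) := by
    ext z
    have := norm_sub_sq_real z c
    rw [this, innerSL_apply_apply, real_inner_comm]
    ring
  rw [h2, ca_add (by fun_prop) (by fun_prop), h1, ca_sub (by fun_prop) (by fun_prop), ca_mul,
    ca_lin, ca_const, innerSL_apply_apply, real_inner_self_eq_norm_sq]
  ring

/-- the centre value is an average when `r = 0` -/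
lemma ca_zero (f : ℂ → ℝ) (c : ℂ) : circleAverage f c 0 = f c := circleAverage_zero

/-- Circle averages of a Lipschitz function are close to the value at the centre. -/
lemma ca_le_of_le {f : ℂ → ℝ} (hf : Continuous f) (c : ℂ) {r : ℝ} {M : ℝ}
    (h : ∀ x ∈ sphere c |r|, f x ≤ M) : circleAverage f c r ≤ M :=
  circleAverage_mono_on_of_le_circle (ci hf c r) h

lemma ca_ge_of_ge {f : ℂ → ℝ} (hf : Continuous f) (c : ℂ) {r : ℝ} {M : ℝ}
    (h : ∀ x ∈ sphere c |r|, M ≤ f x) : M ≤ circleAverage f c r := by
  have := ca_mono_on (continuous_const (y := M)) hf c r h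
  rwa [ca_const] at this

end Pool.Agent.Y502
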