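import Pool.Agent.Y502.SM

/-! # Envelopes: the largest function below an obstacle -/

set_option autoImplicit false

open Real Metric Set Filter Topology MeasureTheory

namespace Pool.Agent.Y502

/-- The competitors for the obstacle `g`. -/
def Cls (g : ℂ → ℝ) : Set (ℂ → ℝ) := {v | Continuous v ∧ QS 1 v ∧ ∀ z, v z ≤ g z}

/-- The envelope of the obstacle `g`. -/
noncomputable def env (g : ℂ → ℝ) (z : ℂ) : ℝ := sSup ((fun v : ℂ → ℝ => v z) '' Cls g)

/-- Bounded Lipschitz obstacles. -/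
structure Ob (B L : ℝ) (g : ℂ → ℝ) : Prop where
  bd : ∀ z, |g z| ≤ B
  lip : ∀ z a, |g (z + a) - g z| ≤ L * ‖a‖

lemma cont_of_lip {L : ℝ} {g : ℂ → ℝ} (h : ∀ z a, |g (z + a) - g z| ≤ L * ‖a‖) :
    Continuous g := by
  have : LipschitzWith (Real.toNNReal L) g := by
    apply LipschitzWith.of_dist_le_mul
    intro x y
    rw [Real.dist_eq, dist_eq_norm]
    have := h y (x - y)
    rw [add_sub_cancel] at this
    refine this.trans ?_
    exact mul_le_mul_of_nonneg_right (Real.le_coe_toNNReal L) (norm_nonneg _)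
  exact this.continuous

lemma QS_const (a : ℝ) : QS 1 (fun _ => a) := by
  intro c r hr
  rw [ca_const]
  nlinarith

section

variable {B L : ℝ} {g : ℂ → ℝ}

lemma Ob.cont (h : Ob B L g) : Continuous g := cont_of_lip h.lip

lemma Ob.const_mem (h : Ob B L g) : (fun _ => -B) ∈ Cls g :=
  ⟨continuous_const, QS_const _, fun z => (abs_le.1 (h.bd z)).1⟩

lemma Ob.nonempty (h : Ob B L g) (z : ℂ) : ((fun v : ℂ → ℝ => v z) '' Cls g).Nonempty :=
  ⟨_, _, h.const_mem, rfl⟩

lemma bddAbove (g : ℂ → ℝ) (z : ℂ) : BddAbove ((fun v : ℂ → ℝ => v z) '' Cls g) := by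
  refine ⟨g z, ?_⟩
  rintro _ ⟨v, hv, rfl⟩
  exact hv.2.2 z

lemma Ob.env_le (h : Ob B L g) (z : ℂ) : env g z ≤ g z := by
  apply csSup_le (h.nonempty z)
  rintro _ ⟨v, hv, rfl⟩
  exact hv.2.2 z

lemma le_env {v : ℂ → ℝ} (hv : v ∈ Cls g) (z : ℂ) : v z ≤ env g z :=
  le_csSup (bddAbove g z) ⟨v, hv, rfl⟩

lemma Ob.env_le_of (h : Ob B L g) {z : ℂ} {M : ℝ} (hM : ∀ v ∈ Cls g, v z ≤ M) : env g z ≤ M := by
  apply csSup_le (h.nonempty z)
  rintro _ ⟨v, hv, rfl⟩
  exact hM v hv

lemma Ob.env_lip (h : Ob B L g) (z a : ℂ) : |env g (z + a) - env g z| ≤ L * ‖a‖ := by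
  have key : ∀ z a : ℂ, env g (z + a) ≤ env g z + L * ‖a‖ := by
    intro z a
    apply h.env_le_of
    intro v hv
    have h1 : (fun w => v (w + a) + (-(L * ‖a‖))) ∈ Cls g := by
      refine ⟨by have := hv.1; fun_prop, ?_, ?_⟩
      · exact (hv.2.1.transl a).add_const (by have := hv.1; fun_prop) _
      · intro w
        have h2 := hv.2.2 (w + a)
        have h3 := (abs_le.1 (h.lip w a)).2
        linarith
    have := le_env h1 z
    linarith
  rw [abs_le]
  constructor
  · have := key (z + a) (-a)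
    rw [add_neg_cancel_right, norm_neg] at this
    linarith
  · linarith [key z a]

lemma Ob.env_cont (h : Ob B L g) : Continuous (env g) := cont_of_lip h.env_lip

lemma Ob.env_QS (h : Ob B L g) : QS 1 (env g) := by
  intro c r hr
  apply h.env_le_of
  intro v hv
  have h1 := hv.2.1 c r hr
  have h2 := ca_mono hv.1 h.env_cont c r (fun z => le_env hv z)
  linarith

lemma Ob.env_mem (h : Ob B L g) : env g ∈ Cls g := ⟨h.env_cont, h.env_QS, h.env_le⟩

lemma Ob.env_mono (h : Ob B L g) {g' : ℂ → ℝ} (hg : ∀ z, g z ≤ g' z) (z : ℂ) :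
    env g z ≤ env g' z := by
  apply h.env_le_of
  intro v hv
  exact le_env ⟨hv.1, hv.2.1, fun w => (hv.2.2 w).trans (hg w)⟩ z

lemma Ob.env_add (h : Ob B L g) {g' : ℂ → ℝ} {a : ℝ} (hg : ∀ z, g z + a ≤ g' z) (z : ℂ) :
    env g z + a ≤ env g' z := by
  have : env g z ≤ env g' z - a := by
    apply h.env_le_of
    intro v hv
    have h1 : (fun w => v w + a) ∈ Cls g' :=
      ⟨by have := hv.1; fun_prop, hv.2.1.add_const hv.1 a, fun w => by
        have := hv.2.2 w
        have := hg w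
        linarith⟩
    have := le_env h1 z
    linarith
  linarith

/-- Composition with an affine isometry. -/
lemma Ob.env_comp (h : Ob B L g) {g' : ℂ → ℝ} {u : ℂ} (hu : ‖u‖ = 1) (b : ℂ)
    (hg : ∀ z, g (u * z + b) ≤ g' z) (z : ℂ) : env g (u * z + b) ≤ env g' z := by
  apply h.env_le_of
  intro v hv
  have h1 : (fun w => v (u * w + b)) ∈ Cls g' := by
    refine ⟨by have := hv.1; fun_prop, ?_, ?_⟩
    · exact (hv.2.1.transl b).rot hu
    · intro w
      exact (hv.2.2 _).trans (hg w)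
  exact le_env h1 z

lemma Ob.env_concave (h : Ob B L g) {B' : ℝ} {g' g'' : ℂ → ℝ} (h' : Ob B' L g') {s t : ℝ} (hs : 0 ≤ s)
    (ht : 0 ≤ t) (hst : s + t = 1) (hg : ∀ z, s * g z + t * g' z ≤ g'' z) (z : ℂ) :
    s * env g z + t * env g' z ≤ env g'' z := by
  have h1 : (fun w => s * env g w + t * env g' w) ∈ Cls g'' := by
    have c1 := h.env_cont
    have c2 := h'.env_cont
    refine ⟨by fun_prop, h.env_QS.combo c1 c2 h'.env_QS hs ht hst, ?_⟩
    intro w
    have a1 := mul_le_mul_of_nonneg_left (h.env_le w) hs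
    have a2 := mul_le_mul_of_nonneg_left (h'.env_le w) ht
    linarith [hg w]
  exact le_env h1 z

lemma Ob.env_semiconcave (h : Ob B L g) {M : ℝ}
    (hg : ∀ z a, g (z + a) + g (z - a) ≤ 2 * g z + M * ‖a‖ ^ 2) (z a : ℂ) :
    env g (z + a) + env g (z - a) ≤ 2 * env g z + M * ‖a‖ ^ 2 := by
  have c1 := h.env_cont
  have h1 : (fun w => (1 / 2 * env g (w + a) + 1 / 2 * env g (w + -a)) + (-(M * ‖a‖ ^ 2 / 2))) ∈
      Cls g := by
    refine ⟨by fun_prop, ?_, ?_⟩
    · apply QS.add_const (by fun_prop)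
      exact (h.env_QS.transl a).combo (by fun_prop) (by fun_prop) (h.env_QS.transl (-a))
        (by norm_num) (by norm_num) (by norm_num)
    · intro w
      have a1 := h.env_le (w + a)
      have a2 := h.env_le (w + -a)
      have a3 := hg w a
      rw [sub_eq_add_neg] at a3
      linarith
  have := le_env h1 z
  simp only [← sub_eq_add_neg] at this
  linarith

/-- Away from the obstacle the envelope is its own Poisson modification. -/
lemma Ob.env_PV (h : Ob B L g) {a : ℂ} {R : ℝ} (hR : 0 < R)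
    (hgap : 2 * L * R + R ^ 2 ≤ g a - env g a) (hL : 0 ≤ L) (w : ℂ) :
    PV (env g) a R w = env g w := by
  have c1 := h.env_cont
  apply le_antisymm _ (le_PV c1 h.env_QS a hR w)
  have h1 : PV (env g) a R ∈ Cls g := by
    refine ⟨PV_cont c1 a hR, PV_QS c1 h.env_QS a hR, ?_⟩
    intro z
    by_cases hz : ‖z - a‖ < R
    · have h2 := PV_le (v := env g) c1 (a := a) (R := R) (M := env g a + L * R) (by
        intro x hx
        have := (abs_le.1 (h.env_lip a (x - a))).2
        rw [add_sub_cancel, hx] at this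
        linarith) hz
      have h3 := (abs_le.1 (h.lip a (z - a))).1
      rw [add_sub_cancel] at h3
      have h4 : L * ‖z - a‖ ≤ L * R := mul_le_mul_of_nonneg_left hz.le hL
      linarith
    · rw [PV_out (not_lt.1 hz)]
      exact h.env_le z
  exact le_env h1 w

/-- Away from the obstacle: the mean value property. -/
lemma Ob.env_mean (h : Ob B L g) {a : ℂ} {R : ℝ} (hR : 0 < R)
    (hgap : 2 * L * R + R ^ 2 ≤ g a - env g a) (hL : 0 ≤ L) :
    circleAverage (env g) a R + R ^ 2 = env g a := by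
  have c1 := h.env_cont
  have h1 := h.env_PV hR hgap hL a
  rw [PV, sub_self, PM0_center hR, ca_add (by fun_prop) (by fun_prop), ca_sq, ca_transl] at h1
  simp at h1
  linarith

end

end Pool.Agent.Y502
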