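import Pool.Agent.Y502.Mass

/-! # The slice at time `1/2` is not strictly positive -/

set_option autoImplicit false

open Real Metric Set Filter Topology MeasureTheory
open scoped ContDiff

namespace Pool.Agent.Y502

/-- `ω + dd^c f ≥ ε ω` in the sense of currents for some `ε > 0`. -/
def SP (f : ℂ → ℝ) : Prop := ∃ ε > 0, ∀ χ : ℂ → ℝ, ContDiff ℝ ∞ χ → HasCompactSupport χ →
  (∀ x, 0 ≤ χ x) → ε * ∫ x, χ x ≤ ∫ x, (χ x + f x * (levi χ x 1 1).re)

lemma ibp1 {g χ : ℂ → ℝ} (hg : ContDiff ℝ 1 g) (hχ : ContDiff ℝ 1 χ) (hc : HasCompactSupport χ)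
    (v : ℂ) : ∫ x, g x * fderiv ℝ χ x v = - ∫ x, fderiv ℝ g x v * χ x := by
  have c1 : Continuous fun x => fderiv ℝ g x v :=
    (hg.continuous_fderiv (by norm_num)).clm_apply continuous_const
  have c2 : Continuous fun x => fderiv ℝ χ x v :=
    (hχ.continuous_fderiv (by norm_num)).clm_apply continuous_const
  have c3 : HasCompactSupport fun x => fderiv ℝ χ x v := hc.fderiv_apply ℝ v
  apply integral_mul_fderiv_eq_neg_fderiv_mul_of_integrable
  · exact (c1.mul hχ.continuous).integrable_of_hasCompactSupport hc.mul_left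
  · exact (hg.continuous.mul c2).integrable_of_hasCompactSupport c3.mul_left
  · exact (hg.continuous.mul hχ.continuous).integrable_of_hasCompactSupport hc.mul_left
  · intro x _
    exact (hg.differentiable (by norm_num)) x
  · intro x _
    exact (hχ.differentiable (by norm_num)) x

lemma cd_dir {g : ℂ → ℝ} (hg : ContDiff ℝ ∞ g) (v : ℂ) : ContDiff ℝ ∞ fun x => fderiv ℝ g x v :=
  (hg.fderiv_right (m := ∞) (by simp)).clm_apply contDiff_const

lemma one_le_inf : (1 : WithTop ℕ∞) ≤ ∞ := by norm_cast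

lemma ibp2 {g χ : ℂ → ℝ} (hg : ContDiff ℝ ∞ g) (hχ : ContDiff ℝ ∞ χ) (hc : HasCompactSupport χ)
    (v : ℂ) : ∫ x, g x * dd χ x v v = ∫ x, dd g x v v * χ x := by
  have h1 := ibp1 (hg.of_le one_le_inf) ((cd_dir hχ v).of_le one_le_inf)
    (hc.fderiv_apply (𝕜 := ℝ) v) v
  have h2 := ibp1 ((cd_dir hg v).of_le one_le_inf) (hχ.of_le one_le_inf) hc v
  simp only [dd]
  rw [h1, h2, neg_neg]

lemma dd_cont {g : ℂ → ℝ} (hg : ContDiff ℝ ∞ g) (v w : ℂ) : Continuous fun x => dd g x v w :=
  (cd_dir (cd_dir hg w) v).continuous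

lemma dd_supp {χ : ℂ → ℝ} (hc : HasCompactSupport χ) (v w : ℂ) :
    HasCompactSupport fun x => dd χ x v w :=
  (hc.fderiv_apply (𝕜 := ℝ) w).fderiv_apply (𝕜 := ℝ) v

lemma lap_supp {χ : ℂ → ℝ} (hχ : ContDiff ℝ ∞ χ) (hc : HasCompactSupport χ) :
    HasCompactSupport (lap χ) := by
  have h : lap χ = fun x => (dd χ x 1 1 + dd χ x Complex.I Complex.I) * 4⁻¹ := by
    ext x; rw [lap_eq hχ]; rfl
  rw [h]
  exact ((dd_supp hc 1 1).add (dd_supp hc Complex.I Complex.I)).mul_right

/-- Green's formula. -/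
lemma ibp_lap {g χ : ℂ → ℝ} (hg : ContDiff ℝ ∞ g) (hχ : ContDiff ℝ ∞ χ)
    (hc : HasCompactSupport χ) : ∫ x, g x * lap χ x = ∫ x, lap g x * χ x := by
  have e1 : (fun x => g x * lap χ x) = fun x =>
      (g x * dd χ x 1 1 + g x * dd χ x Complex.I Complex.I) * (1 / 4) := by
    ext x; rw [lap_eq hχ]; ring
  have e2 : (fun x => lap g x * χ x) = fun x =>
      (dd g x 1 1 * χ x + dd g x Complex.I Complex.I * χ x) * (1 / 4) := by
    ext x; rw [lap_eq hg]; ring
  have i1 : ∀ v, Integrable fun x => g x * dd χ x v v := fun v =>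
    (hg.continuous.mul (dd_cont hχ v v)).integrable_of_hasCompactSupport (dd_supp hc v v).mul_left
  have i2 : ∀ v, Integrable fun x => dd g x v v * χ x := fun v =>
    ((dd_cont hg v v).mul hχ.continuous).integrable_of_hasCompactSupport hc.mul_left
  rw [e1, e2, integral_mul_const, integral_mul_const, integral_add (i1 1) (i1 Complex.I),
    integral_add (i2 1) (i2 Complex.I), ibp2 hg hχ hc, ibp2 hg hχ hc]

lemma lap_sq (x : ℂ) : lap (fun x : ℂ => ‖x‖ ^ 2) x = 1 := by
  have hsm : ContDiff ℝ ∞ fun x : ℂ => ‖x‖ ^ 2 := contDiff_norm_sq ℝ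
  have h1 : ∀ q b : ℂ, fderiv ℝ (fun x : ℂ => ‖x‖ ^ 2) q b = 2 * (q.re * b.re + q.im * b.im) := by
    intro q b
    rw [fderiv_norm_sq_apply, _root_.smul_apply, innerSL_apply_apply, Complex.inner]
    simp
    ring
  have h2 : ∀ a b : ℂ, dd (fun x : ℂ => ‖x‖ ^ 2) x a b = 2 * (a.re * b.re + a.im * b.im) := by
    intro a b
    have e : (fun q : ℂ => fderiv ℝ (fun x : ℂ => ‖x‖ ^ 2) q b) =
        fun q : ℂ => ((2 * b.re) • Complex.reCLM + (2 * b.im) • Complex.imCLM : ℂ →L[ℝ] ℝ) q := by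
      ext q
      rw [h1]
      simp
      ring
    rw [dd, e, ContinuousLinearMap.fderiv]
    simp
    ring
  rw [lap_eq hsm, h2, h2]
  norm_num

lemma lap_const (a : ℝ) (x : ℂ) : lap (fun _ : ℂ => a) x = 0 := by
  rw [lap, levi_const]
  simp

lemma lap_scale {g : ℂ → ℝ} (hg : ContDiff ℝ ∞ g) (t : ℝ) (x : ℂ) :
    lap (fun x => g (t • x)) x = t ^ 2 * lap g (t • x) := by
  have hs : ContDiff ℝ ∞ fun x : ℂ => g (t • x) := hg.comp (contDiff_const_smul t)
  have h1 : ∀ (g : ℂ → ℝ), ContDiff ℝ ∞ g → ∀ q b : ℂ,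
      fderiv ℝ (fun x : ℂ => g (t • x)) q b = t * fderiv ℝ g (t • q) b := by
    intro g hg q b
    have h2 : HasFDerivAt (fun x : ℂ => t • x) (t • ContinuousLinearMap.id ℝ ℂ) q :=
      (hasFDerivAt_id q).const_smul t
    have h3 : HasFDerivAt g (fderiv ℝ g (t • q)) (t • q) :=
      ((hg.differentiable (by simp)) _).hasFDerivAt
    have h4 := h3.comp q h2
    have h5 : fderiv ℝ (fun x : ℂ => g (t • x)) q =
        (fderiv ℝ g (t • q)).comp (t • ContinuousLinearMap.id ℝ ℂ) := h4.fderiv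
    rw [h5]
    simp
  have h2 : ∀ a b : ℂ, dd (fun x : ℂ => g (t • x)) x a b = t ^ 2 * dd g (t • x) a b := by
    intro a b
    have e : (fun q : ℂ => fderiv ℝ (fun x : ℂ => g (t • x)) q b) =
        fun q : ℂ => t * (fun y => fderiv ℝ g y b) (t • q) := by
      ext q
      rw [h1 g hg]
    have hd : DifferentiableAt ℝ (fun q : ℂ => (fun y => fderiv ℝ g y b) (t • q)) x := by
      have := (cd_dir hg b).comp (contDiff_const_smul (𝕜 := ℝ) (F := ℂ) (n := ∞) t)
      exact (this.differentiable (by simp)) x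
    rw [dd, e, fderiv_const_mul hd, _root_.smul_apply, h1 _ (cd_dir hg b), dd, smul_eq_mul]
    ring
  rw [lap_eq hs, lap_eq hg, h2, h2]
  ring

lemma phi_cont_z (t : ℝ) : Continuous (phi t) :=
  phi_cont.comp (continuous_id.prodMk continuous_const)

/-- The slice at time `1/2` is not strictly positive. -/
theorem not_SP : ¬ SP (phi (1 / 2)) := by
  rintro ⟨ε, hε, h⟩
  let b₀ : ContDiffBump (0 : ℂ) := ⟨1 / 2, 1, by norm_num, by norm_num⟩
  set b : ℂ → ℝ := fun x => b₀ x with hb
  have hbs : ContDiff ℝ ∞ b := b₀.contDiff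
  have hbc : HasCompactSupport b := b₀.hasCompactSupport
  have hbn : ∀ x, 0 ≤ b x := fun x => b₀.nonneg
  have hI0 : 0 < ∫ x, b x := b₀.integral_pos
  set I1 : ℝ := ∫ x, |lap b x| with hI1
  have hI1n : 0 ≤ I1 := integral_nonneg fun x => abs_nonneg _
  have hlapz : ∀ y : ℂ, 1 < ‖y‖ → lap b y = 0 := by
    intro y hy
    have h1 : b =ᶠ[𝓝 y] fun _ => 0 := by
      have : ∀ᶠ z in 𝓝 y, 1 < ‖z‖ := (continuous_norm.tendsto y).eventually (lt_mem_nhds hy)
      filter_upwards [this] with z hz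
      apply b₀.zero_of_le_dist
      rw [dist_zero_right]
      exact hz.le
    rw [lap, levi_congr h1, levi_const]
    simp
  -- the main inequality at scale `s`
  have key : ∀ s : ℝ, 0 < s → s ≤ 1 / 20000 → ε * ∫ x, b x ≤ 10 ^ 18 * s * I1 := by
    intro s hs hs2
    set χ : ℂ → ℝ := fun x => b (s⁻¹ • x) with hχ
    have hχs : ContDiff ℝ ∞ χ := hbs.comp (contDiff_const_smul s⁻¹)
    have hχc : HasCompactSupport χ := hbc.comp_smul (inv_ne_zero hs.ne')
    have hlapχ : ∀ x, lap χ x = s⁻¹ ^ 2 * lap b (s⁻¹ • x) := fun x => lap_scale hbs s⁻¹ x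
    have hlapc : Continuous (lap χ) := lap_cont hχs
    have hlaps : HasCompactSupport (lap χ) := lap_supp hχs hχc
    have h1 := h χ hχs hχc (fun x => hbn _)
    -- integrals
    have fr : Module.finrank ℝ ℂ = 2 := Complex.finrank_real_complex
    have e1 : ∫ x, χ x = s ^ 2 * ∫ x, b x := by
      have := Measure.integral_comp_inv_smul (volume : Measure ℂ) b s
      rw [fr, abs_of_pos (by positivity), smul_eq_mul] at this
      exact this
    have e2 : ∫ x, |lap χ x| = I1 := by
      have := Measure.integral_comp_inv_smul (volume : Measure ℂ) (fun x => |lap b x|) s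
      rw [fr, abs_of_pos (by positivity), smul_eq_mul] at this
      have e3 : (fun x => |lap χ x|) = fun x => s⁻¹ ^ 2 * |lap b (s⁻¹ • x)| := by
        ext x
        rw [hlapχ, abs_mul, abs_of_pos (by positivity : (0 : ℝ) < s⁻¹ ^ 2)]
      rw [e3, integral_const_mul, this, hI1]
      field_simp
    have hphi := phi_cont_z (1 / 2)
    have i1 : Integrable fun x => ‖x‖ ^ 2 * lap χ x := by
      apply Continuous.integrable_of_hasCompactSupport (by fun_prop) hlaps.mul_left
    have i2 : Integrable fun x => phi (1 / 2) x * lap χ x :=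
      (hphi.mul hlapc).integrable_of_hasCompactSupport hlaps.mul_left
    have i3 : Integrable fun x => cc 0 * lap χ x := by
      apply Continuous.integrable_of_hasCompactSupport (by fun_prop) hlaps.mul_left
    have i4 : Integrable χ := hχs.continuous.integrable_of_hasCompactSupport hχc
    have e4 : ∫ x, χ x = ∫ x : ℂ, ‖x‖ ^ 2 * lap χ x := by
      rw [ibp_lap (contDiff_norm_sq ℝ) hχs hχc]
      simp only [lap_sq, one_mul]
    have e5 : ∫ x, cc 0 * lap χ x = 0 := by
      rw [ibp_lap contDiff_const hχs hχc]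
      simp [lap_const]
    have e6 : ∫ x, (χ x + phi (1 / 2) x * (levi χ x 1 1).re) =
        ∫ x : ℂ, (‖x‖ ^ 2 + phi (1 / 2) x - cc 0) * lap χ x := by
      have : (fun x : ℂ => (‖x‖ ^ 2 + phi (1 / 2) x - cc 0) * lap χ x) = fun x =>
        (‖x‖ ^ 2 * lap χ x + phi (1 / 2) x * lap χ x) - cc 0 * lap χ x := by ext x; ring
      have i12 : Integrable fun x : ℂ => ‖x‖ ^ 2 * lap χ x + phi (1 / 2) x * lap χ x := i1.add i2
      rw [this, integral_sub i12 i3, integral_add i1 i2, ← e4, e5, sub_zero]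
      have h7 : (fun x : ℂ => χ x + phi (1 / 2) x * (levi χ x 1 1).re) =
        fun x => χ x + phi (1 / 2) x * lap χ x := rfl
      rw [h7, integral_add i4 i2]
    have e7 : ∫ x : ℂ, (‖x‖ ^ 2 + phi (1 / 2) x - cc 0) * lap χ x ≤
        ∫ x, 10 ^ 18 * s ^ 3 * |lap χ x| := by
      apply integral_mono
      · exact Continuous.integrable_of_hasCompactSupport (by fun_prop) hlaps.mul_left
      · have : Integrable fun x => |lap χ x| :=
          (hlapc.integrable_of_hasCompactSupport hlaps).abs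
        exact this.const_mul _
      · intro x
        simp only
        by_cases hx : ‖x‖ ≤ s
        · have h8 := phi_expand (hx.trans hs2)
          calc (‖x‖ ^ 2 + phi (1 / 2) x - cc 0) * lap χ x
              ≤ |(‖x‖ ^ 2 + phi (1 / 2) x - cc 0) * lap χ x| := le_abs_self _
            _ = |‖x‖ ^ 2 + phi (1 / 2) x - cc 0| * |lap χ x| := abs_mul _ _
            _ ≤ 10 ^ 18 * s ^ 3 * |lap χ x| := by
                apply mul_le_mul_of_nonneg_right _ (abs_nonneg _)
                refine h8.trans ?_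
                have : ‖x‖ ^ 3 ≤ s ^ 3 := pow_le_pow_left₀ (norm_nonneg _) hx 3
                linarith
        · have h9 : lap χ x = 0 := by
            rw [hlapχ, hlapz, mul_zero]
            rw [norm_smul, norm_inv, Real.norm_eq_abs, abs_of_pos hs, ← div_eq_inv_mul,
              one_lt_div hs]
            exact not_le.1 hx
          rw [h9]
          simp
    rw [integral_const_mul, e2] at e7
    rw [e6, e1] at h1
    have h10 : ε * (s ^ 2 * ∫ x, b x) ≤ 10 ^ 18 * s ^ 3 * I1 := h1.trans e7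
    have h11 : s ^ 2 * (ε * ∫ x, b x) ≤ s ^ 2 * (10 ^ 18 * s * I1) := by
      calc s ^ 2 * (ε * ∫ x, b x) = ε * (s ^ 2 * ∫ x, b x) := by ring
        _ ≤ _ := h10
        _ = _ := by ring
    exact le_of_mul_le_mul_left h11 (by positivity)
  have hpos : 0 < ε * ∫ x, b x := by positivity
  set s := min (1 / 20000) ((ε * ∫ x, b x) / (2 * 10 ^ 18 * (I1 + 1))) with hs
  have hs0 : 0 < s := lt_min (by norm_num) (by positivity)
  have h1 := key s hs0 (min_le_left _ _)
  have h2 : s ≤ (ε * ∫ x, b x) / (2 * 10 ^ 18 * (I1 + 1)) := min_le_right _ _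
  rw [le_div_iff₀ (by positivity)] at h2
  nlinarith

end Pool.Agent.Y502
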