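import Pool.Agent.Y502.Psi

/-! # The geodesic -/

set_option autoImplicit false

open Real Metric Set Filter Topology MeasureTheory

namespace Pool.Agent.Y502

/-- The geodesic as a function of the time `t` and the point `z`. -/
noncomputable def phi (t : ℝ) (z : ℂ) : ℝ := sSup ((fun τ => psi τ z + τ * t) '' Icc (-20) 20)

lemma phi_nonempty (t : ℝ) (z : ℂ) :
    ((fun τ => psi τ z + τ * t) '' Icc (-20) 20).Nonempty :=
  ⟨_, 0, by simp, rfl⟩

lemma term_le {t τ : ℝ} (hτ : τ ∈ Icc (-20 : ℝ) 20) (z : ℂ) :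
    psi τ z + τ * t ≤ 10 + 20 * |t| := by
  have h1 := psi_le0 τ z
  have h2 := abs_le.1 (u0_bd z)
  have h3 : τ * t ≤ 20 * |t| := by
    calc τ * t ≤ |τ * t| := le_abs_self _
      _ = |τ| * |t| := abs_mul _ _
      _ ≤ 20 * |t| := mul_le_mul_of_nonneg_right (abs_le.2 hτ) (abs_nonneg t)
  linarith [h2.2]

lemma phi_bdd (t : ℝ) (z : ℂ) : BddAbove ((fun τ => psi τ z + τ * t) '' Icc (-20) 20) := by
  refine ⟨10 + 20 * |t|, ?_⟩
  rintro _ ⟨τ, hτ, rfl⟩
  exact term_le hτ z

lemma le_phi {t τ : ℝ} (hτ : τ ∈ Icc (-20 : ℝ) 20) (z : ℂ) : psi τ z + τ * t ≤ phi t z :=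
  le_csSup (phi_bdd t z) ⟨τ, hτ, rfl⟩

lemma phi_le {t M : ℝ} {z : ℂ} (h : ∀ τ ∈ Icc (-20 : ℝ) 20, psi τ z + τ * t ≤ M) :
    phi t z ≤ M := by
  apply csSup_le (phi_nonempty t z)
  rintro _ ⟨τ, hτ, rfl⟩
  exact h τ hτ

lemma phi_lip_z (t : ℝ) (z w : ℂ) : phi t z ≤ phi t w + 10 * ‖z - w‖ := by
  apply phi_le
  intro τ hτ
  have h1 := (abs_le.1 (psi_lip τ w (z - w))).2
  rw [add_sub_cancel] at h1
  linarith [le_phi (t := t) hτ w]

lemma phi_lip_t (t s : ℝ) (z : ℂ) : phi t z ≤ phi s z + 20 * |t - s| := by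
  apply phi_le
  intro τ hτ
  have h1 : τ * (t - s) ≤ 20 * |t - s| := by
    calc τ * (t - s) ≤ |τ * (t - s)| := le_abs_self _
      _ = |τ| * |t - s| := abs_mul _ _
      _ ≤ 20 * |t - s| := mul_le_mul_of_nonneg_right (abs_le.2 hτ) (abs_nonneg _)
  have := le_phi (t := s) hτ z
  linarith

lemma phi_cont : Continuous (fun p : ℂ × ℝ => phi p.2 p.1) := by
  rw [Metric.continuous_iff]
  intro p ε hε
  refine ⟨ε / 60, by positivity, ?_⟩
  intro q hq
  have h1 : dist q.1 p.1 < ε / 60 := lt_of_le_of_lt (le_max_left _ _) hq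
  have h2 : dist q.2 p.2 < ε / 60 := lt_of_le_of_lt (le_max_right _ _) hq
  have h1' : dist p.1 q.1 < ε / 60 := by rwa [dist_comm]
  rw [dist_eq_norm] at h1 h1'
  rw [Real.dist_eq] at h2 ⊢
  have a1 := phi_lip_z q.2 q.1 p.1
  have a2 := phi_lip_t q.2 p.2 p.1
  have a3 := phi_lip_z p.2 p.1 q.1
  have a4 := phi_lip_t p.2 q.2 q.1
  rw [abs_sub_comm p.2 q.2] at a4
  rw [abs_lt]
  constructor <;> linarith

lemma phi_zero (z : ℂ) : phi 0 z = u0 z := by
  apply le_antisymm
  · apply phi_le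
    intro τ _
    rw [mul_zero, add_zero]
    exact psi_le0 τ z
  · have := le_phi (t := 0) (τ := -20) (by simp) z
    rwa [mul_zero, add_zero, psi_low le_rfl] at this

lemma phi_one (z : ℂ) : phi 1 z = u1 z := by
  apply le_antisymm
  · apply phi_le
    intro τ _
    have := psi_le1 τ z
    linarith
  · have := le_phi (t := 1) (τ := 20) (by simp) z
    rw [psi_high le_rfl] at this
    linarith

lemma phi_bd {t : ℝ} (ht : t ∈ Icc (0 : ℝ) 1) (z : ℂ) : |phi t z| ≤ 30 := by
  rw [abs_le]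
  constructor
  · have h1 := le_phi (t := t) (τ := 0) (by simp) z
    have h2 := abs_le.1 (psi_bd 0 z)
    rw [abs_zero] at h2
    linarith [h2.1]
  · apply phi_le
    intro τ hτ
    have := term_le (t := t) hτ z
    rw [abs_of_nonneg ht.1] at this
    linarith [ht.2]

lemma phi_per {p : ℂ} (h0 : ∀ z, u0 (z + p) = u0 z) (t : ℝ) (z : ℂ) :
    phi t (z + p) = phi t z := by
  rw [phi, phi]
  congr 1
  ext y
  simp only [mem_image, psi_per h0]

/-- At time `1/2` the function `|z|² + φ` is constant up to third order at the origin. -/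
lemma phi_expand {z : ℂ} (hz : ‖z‖ ≤ 1 / 20000) :
    |‖z‖ ^ 2 + phi (1 / 2) z - cc 0| ≤ 10 ^ 18 * ‖z‖ ^ 3 := by
  have hn : 0 ≤ ‖z‖ ^ 3 := by positivity
  have e0 := abs_le.1 (psi_expand (τ := 0) (by norm_num) hz)
  have e1 := abs_le.1 (psi_expand (τ := 1 / 200) (by rw [abs_of_pos] <;> norm_num) hz)
  have e2 := abs_le.1 (psi_expand (τ := -(1 / 200)) (by rw [abs_neg, abs_of_pos] <;> norm_num) hz)
  have c1 := cc_le (1 / 200)
  have c2 := cc_le (-(1 / 200))
  rw [abs_le]
  constructor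
  · have := le_phi (t := 1 / 2) (τ := 0) (by simp) z
    linarith [e0.1]
  · have : phi (1 / 2) z ≤ cc 0 + 10 ^ 18 * ‖z‖ ^ 3 - ‖z‖ ^ 2 := by
      apply phi_le
      intro τ hτ
      rcases le_or_gt |τ| (1 / 200) with h | h
      · have h1 := abs_le.1 (psi_expand h hz)
        have h2 := cc_le τ
        linarith [h1.2]
      · rcases lt_abs.1 h with h' | h'
        · -- large positive τ
          have hτ0 : 0 < τ := by linarith
          have hs0 : 0 ≤ (1 / 200) / τ := by positivity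
          have hs1 : (1 / 200) / τ ≤ 1 := by
            rw [div_le_one hτ0]; exact h'.le
          have h1 := psi_concave (τ := 0) (τ' := τ) (s := 1 - (1 / 200) / τ) (t := (1 / 200) / τ)
            (by linarith) hs0 (by ring) z
          have e : (1 - 1 / 200 / τ) * 0 + 1 / 200 / τ * τ = 1 / 200 := by
            field_simp
            ring
          rw [e] at h1
          have h2 : (1 / 200) / τ * (psi τ z - psi 0 z) ≤ psi (1 / 200) z - psi 0 z := by
            linarith
          have h3 : psi (1 / 200) z - psi 0 z ≤ -(1 / 400) + 72 * 10 ^ 12 * ‖z‖ ^ 3 := by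
            linarith [e1.2, e0.1]
          have h4 : psi τ z - psi 0 z ≤ τ * 200 * (-(1 / 400) + 72 * 10 ^ 12 * ‖z‖ ^ 3) := by
            have h5 : τ * 200 * ((1 / 200) / τ * (psi τ z - psi 0 z)) ≤
                τ * 200 * (-(1 / 400) + 72 * 10 ^ 12 * ‖z‖ ^ 3) :=
              mul_le_mul_of_nonneg_left (h2.trans h3) (by positivity)
            have h6 : τ * 200 * ((1 / 200) / τ * (psi τ z - psi 0 z)) = psi τ z - psi 0 z := by
              field_simp
            rwa [h6] at h5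
          have h7 : τ * 200 * (72 * 10 ^ 12 * ‖z‖ ^ 3) ≤ 20 * 200 * (72 * 10 ^ 12 * ‖z‖ ^ 3) := by
            apply mul_le_mul_of_nonneg_right _ (by positivity)
            linarith [hτ.2]
          linarith [e0.2]
        · have hτ0 : 0 < -τ := by linarith
          have hτ0' : τ ≠ 0 := by linarith
          have hs0 : 0 ≤ (1 / 200) / (-τ) := by positivity
          have hs1 : (1 / 200) / (-τ) ≤ 1 := by
            rw [div_le_one hτ0]; exact h'.le
          have h1 := psi_concave (τ := 0) (τ' := τ) (s := 1 - (1 / 200) / (-τ))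
            (t := (1 / 200) / (-τ)) (by linarith) hs0 (by ring) z
          have e : (1 - 1 / 200 / (-τ)) * 0 + 1 / 200 / (-τ) * τ = -(1 / 200) := by
            field_simp
            ring
          rw [e] at h1
          have h2 : (1 / 200) / (-τ) * (psi τ z - psi 0 z) ≤ psi (-(1 / 200)) z - psi 0 z := by
            linarith
          have h3 : psi (-(1 / 200)) z - psi 0 z ≤ 1 / 400 + 72 * 10 ^ 12 * ‖z‖ ^ 3 := by
            linarith [e2.2, e0.1]
          have h4 : psi τ z - psi 0 z ≤ -τ * 200 * (1 / 400 + 72 * 10 ^ 12 * ‖z‖ ^ 3) := by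
            have h5 : -τ * 200 * ((1 / 200) / (-τ) * (psi τ z - psi 0 z)) ≤
                -τ * 200 * (1 / 400 + 72 * 10 ^ 12 * ‖z‖ ^ 3) :=
              mul_le_mul_of_nonneg_left (h2.trans h3) (by positivity)
            have h6 : -τ * 200 * ((1 / 200) / (-τ) * (psi τ z - psi 0 z)) = psi τ z - psi 0 z := by
              field_simp
            rwa [h6] at h5
          have h7 : -τ * 200 * (72 * 10 ^ 12 * ‖z‖ ^ 3) ≤ 20 * 200 * (72 * 10 ^ 12 * ‖z‖ ^ 3) := by
            apply mul_le_mul_of_nonneg_right _ (by positivity)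
            linarith [hτ.1]
          linarith [e0.2]
    linarith

end Pool.Agent.Y502
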