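import Pool.Agent.Y502.Jint
import Pool.Agent.Y502.Phi

/-! # The mollified family -/

set_option autoImplicit false

open Real Metric Set Filter Topology MeasureTheory
open scoped ContDiff ENNReal

namespace Pool.Agent.Y502

/-- The grid. -/
noncomputable def ta (Δ : ℝ) (k : ℕ) : ℝ := -20 + k * Δ

/-- `|z|² + ψ_τ` for `τ` in the grid. -/
noncomputable def FF (Δ : ℝ) (k : ℕ) (z : ℂ) : ℝ := ‖z‖ ^ 2 + psi (ta Δ k) z

/-- mollified -/
noncomputable def ff (ρ : ℂ → ℝ) (Δ : ℝ) (k : ℕ) : ℂ → ℝ := mo ρ (FF Δ k)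

lemma FF_cont (Δ : ℝ) (k : ℕ) : Continuous (FF Δ k) := by
  have := psi_cont (ta Δ k)
  unfold FF
  fun_prop

lemma FF_QS (Δ : ℝ) (k : ℕ) : QS 0 (FF Δ k) := (QS_one_iff (psi_cont _)).1 (psi_QS _)

lemma ca_two {f : ℂ → ℝ} (hf : Continuous f) (c : ℂ) (r : ℝ) :
    circleAverage f c r =
      circleAverage (fun z => (1 / 2 : ℝ) * (f (c + (z - c)) + f (c - (z - c)))) c r := by
  have h0 : circleAverage (fun z => f (c + (z - c))) c r = circleAverage f c r := by
    congr 1; ext z; congr 1; ring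
  have h1 : circleAverage (fun z => f (c - (z - c))) c r = circleAverage f c r := by
    have := ca_rot f c r (u := -1) (by simp)
    rw [← this]; congr 1; ext z; congr 1; ring
  rw [ca_mul, ca_add (by fun_prop) (by fun_prop), h0, h1]
  ring

lemma psi_super (τ : ℝ) (c : ℂ) {r : ℝ} (hr : 0 < r) :
    circleAverage (psi τ) c r ≤ psi τ c + 5 * r ^ 2 := by
  have := psi_cont τ
  rw [ca_two (psi_cont τ)]
  apply ca_le_of_le (by fun_prop)
  intro z hz
  rw [abs_of_pos hr, mem_sphere, dist_eq_norm] at hz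
  have := psi_semi τ c (z - c)
  rw [hz] at this
  linarith

lemma FF_super (Δ : ℝ) (k : ℕ) (c : ℂ) {r : ℝ} (hr : 0 < r) :
    circleAverage (FF Δ k) c r ≤ FF Δ k c + 6 * r ^ 2 := by
  have h1 := psi_super (ta Δ k) c hr
  have h2 : circleAverage (FF Δ k) c r = (‖c‖ ^ 2 + r ^ 2) + circleAverage (psi (ta Δ k)) c r := by
    have := psi_cont (ta Δ k)
    rw [← ca_sq, ← ca_add (by fun_prop) this]
    rfl
  rw [h2, FF]
  linarith

section

variable {δ : ℝ} {ρ : ℂ → ℝ} (hρ : Mo δ ρ)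

include hρ

lemma ff_smooth (Δ : ℝ) (k : ℕ) : ContDiff ℝ ∞ (ff ρ Δ k) := hρ.contDiff (FF_cont Δ k)

lemma lap_ff_nonneg (Δ : ℝ) (k : ℕ) (x : ℂ) : 0 ≤ lap (ff ρ Δ k) x := by
  have := lap_ge (ff_smooth hρ Δ k) x (κ := 0) one_pos (fun r hr _ => by
    have := hρ.submean (FF_cont Δ k) (c := x) (r := r) (b := 0) (fun y _ => by
      simpa using FF_QS Δ k (x - y) r hr)
    rw [ff]
    linarith)
  linarith

lemma lap_ff_le (Δ : ℝ) (k : ℕ) (x : ℂ) : lap (ff ρ Δ k) x ≤ 6 :=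
  lap_le (ff_smooth hρ Δ k) x (κ := 6) one_pos (fun r hr _ =>
    hρ.supermean (FF_cont Δ k) (fun y _ => FF_super Δ k (x - y) hr))

lemma ff_sub (Δ : ℝ) (k : ℕ) (x : ℂ) : ff ρ Δ k x - ff ρ Δ (k + 1) x =
    mo ρ (fun y => psi (ta Δ k) y - psi (ta Δ (k + 1)) y) x := by
  rw [ff, ff, hρ.sub (FF_cont Δ k) (FF_cont Δ (k + 1))]
  congr 1
  ext y
  rw [FF, FF]
  ring

lemma ff_concave (Δ : ℝ) (k : ℕ) (x : ℂ) :
    ff ρ Δ k x - ff ρ Δ (k + 1) x ≤ ff ρ Δ (k + 1) x - ff ρ Δ (k + 2) x := by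
  rw [ff_sub hρ, ff_sub hρ, mo, mo]
  have c1 := psi_cont (ta Δ k)
  have c2 := psi_cont (ta Δ (k + 1))
  have c3 := psi_cont (ta Δ (k + 1 + 1))
  apply hρ.mono (F := fun y => psi (ta Δ k) (x - y) - psi (ta Δ (k + 1)) (x - y))
    (G := fun y => psi (ta Δ (k + 1)) (x - y) - psi (ta Δ (k + 1 + 1)) (x - y)) (by fun_prop)
    (by fun_prop)
  intro y _
  have := psi_concave (τ := ta Δ k) (τ' := ta Δ (k + 1 + 1)) (s := 1 / 2) (t := 1 / 2)
    (by norm_num) (by norm_num) (by norm_num) (x - y)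
  have e : 1 / 2 * ta Δ k + 1 / 2 * ta Δ (k + 1 + 1) = ta Δ (k + 1) := by
    rw [ta, ta, ta]
    push_cast
    ring
  rw [e] at this
  linarith

lemma tk_gap {Δ κ : ℝ} (hΔ : 0 < Δ) (k : ℕ) (x : ℂ) :
    tk (ff ρ Δ) Δ κ k x + κ ≤ tk (ff ρ Δ) Δ κ (k + 1) x := by
  have h1 := ff_concave hρ Δ k x
  have h2 := div_le_div_of_nonneg_right h1 hΔ.le
  rw [tk, tk]
  push_cast
  linarith

lemma tk_close {Δ κ : ℝ} (hΔ : 0 < Δ) (hκ : 0 ≤ κ) (k : ℕ) {x x' : ℂ} (h : ‖x - x'‖ ≤ δ) :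
    |tk (ff ρ Δ) Δ κ k x - (psi (ta Δ k) x' - psi (ta Δ (k + 1)) x') / Δ| ≤
      40 * δ / Δ + κ * k := by
  have c1 := psi_cont (ta Δ k)
  have c2 := psi_cont (ta Δ (k + 1))
  have h1 : |mo ρ (fun y => psi (ta Δ k) y - psi (ta Δ (k + 1)) y) x -
      (psi (ta Δ k) x' - psi (ta Δ (k + 1)) x')| ≤ 40 * δ := by
    apply hρ.close (by fun_prop)
    intro y hy
    have a1 := abs_le.1 (psi_lip (ta Δ k) x' (x - y - x'))
    have a2 := abs_le.1 (psi_lip (ta Δ (k + 1)) x' (x - y - x'))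
    rw [add_sub_cancel] at a1 a2
    have a3 : ‖x - y - x'‖ ≤ 2 * δ := by
      calc ‖x - y - x'‖ = ‖(x - x') - y‖ := by ring_nf
        _ ≤ ‖x - x'‖ + ‖y‖ := norm_sub_le _ _
        _ ≤ 2 * δ := by linarith
    rw [abs_le]
    constructor <;> linarith [a1.1, a1.2, a2.1, a2.2]
  rw [tk, ff_sub hρ]
  have e : mo ρ (fun y => psi (ta Δ k) y - psi (ta Δ (k + 1)) y) x / Δ + κ * k -
      (psi (ta Δ k) x' - psi (ta Δ (k + 1)) x') / Δ =
      (mo ρ (fun y => psi (ta Δ k) y - psi (ta Δ (k + 1)) y) x -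
      (psi (ta Δ k) x' - psi (ta Δ (k + 1)) x')) / Δ + κ * k := by ring
  rw [e]
  refine (abs_add_le _ _).trans ?_
  rw [abs_div, abs_of_pos hΔ, abs_of_nonneg (by positivity : 0 ≤ κ * (k : ℝ))]
  gcongr

/-- The Laplacian vanishes away from the contact set. -/
lemma lap_ff_zero {Δ : ℝ} {k : ℕ} {x : ℂ}
    (h : ∀ y ∈ closedBall x δ, psi (ta Δ k) y < obs (ta Δ k) y) : lap (ff ρ Δ k) x = 0 := by
  have c1 := psi_cont (ta Δ k)
  have c2 := (obs_ob (ta Δ k)).cont
  -- a uniform gap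
  obtain ⟨g, hg, hgap⟩ : ∃ g > 0, ∀ y ∈ closedBall x δ, g ≤ obs (ta Δ k) y - psi (ta Δ k) y := by
    rcases (closedBall x δ).eq_empty_or_nonempty with he | hne
    · exact ⟨1, one_pos, fun y hy => by rw [he] at hy; exact absurd hy (notMem_empty y)⟩
    · obtain ⟨m, hm, hmin⟩ := (isCompact_closedBall x δ).exists_isMinOn hne
        (f := fun y => obs (ta Δ k) y - psi (ta Δ k) y) (by fun_prop)
      exact ⟨_, sub_pos.2 (h m hm), fun y hy => hmin hy⟩
  set R₀ := min 1 (g / 21) with hR₀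
  have hR₀pos : 0 < R₀ := lt_min one_pos (by positivity)
  have key : ∀ y, ‖y‖ < δ → ∀ r, 0 < r → r < R₀ →
      circleAverage (FF Δ k) (x - y) r = FF Δ k (x - y) := by
    intro y hy r hr hr2
    have hy' : x - y ∈ closedBall x δ := by
      rw [mem_closedBall, dist_eq_norm]
      have : x - y - x = -y := by ring
      rw [this, norm_neg]
      exact hy.le
    have r1 : r < 1 := lt_of_lt_of_le hr2 (min_le_left _ _)
    have r2 : r < g / 21 := lt_of_lt_of_le hr2 (min_le_right _ _)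
    have h1 := psi_mean (τ := ta Δ k) (a := x - y) hr (by
      refine le_trans ?_ (hgap _ hy')
      nlinarith)
    have h2 : circleAverage (FF Δ k) (x - y) r =
        (‖x - y‖ ^ 2 + r ^ 2) + circleAverage (psi (ta Δ k)) (x - y) r := by
      rw [← ca_sq, ← ca_add (by fun_prop) c1]
      rfl
    rw [h2, FF]
    linarith
  apply le_antisymm
  · apply lap_le (ff_smooth hρ Δ k) x (κ := 0) hR₀pos
    intro r hr hr2
    have := hρ.supermean (FF_cont Δ k) (c := x) (r := r) (b := 0) (fun y hy => by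
      rw [key y hy r hr hr2]; simp)
    rw [ff]
    linarith
  · have := lap_ge (ff_smooth hρ Δ k) x (κ := 0) hR₀pos (fun r hr hr2 => by
      have := hρ.submean (FF_cont Δ k) (c := x) (r := r) (b := 0) (fun y hy => by
        rw [key y hy r hr hr2]; simp)
      rw [ff]
      linarith)
    linarith

/-- Near the contact set all earlier or all later breakpoints are extreme. -/
lemma contact_cases {Δ κ : ℝ} (hΔ : 0 < Δ) (hκ : 0 ≤ κ) {k : ℕ} {x : ℂ}
    (h : lap (ff ρ Δ k) x ≠ 0) :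
    (∀ j, j < k → tk (ff ρ Δ) Δ κ j x ≤ 40 * δ / Δ + κ * j) ∨
    (∀ j, k ≤ j → 1 - (40 * δ / Δ + κ * j) ≤ tk (ff ρ Δ) Δ κ j x) := by
  obtain ⟨y, hy, hy2⟩ : ∃ y ∈ closedBall x δ, obs (ta Δ k) y ≤ psi (ta Δ k) y := by
    by_contra hcon
    push Not at hcon
    exact h (lap_ff_zero hρ hcon)
  rw [mem_closedBall, dist_comm, dist_eq_norm] at hy
  have hmono : ∀ i j : ℕ, i ≤ j → ta Δ i ≤ ta Δ j := by
    intro i j hij
    rw [ta, ta]
    have : (i : ℝ) ≤ j := by exact_mod_cast hij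
    nlinarith
  rw [obs] at hy2
  rcases min_cases (u0 y) (u1 y - ta Δ k) with hc | hc
  · left
    rw [hc.1] at hy2
    intro j hj
    have e : ∀ i, i ≤ k → psi (ta Δ i) y = u0 y := fun i hi =>
      le_antisymm (psi_le0 _ _) (hy2.trans (psi_anti (hmono i k hi) y))
    have := (abs_le.1 (tk_close hρ hΔ hκ j hy)).2
    rw [e j hj.le, e (j + 1) hj] at this
    simpa using this
  · right
    rw [hc.1] at hy2
    intro j hj
    have e : ∀ i, k ≤ i → psi (ta Δ i) y = u1 y - ta Δ i := fun i hi => by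
      apply le_antisymm (psi_le1 _ _)
      have := psi_lipt (hmono k i hi) y
      linarith
    have := (abs_le.1 (tk_close hρ hΔ hκ j hy)).1
    rw [e j hj, e (j + 1) (by omega)] at this
    have e2 : (u1 y - ta Δ j - (u1 y - ta Δ (j + 1))) / Δ = 1 := by
      rw [ta, ta]
      push_cast
      field_simp
      ring
    rw [e2] at this
    linarith

/-- At every point at most one active breakpoint contributes. -/
lemma active_sum {Δ κ e : ℝ} (hΔ : 0 < Δ) (hκ : 0 ≤ κ) {n : ℕ} (he : 40 * δ / Δ + κ * n ≤ e)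
    (x : ℂ) (S : Finset ℕ) (hS : ∀ k ∈ S, k < n ∧ e < tk (ff ρ Δ) Δ κ k x ∧
      tk (ff ρ Δ) Δ κ k x < 1 - e) :
    ∑ k ∈ S, (lap (ff ρ Δ k) x + lap (ff ρ Δ (k + 1)) x) ≤ 12 := by
  have he' : ∀ j, j < n → 40 * δ / Δ + κ * j ≤ e := by
    intro j hj
    have : κ * j ≤ κ * n := mul_le_mul_of_nonneg_left (by exact_mod_cast hj.le) hκ
    linarith
  have h1 : ∑ k ∈ S, lap (ff ρ Δ k) x ≤ 6 := by
    by_cases hex : ∃ k ∈ S, lap (ff ρ Δ k) x ≠ 0
    · obtain ⟨m, hm, hm2⟩ := hex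
      have hmin : ∀ k ∈ S, lap (ff ρ Δ k) x ≠ 0 → ∀ j ∈ S, k ≤ j := by
        intro k hk hk2 j hj
        rcases contact_cases hρ hΔ hκ hk2 with hc | hc
        · by_contra hcon
          push Not at hcon
          have := hc j hcon
          have := (hS j hj).2.1
          have := he' j (hS j hj).1
          linarith
        · exfalso
          have := hc k le_rfl
          have := (hS k hk).2.2
          have := he' k (hS k hk).1
          linarith
      rw [Finset.sum_eq_single_of_mem m hm]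
      · exact lap_ff_le hρ Δ m x
      · intro k hk hkm
        by_contra hk2
        exact hkm (le_antisymm (hmin k hk hk2 m hm) (hmin m hm hm2 k hk))
    · push Not at hex
      rw [Finset.sum_eq_zero hex]
      norm_num
  have h2 : ∑ k ∈ S, lap (ff ρ Δ (k + 1)) x ≤ 6 := by
    by_cases hex : ∃ k ∈ S, lap (ff ρ Δ (k + 1)) x ≠ 0
    · obtain ⟨m, hm, hm2⟩ := hex
      have hmax : ∀ k ∈ S, lap (ff ρ Δ (k + 1)) x ≠ 0 → ∀ j ∈ S, j ≤ k := by
        intro k hk hk2 j hj
        rcases contact_cases hρ hΔ hκ hk2 with hc | hc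
        · exfalso
          have := hc k (by omega)
          have := (hS k hk).2.1
          have := he' k (hS k hk).1
          linarith
        · by_contra hcon
          push Not at hcon
          have := hc j (by omega)
          have := (hS j hj).2.2
          have := he' j (hS j hj).1
          linarith
      rw [Finset.sum_eq_single_of_mem m hm]
      · exact lap_ff_le hρ Δ (m + 1) x
      · intro k hk hkm
        by_contra hk2
        exact hkm (le_antisymm (hmax m hm hm2 k hk) (hmax k hk hk2 m hm))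
    · push Not at hex
      rw [Finset.sum_eq_zero hex]
      norm_num
  rw [Finset.sum_add_distrib]
  linarith

end

end Pool.Agent.Y502
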