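import Pool.Agent.Y502.MAp

/-! # An integral over an annulus -/

set_option autoImplicit false

open Real Metric Set Filter Topology MeasureTheory
open scoped ContDiff ENNReal

namespace Pool.Agent.Y502

lemma radial_int {ε : ℝ} {θ θ1 θ2 : ℝ → ℝ} (hθ : Th ε θ θ1 θ2) {a b lam : ℝ} (ha : 0 < a)
    (hab : a < b) (hlam : 0 < lam) (c : ℝ) :
    ∫⁻ r in Ioo a b, ENNReal.ofReal (r * (θ2 (lam * Real.log r + c) * (lam ^ 2 / (4 * r ^ 2)))) ≤
      ENNReal.ofReal (lam / 4) := by
  set g : ℝ → ℝ := fun r => r * (θ2 (lam * Real.log r + c) * (lam ^ 2 / (4 * r ^ 2))) with hg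
  have hder : ∀ r ∈ uIcc a b, HasDerivAt (fun r => lam / 4 * θ1 (lam * Real.log r + c)) (g r) r := by
    intro r hr
    rw [uIcc_of_le hab.le] at hr
    have hr0 : 0 < r := lt_of_lt_of_le ha hr.1
    have h1 : HasDerivAt (fun r => lam * Real.log r + c) (lam * r⁻¹) r :=
      ((Real.hasDerivAt_log hr0.ne').const_mul lam).add_const c
    have h2 := ((hθ.d2 (lam * Real.log r + c)).comp r h1).const_mul (lam / 4)
    refine h2.congr_deriv ?_
    rw [hg]
    simp only
    field_simp
  have hcont : ContinuousOn g (uIcc a b) := by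
    rw [uIcc_of_le hab.le]
    have hne : ∀ r ∈ Icc a b, r ≠ 0 := fun r hr => (lt_of_lt_of_le ha hr.1).ne'
    have hlog : ContinuousOn Real.log (Icc a b) := Real.continuousOn_log.mono fun r hr => hne r hr
    have h2 := hθ.c2
    apply continuousOn_id.mul
    apply ContinuousOn.mul
    · exact h2.comp_continuousOn ((continuousOn_const.mul hlog).add continuousOn_const)
    · apply ContinuousOn.div continuousOn_const (by fun_prop)
      intro r hr
      have := hne r hr
      positivity
  have hint := intervalIntegral.integral_eq_sub_of_hasDerivAt hder hcont.intervalIntegrable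
  have hval : ∫ r in a..b, g r ≤ lam / 4 := by
    rw [hint]
    have h1 := hθ.le1 (lam * Real.log b + c)
    have h2 := hθ.nn1 (lam * Real.log a + c)
    have h3 : 0 < lam / 4 := by positivity
    nlinarith
  have hnn : ∀ r ∈ Ioo a b, 0 ≤ g r := by
    intro r hr
    have hr0 : 0 < r := lt_trans ha hr.1
    have := hθ.nn2 (lam * Real.log r + c)
    rw [hg]
    positivity
  rw [intervalIntegral.integral_of_le hab.le, integral_Ioc_eq_integral_Ioo] at hval
  rw [← ofReal_integral_eq_lintegral_ofReal]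
  · exact ENNReal.ofReal_le_ofReal hval
  · rw [uIcc_of_le hab.le] at hcont
    exact (hcont.integrableOn_Icc).mono_set Ioo_subset_Icc_self
  · exact (ae_restrict_iff' measurableSet_Ioo).2 (Eventually.of_forall hnn)

/-- The weight in the annulus. -/
noncomputable def wt (θ2 : ℝ → ℝ) (lam c t : ℝ) (z : ℂ) : ℝ :=
  θ2 (el lam c z - t) * (lam ^ 2 / (4 * ‖z‖ ^ 2))

lemma wt_int {ε : ℝ} {θ θ1 θ2 : ℝ → ℝ} (hθ : Th ε θ θ1 θ2) {a b lam : ℝ} (ha : 0 < a)
    (hab : a < b) (hlam : 0 < lam) (c t : ℝ) :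
    ∫⁻ z in {z : ℂ | a < ‖z‖ ∧ ‖z‖ < b}, ENNReal.ofReal (wt θ2 lam c t z) ≤
      ENNReal.ofReal (π * lam / 2) := by
  have hm : MeasurableSet {z : ℂ | a < ‖z‖ ∧ ‖z‖ < b} :=
    (measurableSet_lt measurable_const measurable_norm).inter
      (measurableSet_lt measurable_norm measurable_const)
  rw [← lintegral_indicator hm, ← Complex.lintegral_comp_polarCoord_symm]
  set G : ℝ → ℝ≥0∞ := (Ioo a b).indicator fun r =>
    ENNReal.ofReal (r * (θ2 (lam * Real.log r + (c - t)) * (lam ^ 2 / (4 * r ^ 2)))) with hG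
  have hGm : Measurable G := by
    apply Measurable.indicator _ measurableSet_Ioo
    have := hθ.c2.measurable
    fun_prop
  have e1 : ∀ p ∈ polarCoord.target, ENNReal.ofReal p.1 • ({z : ℂ | a < ‖z‖ ∧ ‖z‖ < b}.indicator
      (fun z => ENNReal.ofReal (wt θ2 lam c t z)) (Complex.polarCoord.symm p)) = G p.1 * 1 := by
    intro p hp
    rw [polarCoord_target] at hp
    have hp1 : 0 < p.1 := hp.1
    have hn : ‖Complex.polarCoord.symm p‖ = p.1 := by
      rw [Complex.norm_polarCoord_symm, abs_of_pos hp1]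
    by_cases h : p.1 ∈ Ioo a b
    · have h' : Complex.polarCoord.symm p ∈ {z : ℂ | a < ‖z‖ ∧ ‖z‖ < b} := by
        rw [mem_setOf_eq, hn]; exact h
      rw [indicator_of_mem h', hG, indicator_of_mem h, mul_one, smul_eq_mul,
        ← ENNReal.ofReal_mul hp1.le, wt, el, hn]
      congr 3
      ring_nf
    · have h' : Complex.polarCoord.symm p ∉ {z : ℂ | a < ‖z‖ ∧ ‖z‖ < b} := by
        rw [mem_setOf_eq, hn]; exact h
      rw [indicator_of_notMem h', hG, indicator_of_notMem h]
      simp
  have hpm : MeasurableSet polarCoord.target := polarCoord.open_target.measurableSet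
  rw [setLIntegral_congr_fun hpm e1, polarCoord_target, Measure.volume_eq_prod,
    ← Measure.prod_restrict, lintegral_prod_mul hGm.aemeasurable aemeasurable_const]
  have e2 : ∫⁻ r in Ioi (0 : ℝ), G r ≤ ENNReal.ofReal (lam / 4) := by
    calc ∫⁻ r in Ioi (0 : ℝ), G r ≤ ∫⁻ r, G r := setLIntegral_le_lintegral _ _
      _ = ∫⁻ r in Ioo a b, ENNReal.ofReal
          (r * (θ2 (lam * Real.log r + (c - t)) * (lam ^ 2 / (4 * r ^ 2)))) :=
          lintegral_indicator measurableSet_Ioo _
      _ ≤ _ := radial_int hθ ha hab hlam (c - t)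
  have e3 : ∫⁻ _ in Ioo (-π) π, (1 : ℝ≥0∞) = ENNReal.ofReal (2 * π) := by
    rw [setLIntegral_const, one_mul, Real.volume_Ioo]
    congr 1
    ring
  rw [e3]
  calc _ ≤ ENNReal.ofReal (lam / 4) * ENNReal.ofReal (2 * π) := by gcongr
    _ = ENNReal.ofReal (π * lam / 2) := by
        rw [← ENNReal.ofReal_mul (by positivity)]
        congr 1
        ring

end Pool.Agent.Y502
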