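import Pool.Agent.Y502.Moll

/-! # Circle averages and the Laplacian -/

set_option autoImplicit false

open Real Metric Set Filter Topology MeasureTheory
open scoped ContDiff

namespace Pool.Agent.Y502

lemma taylor_aux {φ : ℂ → ℝ} (hφ : ContDiff ℝ ∞ φ) {x z : ℂ} {ε : ℝ} (hε : 0 ≤ ε)
    {r : ℝ} (hz : ‖z‖ < r)
    (hB : ∀ y ∈ ball x r, ‖fderiv ℝ (fderiv ℝ φ) y - fderiv ℝ (fderiv ℝ φ) x‖ ≤ ε) :
    |φ (x + z) - φ x - fderiv ℝ φ x z - (1 / 2) * fderiv ℝ (fderiv ℝ φ) x z z| ≤ ε * ‖z‖ ^ 2 := by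
  have hD : ContDiff ℝ ∞ (fderiv ℝ φ) := hφ.fderiv_right (by simp)
  have h1 : ∀ w ∈ ball x r, ‖fderiv ℝ φ w - fderiv ℝ φ x - fderiv ℝ (fderiv ℝ φ) x (w - x)‖ ≤
      ε * ‖w - x‖ := by
    intro w hw
    exact Convex.norm_image_sub_le_of_norm_fderiv_le' (s := ball x r) (𝕜 := ℝ)
      (fun y _ => (hD.differentiable (by simp)) y) hB (convex_ball x r)
      (mem_ball_self (lt_of_le_of_lt (norm_nonneg _) hz)) hw
  have h2 : ∀ t ∈ Icc (0 : ℝ) 1, HasDerivWithinAt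
      (fun t : ℝ => φ (x + t • z) - t * fderiv ℝ φ x z - (t ^ 2 / 2) * fderiv ℝ (fderiv ℝ φ) x z z)
      (fderiv ℝ φ (x + t • z) z - fderiv ℝ φ x z - t * fderiv ℝ (fderiv ℝ φ) x z z) (Icc 0 1) t := by
    intro t _
    have a1 : HasDerivAt (fun t : ℝ => x + t • z) z t := by
      simpa using ((hasDerivAt_id t).smul_const z).const_add x
    have a2 : HasDerivAt (fun t : ℝ => φ (x + t • z)) (fderiv ℝ φ (x + t • z) z) t :=
      ((hφ.differentiable (by simp)) (x + t • z)).hasFDerivAt.comp_hasDerivAt t a1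
    have a3 : HasDerivAt (fun t : ℝ => t * fderiv ℝ φ x z) (fderiv ℝ φ x z) t := by
      simpa using (hasDerivAt_id t).mul_const (fderiv ℝ φ x z)
    have a4 : HasDerivAt (fun t : ℝ => (t ^ 2 / 2) * fderiv ℝ (fderiv ℝ φ) x z z)
        (t * fderiv ℝ (fderiv ℝ φ) x z z) t := by
      have := ((hasDerivAt_pow 2 t).div_const 2).mul_const (fderiv ℝ (fderiv ℝ φ) x z z)
      refine this.congr_deriv ?_
      norm_num
    exact ((a2.sub a3).sub a4).hasDerivWithinAt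
  have h3 : ∀ t ∈ Ico (0 : ℝ) 1,
      ‖fderiv ℝ φ (x + t • z) z - fderiv ℝ φ x z - t * fderiv ℝ (fderiv ℝ φ) x z z‖ ≤ ε * ‖z‖ ^ 2 := by
    intro t ht
    have b1 : x + t • z ∈ ball x r := by
      rw [mem_ball, dist_eq_norm, add_sub_cancel_left, norm_smul, Real.norm_eq_abs, abs_of_nonneg ht.1]
      calc t * ‖z‖ ≤ 1 * ‖z‖ := mul_le_mul_of_nonneg_right ht.2.le (norm_nonneg _)
        _ < r := by rw [one_mul]; exact hz
    have b2 := h1 _ b1
    rw [add_sub_cancel_left] at b2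
    have b3 : fderiv ℝ φ (x + t • z) z - fderiv ℝ φ x z - t * fderiv ℝ (fderiv ℝ φ) x z z =
        (fderiv ℝ φ (x + t • z) - fderiv ℝ φ x - fderiv ℝ (fderiv ℝ φ) x (t • z)) z := by
      rw [map_smul]
      simp
    rw [b3]
    calc ‖(fderiv ℝ φ (x + t • z) - fderiv ℝ φ x - fderiv ℝ (fderiv ℝ φ) x (t • z)) z‖
        ≤ ‖fderiv ℝ φ (x + t • z) - fderiv ℝ φ x - fderiv ℝ (fderiv ℝ φ) x (t • z)‖ * ‖z‖ :=
          ContinuousLinearMap.le_opNorm _ _
      _ ≤ (ε * ‖t • z‖) * ‖z‖ := mul_le_mul_of_nonneg_right b2 (norm_nonneg _)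
      _ ≤ (ε * ‖z‖) * ‖z‖ := by
          apply mul_le_mul_of_nonneg_right _ (norm_nonneg _)
          apply mul_le_mul_of_nonneg_left _ hε
          rw [norm_smul, Real.norm_eq_abs, abs_of_nonneg ht.1]
          calc t * ‖z‖ ≤ 1 * ‖z‖ := mul_le_mul_of_nonneg_right ht.2.le (norm_nonneg _)
            _ = ‖z‖ := one_mul _
      _ = ε * ‖z‖ ^ 2 := by ring
  have h4 := norm_image_sub_le_of_norm_deriv_le_segment_01' h2 h3
  rw [Real.norm_eq_abs] at h4
  refine le_of_eq_of_le ?_ h4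
  congr 1
  simp only [one_smul, zero_smul, add_zero]
  ring

lemma taylor2 {f : ℂ → ℝ} (hf : ContDiff ℝ ∞ f) (c : ℂ) {ε : ℝ} (hε : 0 < ε) :
    ∃ r₀ > 0, ∀ h : ℂ, ‖h‖ < r₀ →
      |f (c + h) - f c - fderiv ℝ f c h - (1 / 2) * fderiv ℝ (fderiv ℝ f) c h h| ≤ ε * ‖h‖ ^ 2 := by
  have hD : ContDiff ℝ ∞ (fderiv ℝ f) := hf.fderiv_right (by simp)
  have hDD : ContDiff ℝ ∞ (fderiv ℝ (fderiv ℝ f)) := hD.fderiv_right (by simp)
  obtain ⟨r₀, hr₀, h⟩ := Metric.continuousAt_iff.1 (hDD.continuous.continuousAt (x := c)) ε hε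
  refine ⟨r₀, hr₀, fun z hz => taylor_aux hf hε.le hz ?_⟩
  intro y hy
  have := h hy
  rw [dist_eq_norm] at this
  exact this.le

lemma dd_eq {f : ℂ → ℝ} (hf : ContDiff ℝ ∞ f) (c a b : ℂ) :
    dd f c a b = fderiv ℝ (fderiv ℝ f) c a b := by
  have hD : ContDiff ℝ ∞ (fderiv ℝ f) := hf.fderiv_right (by simp)
  have h1 : HasFDerivAt (fderiv ℝ f) (fderiv ℝ (fderiv ℝ f) c) c :=
    ((hD.differentiable (by simp)) c).hasFDerivAt
  have h2 := h1.clm_apply (hasFDerivAt_const b c)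
  rw [dd, h2.fderiv]
  simp

/-- `∂²f/∂z∂z̄`. -/
noncomputable def lap (f : ℂ → ℝ) (c : ℂ) : ℝ := (levi f c 1 1).re

lemma cd2 {f : ℂ → ℝ} (hf : ContDiff ℝ ∞ f) (c : ℂ) : ContDiffAt ℝ 2 f c :=
  (hf.of_le (by norm_cast)).contDiffAt

lemma lap_eq {f : ℂ → ℝ} (hf : ContDiff ℝ ∞ f) (c : ℂ) :
    lap f c = (dd f c 1 1 + dd f c Complex.I Complex.I) / 4 := by
  rw [lap, levi_eq (cd2 hf c)]
  simp only [smul_eq_mul, mul_one]
  have h4 : (4 : ℂ) = ((4 : ℝ) : ℂ) := by norm_num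
  rw [h4, Complex.div_ofReal_re]
  simp

lemma dd_symm {f : ℂ → ℝ} (hf : ContDiff ℝ ∞ f) (c a b : ℂ) : dd f c a b = dd f c b a := by
  rw [dd_eq hf, dd_eq hf]
  have : IsSymmSndFDerivAt ℝ f c :=
    (hf.contDiffAt (x := c)).isSymmSndFDerivAt (by simp; norm_cast)
  exact this a b

lemma levi_im {f : ℂ → ℝ} (hf : ContDiff ℝ ∞ f) (c : ℂ) : levi f c 1 1 = (lap f c : ℂ) := by
  rw [lap_eq hf, levi_eq (cd2 hf c)]
  simp only [smul_eq_mul, mul_one]
  rw [dd_symm hf c Complex.I 1]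
  push_cast
  ring

lemma quad_rot (B : ℂ →L[ℝ] ℂ →L[ℝ] ℝ) (h : ℂ) :
    B h h + B (Complex.I * h) (Complex.I * h) = ‖h‖ ^ 2 * (B 1 1 + B Complex.I Complex.I) := by
  have e1 : h = h.re • (1 : ℂ) + h.im • Complex.I := by
    apply Complex.ext <;> simp
  have e2 : Complex.I * h = (-h.im) • (1 : ℂ) + h.re • Complex.I := by
    apply Complex.ext <;> simp
  have e3 : ‖h‖ ^ 2 = h.re ^ 2 + h.im ^ 2 := by
    rw [← Complex.normSq_eq_norm_sq, Complex.normSq_apply]; ring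
  rw [e3, e2]
  nth_rewrite 1 2 [e1]
  simp only [map_add, map_smul, _root_.add_apply, _root_.smul_apply, smul_eq_mul]
  ring

lemma ca_four {f : ℂ → ℝ} (hf : Continuous f) (c : ℂ) (r : ℝ) :
    circleAverage f c r = circleAverage (fun z => (1 / 4 : ℝ) * ((f (c + (z - c)) + f (c + -(z - c)))
      + (f (c + Complex.I * (z - c)) + f (c + -(Complex.I * (z - c)))))) c r := by
  have h0 : circleAverage (fun z => f (c + (z - c))) c r = circleAverage f c r := by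
    congr 1; ext z; congr 1; ring
  have h1 : circleAverage (fun z => f (c + -(z - c))) c r = circleAverage f c r := by
    have := ca_rot f c r (u := -1) (by simp)
    rw [← this]; congr 1; ext z; congr 1; ring
  have h2 := ca_rot f c r (u := Complex.I) (by simp)
  have h3 : circleAverage (fun z => f (c + -(Complex.I * (z - c)))) c r = circleAverage f c r := by
    have := ca_rot f c r (u := -Complex.I) (by simp)
    rw [← this]; congr 1; ext z; congr 1; ring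
  rw [ca_mul, ca_add (by fun_prop) (by fun_prop), ca_add (by fun_prop) (by fun_prop),
    ca_add (by fun_prop) (by fun_prop), h0, h1, h2, h3]
  ring

/-- Upper bound of the mean value by the Laplacian. -/
lemma ca_le_lap {f : ℂ → ℝ} (hf : ContDiff ℝ ∞ f) (c : ℂ) {ε : ℝ} (hε : 0 < ε) :
    ∃ r₀ > 0, ∀ r, 0 < r → r < r₀ → circleAverage f c r ≤ f c + r ^ 2 * (lap f c + ε) := by
  obtain ⟨r₀, hr₀, h⟩ := taylor2 hf c hε
  refine ⟨r₀, hr₀, ?_⟩
  intro r hr hrr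
  rw [ca_four hf.continuous]
  apply ca_le_of_le (by have := hf.continuous; fun_prop)
  intro z hz
  rw [abs_of_pos hr, mem_sphere, dist_eq_norm] at hz
  set D := z - c
  have t1 := (abs_le.1 (h D (by rw [hz]; exact hrr))).2
  have t2 := (abs_le.1 (h (-D) (by rw [norm_neg, hz]; exact hrr))).2
  have hI : ‖Complex.I * D‖ = r := by rw [norm_mul, Complex.norm_I, one_mul, hz]
  have t3 := (abs_le.1 (h (Complex.I * D) (by rw [hI]; exact hrr))).2
  have t4 := (abs_le.1 (h (-(Complex.I * D)) (by rw [norm_neg, hI]; exact hrr))).2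
  have hq := quad_rot (fderiv ℝ (fderiv ℝ f) c) D
  simp only [map_neg, _root_.neg_apply, neg_neg, norm_neg] at t2 t4
  rw [hI] at t3 t4
  rw [hz] at t1 t2 hq
  rw [lap_eq hf, dd_eq hf, dd_eq hf]
  nlinarith

/-- The sub-mean value inequality gives a lower bound of the Laplacian. -/
lemma lap_ge {f : ℂ → ℝ} (hf : ContDiff ℝ ∞ f) (c : ℂ) {κ r₁ : ℝ} (hr₁ : 0 < r₁)
    (h : ∀ r, 0 < r → r < r₁ → f c ≤ circleAverage f c r + κ * r ^ 2) : -κ ≤ lap f c := by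
  apply le_of_forall_pos_le_add
  intro ε hε
  obtain ⟨r₀, hr₀, h2⟩ := ca_le_lap hf c hε
  set r := min (r₀ / 2) (r₁ / 2)
  have hr : 0 < r := lt_min (by positivity) (by positivity)
  have a1 := h r hr (lt_of_le_of_lt (min_le_right _ _) (by linarith))
  have a2 := h2 r hr (lt_of_le_of_lt (min_le_left _ _) (by linarith))
  have a3 : 0 ≤ r ^ 2 * (lap f c + ε + κ) := by nlinarith
  have a4 : 0 ≤ lap f c + ε + κ := by
    by_contra hcon
    push Not at hcon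
    have : 0 < r ^ 2 := by positivity
    nlinarith
  linarith

lemma lap_neg {f : ℂ → ℝ} (hf : ContDiff ℝ ∞ f) (c : ℂ) : lap (fun z => - f z) c = - lap f c := by
  have h : (fun z => - f z) = fun z => (-1) * f z := by ext z; ring
  rw [lap, lap, h, levi_mul (-1) (cd2 hf c)]
  simp

lemma lap_le {f : ℂ → ℝ} (hf : ContDiff ℝ ∞ f) (c : ℂ) {κ r₁ : ℝ} (hr₁ : 0 < r₁)
    (h : ∀ r, 0 < r → r < r₁ → circleAverage f c r ≤ f c + κ * r ^ 2) : lap f c ≤ κ := by
  have := lap_ge (f := fun z => - f z) hf.neg c (κ := κ) hr₁ (fun r hr hr2 => by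
    rw [ca_neg]; linarith [h r hr hr2])
  rw [lap_neg hf] at this
  linarith

end Pool.Agent.Y502
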