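import Mathlib

/-! # The complex Hessian -/

set_option autoImplicit false

open Filter Topology
open scoped ContDiff ComplexConjugate

namespace Pool.Agent.Y502

section defs

variable {E : Type*} [NormedAddCommGroup E] [NormedSpace ℝ E] [SMul ℂ E]

/-- The Wirtinger derivative in the complex direction `v`; for the `j`-th coordinate vector it is
`∂f/∂z_j = (∂f/∂x_j - i ∂f/∂y_j) / 2`. -/
noncomputable def wd (v : E) (f : E → ℂ) (p : E) : ℂ :=
  (fderiv ℝ f p v - Complex.I * fderiv ℝ f p (Complex.I • v)) / 2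

/-- The conjugate Wirtinger derivative in the complex direction `v`; for the `j`-th coordinate
vector it is `∂f/∂z̄_j = (∂f/∂x_j + i ∂f/∂y_j) / 2`. -/
noncomputable def wdb (v : E) (f : E → ℂ) (p : E) : ℂ :=
  (fderiv ℝ f p v + Complex.I * fderiv ℝ f p (Complex.I • v)) / 2

/-- The coefficient `∂²u/∂z_j∂z̄_k` of the complex Hessian, when `v`, `w` are the `j`-th and the
`k`-th coordinate vectors. -/
noncomputable def levi (u : E → ℝ) (p v w : E) : ℂ := wd v (wdb w fun q => (u q : ℂ)) p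

/-- Real second derivative. -/
noncomputable def dd (u : E → ℝ) (p a b : E) : ℝ := fderiv ℝ (fun q => fderiv ℝ u q b) p a

omit [SMul ℂ E] in
lemma fderiv_ofReal {u : E → ℝ} {q : E} (h : DifferentiableAt ℝ u q) (w : E) :
    fderiv ℝ (fun q => (u q : ℂ)) q w = ((fderiv ℝ u q w : ℝ) : ℂ) := by
  have h1 : HasFDerivAt (fun q => (u q : ℂ)) (Complex.ofRealCLM.comp (fderiv ℝ u q)) q :=
    Complex.ofRealCLM.hasFDerivAt.comp q h.hasFDerivAt
  rw [h1.fderiv]
  rfl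

omit [SMul ℂ E] in
lemma diff_fderiv {u : E → ℝ} {p : E} (h : ContDiffAt ℝ 2 u p) (b : E) :
    DifferentiableAt ℝ (fun q => fderiv ℝ u q b) p := by
  have h1 : ContDiffAt ℝ 1 (fderiv ℝ u) p := h.fderiv_right (by norm_num)
  exact (h1.differentiableAt (by norm_num)).clm_apply (differentiableAt_const b)

omit [SMul ℂ E] in
lemma ev_diff {u : E → ℝ} {p : E} (h : ContDiffAt ℝ 2 u p) :
    ∀ᶠ q in 𝓝 p, DifferentiableAt ℝ u q := by
  filter_upwards [h.eventually (by norm_num)] with q hq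
  exact hq.differentiableAt (by norm_num)

lemma levi_eq {u : E → ℝ} {p : E} (h : ContDiffAt ℝ 2 u p) (v w : E) :
    levi u p v w = (((dd u p v w + dd u p (Complex.I • v) (Complex.I • w) : ℝ) : ℂ) +
      Complex.I * ((dd u p v (Complex.I • w) - dd u p (Complex.I • v) w : ℝ) : ℂ)) / 4 := by
  have h1 : (wdb w fun q => (u q : ℂ)) =ᶠ[𝓝 p] fun q =>
      (((fderiv ℝ u q w : ℝ) : ℂ) + Complex.I * ((fderiv ℝ u q (Complex.I • w) : ℝ) : ℂ)) / 2 := by
    filter_upwards [ev_diff h] with q hq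
    rw [wdb, fderiv_ofReal hq, fderiv_ofReal hq]
  have key : ∀ a : E, fderiv ℝ (wdb w fun q => (u q : ℂ)) p a =
      (((dd u p a w : ℝ) : ℂ) + Complex.I * ((dd u p a (Complex.I • w) : ℝ) : ℂ)) / 2 := by
    intro a
    rw [h1.fderiv_eq]
    have g1 : HasFDerivAt (fun q => ((fderiv ℝ u q w : ℝ) : ℂ))
        (Complex.ofRealCLM.comp (fderiv ℝ (fun q => fderiv ℝ u q w) p)) p :=
      Complex.ofRealCLM.hasFDerivAt.comp p (diff_fderiv h w).hasFDerivAt
    have g2 : HasFDerivAt (fun q => ((fderiv ℝ u q (Complex.I • w) : ℝ) : ℂ))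
        (Complex.ofRealCLM.comp (fderiv ℝ (fun q => fderiv ℝ u q (Complex.I • w)) p)) p :=
      Complex.ofRealCLM.hasFDerivAt.comp p (diff_fderiv h (Complex.I • w)).hasFDerivAt
    have g3 := (g1.add (g2.const_mul Complex.I)).mul_const (2⁻¹ : ℂ)
    have g4 : (fun q => (((fderiv ℝ u q w : ℝ) : ℂ) +
        Complex.I * ((fderiv ℝ u q (Complex.I • w) : ℝ) : ℂ)) / 2) =
        fun q => (((fun q => ((fderiv ℝ u q w : ℝ) : ℂ)) + fun q =>
          Complex.I * ((fderiv ℝ u q (Complex.I • w) : ℝ) : ℂ)) q) * (2⁻¹ : ℂ) := by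
      ext q
      simp [div_eq_mul_inv]
    rw [g4, g3.fderiv]
    simp only [_root_.smul_apply, _root_.add_apply,
      ContinuousLinearMap.comp_apply, Complex.ofRealCLM_apply, smul_eq_mul, dd]
    ring
  rw [levi, wd, key, key]
  push_cast
  have := Complex.I_mul_I
  linear_combination (-(dd u p (Complex.I • v) (Complex.I • w) : ℂ) / 4) * this

omit [SMul ℂ E] in
lemma dd_congr {u v : E → ℝ} {p : E} (h : u =ᶠ[𝓝 p] v) (a b : E) : dd u p a b = dd v p a b := by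
  have h1 : (fun q => fderiv ℝ u q b) =ᶠ[𝓝 p] fun q => fderiv ℝ v q b := by
    filter_upwards [h.fderiv (𝕜 := ℝ)] with q hq
    rw [hq]
  rw [dd, dd, h1.fderiv_eq]

omit [SMul ℂ E] in
lemma dd_add {u v : E → ℝ} {p : E} (hu : ContDiffAt ℝ 2 u p) (hv : ContDiffAt ℝ 2 v p)
    (a b : E) : dd (fun q => u q + v q) p a b = dd u p a b + dd v p a b := by
  have h1 : (fun q => fderiv ℝ (fun q => u q + v q) q b) =ᶠ[𝓝 p]
      fun q => fderiv ℝ u q b + fderiv ℝ v q b := by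
    filter_upwards [ev_diff hu, ev_diff hv] with q hq hq'
    rw [fderiv_fun_add hq hq']
    rfl
  rw [dd, h1.fderiv_eq, fderiv_fun_add (diff_fderiv hu b) (diff_fderiv hv b)]
  rfl

omit [SMul ℂ E] in
lemma dd_mul (c : ℝ) {u : E → ℝ} {p : E} (hu : ContDiffAt ℝ 2 u p) (a b : E) :
    dd (fun q => c * u q) p a b = c * dd u p a b := by
  have h1 : (fun q => fderiv ℝ (fun q => c * u q) q b) =ᶠ[𝓝 p]
      fun q => c * fderiv ℝ u q b := by
    filter_upwards [ev_diff hu] with q hq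
    rw [fderiv_const_mul hq]
    rfl
  rw [dd, h1.fderiv_eq, fderiv_const_mul (diff_fderiv hu b)]
  rfl

omit [SMul ℂ E] in
lemma dd_const (c : ℝ) (p a b : E) : dd (fun _ : E => c) p a b = 0 := by
  simp [dd]

omit [SMul ℂ E] in
lemma dd_sum {ι : Type*} (s : Finset ι) {u : ι → E → ℝ} {p : E}
    (hu : ∀ i ∈ s, ContDiffAt ℝ 2 (u i) p) (a b : E) :
    dd (fun q => ∑ i ∈ s, u i q) p a b = ∑ i ∈ s, dd (u i) p a b := by
  classical
  induction s using Finset.induction_on with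
  | empty => simp [dd]
  | insert i s hi ih =>
    have h1 : (fun q => ∑ j ∈ insert i s, u j q) = fun q => u i q + ∑ j ∈ s, u j q := by
      ext q; rw [Finset.sum_insert hi]
    rw [h1, dd_add (hu i (Finset.mem_insert_self _ _)), Finset.sum_insert hi,
      ih fun j hj => hu j (Finset.mem_insert_of_mem hj)]
    exact ContDiffAt.sum fun j hj => hu j (Finset.mem_insert_of_mem hj)

omit [SMul ℂ E] in
lemma dd_comp {θ θ1 θ2 : ℝ → ℝ} (h1 : ∀ x, HasDerivAt θ (θ1 x) x)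
    (h2 : ∀ x, HasDerivAt θ1 (θ2 x) x) {s : E → ℝ} {p : E} (hs : ContDiffAt ℝ 2 s p) (a b : E) :
    dd (fun q => θ (s q)) p a b =
      θ2 (s p) * (fderiv ℝ s p a * fderiv ℝ s p b) + θ1 (s p) * dd s p a b := by
  have e1 : (fun q => fderiv ℝ (fun q => θ (s q)) q b) =ᶠ[𝓝 p]
      fun q => θ1 (s q) * fderiv ℝ s q b := by
    filter_upwards [ev_diff hs] with q hq
    have := (h1 (s q)).comp_hasFDerivAt q hq.hasFDerivAt
    rw [show (fun q => θ (s q)) = θ ∘ s from rfl, this.fderiv]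
    rfl
  have e2 : HasFDerivAt (fun q => θ1 (s q)) (θ2 (s p) • fderiv ℝ s p) p :=
    (h2 (s p)).comp_hasFDerivAt p (hs.differentiableAt (by norm_num)).hasFDerivAt
  have e3 := e2.mul (diff_fderiv hs b).hasFDerivAt
  rw [dd, e1.fderiv_eq]
  have e4 : fderiv ℝ (fun q => θ1 (s q) * fderiv ℝ s q b) p =
      θ1 (s p) • fderiv ℝ (fun q => fderiv ℝ s q b) p + fderiv ℝ s p b • θ2 (s p) • fderiv ℝ s p :=
    e3.fderiv
  rw [e4]
  simp only [_root_.smul_apply, _root_.add_apply, smul_eq_mul, dd]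
  ring

/-- The complex gradient of a real function. -/
noncomputable def wr (s : E → ℝ) (p v : E) : ℂ :=
  (((fderiv ℝ s p v : ℝ) : ℂ) - Complex.I * ((fderiv ℝ s p (Complex.I • v) : ℝ) : ℂ)) / 2

lemma levi_add {u v : E → ℝ} {p : E} (hu : ContDiffAt ℝ 2 u p) (hv : ContDiffAt ℝ 2 v p)
    (a b : E) : levi (fun q => u q + v q) p a b = levi u p a b + levi v p a b := by
  rw [levi_eq (hu.add hv), levi_eq hu, levi_eq hv, dd_add hu hv, dd_add hu hv, dd_add hu hv,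
    dd_add hu hv]
  push_cast
  ring

lemma levi_mul (c : ℝ) {u : E → ℝ} {p : E} (hu : ContDiffAt ℝ 2 u p) (a b : E) :
    levi (fun q => c * u q) p a b = c * levi u p a b := by
  rw [levi_eq (contDiffAt_const.mul hu), levi_eq hu, dd_mul c hu, dd_mul c hu, dd_mul c hu,
    dd_mul c hu]
  push_cast
  ring

lemma levi_const (c : ℝ) (p a b : E) : levi (fun _ : E => c) p a b = 0 := by
  rw [levi_eq contDiffAt_const, dd_const, dd_const, dd_const, dd_const]
  simp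

lemma levi_sum {ι : Type*} (s : Finset ι) {u : ι → E → ℝ} {p : E}
    (hu : ∀ i ∈ s, ContDiffAt ℝ 2 (u i) p) (a b : E) :
    levi (fun q => ∑ i ∈ s, u i q) p a b = ∑ i ∈ s, levi (u i) p a b := by
  classical
  induction s using Finset.induction_on with
  | empty => simp [levi_const]
  | insert i s hi ih =>
    have h1 : (fun q => ∑ j ∈ insert i s, u j q) = fun q => u i q + ∑ j ∈ s, u j q := by
      ext q; rw [Finset.sum_insert hi]
    rw [h1, levi_add (hu i (Finset.mem_insert_self _ _)), Finset.sum_insert hi,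
      ih fun j hj => hu j (Finset.mem_insert_of_mem hj)]
    exact ContDiffAt.sum fun j hj => hu j (Finset.mem_insert_of_mem hj)

lemma levi_congr {u v : E → ℝ} {p : E} (h : u =ᶠ[𝓝 p] v) (a b : E) :
    levi u p a b = levi v p a b := by
  have h0 : (fun q => (u q : ℂ)) =ᶠ[𝓝 p] fun q => (v q : ℂ) := by
    filter_upwards [h] with q hq
    rw [hq]
  have h1 : (wdb b fun q => (u q : ℂ)) =ᶠ[𝓝 p] wdb b fun q => (v q : ℂ) := by
    filter_upwards [h0.fderiv (𝕜 := ℝ)] with q hq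
    rw [wdb, wdb, hq]
  rw [levi, levi, wd, wd, h1.fderiv_eq]

lemma levi_comp {θ θ1 θ2 : ℝ → ℝ} (h1 : ∀ x, HasDerivAt θ (θ1 x) x)
    (h2 : ∀ x, HasDerivAt θ1 (θ2 x) x) {s : E → ℝ} {p : E} (hs : ContDiffAt ℝ 2 s p)
    (hθ : ContDiff ℝ 2 θ) (v w : E) :
    levi (fun q => θ (s q)) p v w =
      θ2 (s p) * (wr s p v * conj (wr s p w)) + θ1 (s p) * levi s p v w := by
  have hc : ContDiffAt ℝ 2 (fun q => θ (s q)) p := hθ.contDiffAt.comp p hs
  rw [levi_eq hc, levi_eq hs, dd_comp h1 h2 hs, dd_comp h1 h2 hs,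
    dd_comp h1 h2 hs, dd_comp h1 h2 hs, wr, wr]
  simp only [map_div₀, map_sub, map_mul, Complex.conj_ofReal, Complex.conj_I, Complex.conj_ofNat]
  push_cast
  have := Complex.I_mul_I
  linear_combination (θ2 (s p) * (fderiv ℝ s p (Complex.I • v)) *
    (fderiv ℝ s p (Complex.I • w)) / 4) * this

end defs

section prod

variable {p : ℂ × ℂ}

lemma cd_fst {n : WithTop ℕ∞} {f : ℂ → ℝ} (hf : ContDiffAt ℝ n f p.1) :
    ContDiffAt ℝ n (fun q : ℂ × ℂ => f q.1) p := hf.comp p contDiffAt_fst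

lemma cd_snd {n : WithTop ℕ∞} {f : ℂ → ℝ} (hf : ContDiffAt ℝ n f p.2) :
    ContDiffAt ℝ n (fun q : ℂ × ℂ => f q.2) p := hf.comp p contDiffAt_snd

lemma fderiv_fst_comp {f : ℂ → ℝ} (hf : DifferentiableAt ℝ f p.1) (a : ℂ × ℂ) :
    fderiv ℝ (fun q : ℂ × ℂ => f q.1) p a = fderiv ℝ f p.1 a.1 := by
  have : HasFDerivAt (fun q : ℂ × ℂ => f q.1)
      ((fderiv ℝ f p.1).comp (ContinuousLinearMap.fst ℝ ℂ ℂ)) p :=
    hf.hasFDerivAt.comp p hasFDerivAt_fst
  rw [this.fderiv]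
  rfl

lemma fderiv_snd_comp {f : ℂ → ℝ} (hf : DifferentiableAt ℝ f p.2) (a : ℂ × ℂ) :
    fderiv ℝ (fun q : ℂ × ℂ => f q.2) p a = fderiv ℝ f p.2 a.2 := by
  have : HasFDerivAt (fun q : ℂ × ℂ => f q.2)
      ((fderiv ℝ f p.2).comp (ContinuousLinearMap.snd ℝ ℂ ℂ)) p :=
    hf.hasFDerivAt.comp p hasFDerivAt_snd
  rw [this.fderiv]
  rfl

lemma dd_fst {f : ℂ → ℝ} (hf : ContDiffAt ℝ 2 f p.1) (a b : ℂ × ℂ) :
    dd (fun q : ℂ × ℂ => f q.1) p a b = dd f p.1 a.1 b.1 := by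
  have h1 : (fun q : ℂ × ℂ => fderiv ℝ (fun q : ℂ × ℂ => f q.1) q b) =ᶠ[𝓝 p]
      fun q => fderiv ℝ f q.1 b.1 := by
    have := continuous_fst.continuousAt.eventually (ev_diff hf)
    filter_upwards [this] with q hq
    exact fderiv_fst_comp hq b
  rw [dd, h1.fderiv_eq]
  exact fderiv_fst_comp (f := fun x => fderiv ℝ f x b.1) (diff_fderiv hf b.1) a

lemma dd_snd {f : ℂ → ℝ} (hf : ContDiffAt ℝ 2 f p.2) (a b : ℂ × ℂ) :
    dd (fun q : ℂ × ℂ => f q.2) p a b = dd f p.2 a.2 b.2 := by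
  have h1 : (fun q : ℂ × ℂ => fderiv ℝ (fun q : ℂ × ℂ => f q.2) q b) =ᶠ[𝓝 p]
      fun q => fderiv ℝ f q.2 b.2 := by
    have := continuous_snd.continuousAt.eventually (ev_diff hf)
    filter_upwards [this] with q hq
    exact fderiv_snd_comp hq b
  rw [dd, h1.fderiv_eq]
  exact fderiv_snd_comp (f := fun x => fderiv ℝ f x b.2) (diff_fderiv hf b.2) a

lemma levi_fst {f : ℂ → ℝ} (hf : ContDiffAt ℝ 2 f p.1) (a b : ℂ × ℂ) :
    levi (fun q : ℂ × ℂ => f q.1) p a b = levi f p.1 a.1 b.1 := by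
  rw [levi_eq (cd_fst hf), levi_eq hf, dd_fst hf, dd_fst hf, dd_fst hf, dd_fst hf]
  rfl

lemma levi_snd {f : ℂ → ℝ} (hf : ContDiffAt ℝ 2 f p.2) (a b : ℂ × ℂ) :
    levi (fun q : ℂ × ℂ => f q.2) p a b = levi f p.2 a.2 b.2 := by
  rw [levi_eq (cd_snd hf), levi_eq hf, dd_snd hf, dd_snd hf, dd_snd hf, dd_snd hf]
  rfl

end prod

section log

lemma hasFDerivAt_lognorm {z : ℂ} (hz : z ≠ 0) :
    HasFDerivAt (fun z : ℂ => Real.log ‖z‖)
      (Complex.reCLM.comp ((z⁻¹ : ℂ) • (ContinuousLinearMap.id ℝ ℂ))) z := by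
  have h1 : HasFDerivAt (fun z : ℂ => Complex.normSq z)
      ((2 * z.re) • Complex.reCLM + (2 * z.im) • Complex.imCLM) z := by
    have e : (fun z : ℂ => Complex.normSq z) = fun z : ℂ => z.re * z.re + z.im * z.im := by
      ext z; rw [Complex.normSq_apply]
    rw [e]
    have g1 : HasFDerivAt (fun z : ℂ => z.re) Complex.reCLM z := Complex.reCLM.hasFDerivAt
    have g2 : HasFDerivAt (fun z : ℂ => z.im) Complex.imCLM z := Complex.imCLM.hasFDerivAt
    refine ((g1.mul g1).add (g2.mul g2)).congr_fderiv ?_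
    ext <;> simp <;> ring
  have hne : Complex.normSq z ≠ 0 := by simpa using hz
  have h2 := (h1.log hne).const_mul (1 / 2)
  have e : (fun z : ℂ => Real.log ‖z‖) = fun z : ℂ => 1 / 2 * Real.log (Complex.normSq z) := by
    ext w
    rw [Complex.normSq_eq_norm_sq, Real.log_pow]
    push_cast
    ring
  rw [e]
  refine h2.congr_fderiv ?_
  ext
  simp [Complex.inv_re, Complex.inv_im]
  field_simp
  ring

lemma fderiv_lognorm {z : ℂ} (hz : z ≠ 0) (v : ℂ) :
    fderiv ℝ (fun z : ℂ => Real.log ‖z‖) z v = (z⁻¹ * v).re := by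
  rw [(hasFDerivAt_lognorm hz).fderiv]
  simp

lemma cd_lognorm {n : WithTop ℕ∞} {z : ℂ} (hz : z ≠ 0) :
    ContDiffAt ℝ n (fun z : ℂ => Real.log ‖z‖) z :=
  (contDiffAt_norm ℝ hz).log (by simpa using hz)

lemma dd_lognorm {z : ℂ} (hz : z ≠ 0) (a b : ℂ) :
    dd (fun z : ℂ => Real.log ‖z‖) z a b = -((a * b) / z ^ 2).re := by
  have h1 : (fun q : ℂ => fderiv ℝ (fun z : ℂ => Real.log ‖z‖) q b) =ᶠ[𝓝 z]
      fun q => (q⁻¹ * b).re := by
    filter_upwards [isOpen_ne.mem_nhds hz] with q hq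
    exact fderiv_lognorm hq b
  have h2 : HasDerivAt (fun q : ℂ => q⁻¹ * b) (-(z ^ 2)⁻¹ * b) z := (hasDerivAt_inv hz).mul_const b
  have h3 : HasFDerivAt (fun q : ℂ => q⁻¹ * b)
      ((-(z ^ 2)⁻¹ * b : ℂ) • (ContinuousLinearMap.id ℝ ℂ)) z := by
    have := h2.complexToReal_fderiv
    convert this using 1
    ext <;> simp
  have h4 : HasFDerivAt (fun q : ℂ => (q⁻¹ * b).re)
      (Complex.reCLM.comp ((-(z ^ 2)⁻¹ * b : ℂ) • (ContinuousLinearMap.id ℝ ℂ))) z :=
    Complex.reCLM.hasFDerivAt.comp z h3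
  rw [dd, h1.fderiv_eq, h4.fderiv]
  simp only [ContinuousLinearMap.comp_apply, _root_.smul_apply,
    ContinuousLinearMap.id_apply, smul_eq_mul, Complex.reCLM_apply]
  rw [← Complex.neg_re]
  congr 1
  field_simp

lemma levi_lognorm {z : ℂ} (hz : z ≠ 0) (v w : ℂ) :
    levi (fun z : ℂ => Real.log ‖z‖) z v w = 0 := by
  rw [levi_eq (cd_lognorm hz), dd_lognorm hz, dd_lognorm hz, dd_lognorm hz, dd_lognorm hz]
  simp only [smul_eq_mul]
  have e1 : Complex.I * v * (Complex.I * w) = -(v * w) := by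
    linear_combination (v * w) * Complex.I_mul_I
  have e2 : v * (Complex.I * w) = Complex.I * v * w := by ring
  rw [e1, e2, neg_div, Complex.neg_re]
  simp

end log

end Pool.Agent.Y502
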