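import Mathlib

/-! # A smooth convex approximation of the positive part -/

set_option autoImplicit false

open MeasureTheory Set Metric Function
open scoped ContDiff

namespace Pool.Agent.Y502

/-- A smooth convex approximation `θ` of `x ↦ max x 0`, with `θ' = θ1` and `θ'' = θ2`. -/
structure Th (ε : ℝ) (θ θ1 θ2 : ℝ → ℝ) : Prop where
  smooth : ContDiff ℝ ∞ θ
  d1 : ∀ x, HasDerivAt θ (θ1 x) x
  d2 : ∀ x, HasDerivAt θ1 (θ2 x) x
  c2 : Continuous θ2
  nn2 : ∀ x, 0 ≤ θ2 x
  z2 : ∀ x, ε ≤ |x| → θ2 x = 0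
  nn1 : ∀ x, 0 ≤ θ1 x
  le1 : ∀ x, θ1 x ≤ 1
  mono1 : Monotone θ1
  z1 : ∀ x, x ≤ -ε → θ1 x = 0
  o1 : ∀ x, ε ≤ x → θ1 x = 1
  close : ∀ x, |θ x - max x 0| ≤ 2 * ε

lemma exists_theta {ε : ℝ} (hε : 0 < ε) : ∃ θ θ1 θ2 : ℝ → ℝ, Th ε θ θ1 θ2 := by
  let b : ContDiffBump (0 : ℝ) := ⟨ε / 2, ε, by positivity, by linarith⟩
  set ρ : ℝ → ℝ := b.normed volume with hρ
  have hρc : ContDiff ℝ ∞ ρ := b.contDiff_normed
  have hρ0 : Continuous ρ := hρc.continuous
  have hnn : ∀ x, 0 ≤ ρ x := b.nonneg_normed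
  have hsupp : support ρ = ball (0 : ℝ) ε := b.support_normed_eq
  have hint : ∫ x, ρ x = 1 := b.integral_normed
  have hz : ∀ x, ε ≤ |x| → ρ x = 0 := by
    intro x hx
    by_contra h
    have : x ∈ support ρ := h
    rw [hsupp, mem_ball_zero_iff, Real.norm_eq_abs] at this
    linarith
  set θ1 : ℝ → ℝ := fun x => ∫ s in (-ε)..x, ρ s with hθ1
  set θ : ℝ → ℝ := fun x => ∫ s in (-ε)..x, θ1 s with hθ
  have hd2 : ∀ x, HasDerivAt θ1 (ρ x) x := fun x =>
    intervalIntegral.integral_hasDerivAt_right (hρ0.intervalIntegrable _ _)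
      hρ0.stronglyMeasurable.stronglyMeasurableAtFilter hρ0.continuousAt
  have hθ1c : Continuous θ1 := continuous_iff_continuousAt.2 fun x => (hd2 x).continuousAt
  have hd1 : ∀ x, HasDerivAt θ (θ1 x) x := fun x =>
    intervalIntegral.integral_hasDerivAt_right (hθ1c.intervalIntegrable _ _)
      hθ1c.stronglyMeasurable.stronglyMeasurableAtFilter hθ1c.continuousAt
  have hmono : Monotone θ1 := by
    apply monotone_of_deriv_nonneg (fun x => (hd2 x).differentiableAt)
    intro x
    rw [(hd2 x).deriv]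
    exact hnn x
  have hz1 : ∀ x, x ≤ -ε → θ1 x = 0 := by
    intro x hx
    have : ∫ s in (-ε)..x, ρ s = ∫ s in (-ε)..x, (0 : ℝ) := by
      apply intervalIntegral.integral_congr
      intro s hs
      rw [uIcc_of_ge hx] at hs
      apply hz
      rw [abs_of_nonpos (by linarith [hs.2])]
      linarith [hs.2]
    rw [hθ1]
    simp only
    rw [this]
    simp
  have ho1 : ∀ x, ε ≤ x → θ1 x = 1 := by
    intro x hx
    rw [hθ1, ← hint]
    apply intervalIntegral.integral_eq_integral_of_support_subset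
    rw [hsupp]
    intro y hy
    rw [mem_ball_zero_iff, Real.norm_eq_abs, abs_lt] at hy
    exact ⟨hy.1, by linarith⟩
  have hnn1 : ∀ x, 0 ≤ θ1 x := by
    intro x
    rcases le_total x (-ε) with h | h
    · rw [hz1 x h]
    · rw [← hz1 (-ε) le_rfl]; exact hmono h
  have hle1 : ∀ x, θ1 x ≤ 1 := by
    intro x
    rcases le_total ε x with h | h
    · rw [ho1 x h]
    · rw [← ho1 ε le_rfl]; exact hmono h
  have hθ1s : ContDiff ℝ ∞ θ1 := by
    rw [contDiff_infty_iff_deriv]
    refine ⟨fun x => (hd2 x).differentiableAt, ?_⟩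
    have : deriv θ1 = ρ := funext fun x => (hd2 x).deriv
    rw [this]
    exact hρc
  have hθs : ContDiff ℝ ∞ θ := by
    rw [contDiff_infty_iff_deriv]
    refine ⟨fun x => (hd1 x).differentiableAt, ?_⟩
    have : deriv θ = θ1 := funext fun x => (hd1 x).deriv
    rw [this]
    exact hθ1s
  have up : ∀ x, -ε ≤ x → θ x ≤ x + ε := by
    intro x hx
    have : ∫ s in (-ε)..x, θ1 s ≤ ∫ s in (-ε)..x, (1 : ℝ) :=
      intervalIntegral.integral_mono_on hx (hθ1c.intervalIntegrable _ _)
        (by simp) (fun s _ => hle1 s)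
    rw [intervalIntegral.integral_const, smul_eq_mul, mul_one] at this
    rw [hθ]
    simp only
    linarith
  have lo : ∀ x, -ε ≤ x → 0 ≤ θ x := by
    intro x hx
    exact intervalIntegral.integral_nonneg hx fun s _ => hnn1 s
  have lo2 : ∀ x, ε ≤ x → x - ε ≤ θ x := by
    intro x hx
    have e1 : θ x = θ ε + ∫ s in ε..x, θ1 s := by
      rw [hθ]
      exact (intervalIntegral.integral_add_adjacent_intervals (hθ1c.intervalIntegrable _ _)
        (hθ1c.intervalIntegrable _ _)).symm
    have e2 : ∫ s in ε..x, θ1 s = ∫ s in ε..x, (1 : ℝ) := by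
      apply intervalIntegral.integral_congr
      intro s hs
      rw [uIcc_of_le hx] at hs
      exact ho1 s hs.1
    rw [intervalIntegral.integral_const, smul_eq_mul, mul_one] at e2
    have := lo ε (by linarith)
    linarith
  refine ⟨θ, θ1, ρ, hθs, hd1, hd2, hρ0, hnn, hz, hnn1, hle1, hmono, hz1, ho1, ?_⟩
  intro x
  rcases le_total x (-ε) with h | h
  · have : θ x = 0 := by
      have : ∫ s in (-ε)..x, θ1 s = ∫ s in (-ε)..x, (0 : ℝ) := by
        apply intervalIntegral.integral_congr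
        intro s hs
        rw [uIcc_of_ge h] at hs
        exact hz1 s hs.2
      rw [hθ]
      simp only
      rw [this]
      simp
    rw [this, max_eq_right (by linarith)]
    simp
    exact hε.le
  · have a1 := up x h
    have a2 := lo x h
    rw [abs_le]
    rcases le_total x ε with h' | h'
    · rcases max_cases x 0 with h'' | h'' <;> rw [h''.1] <;> constructor <;> linarith
    · have a3 := lo2 x h'
      rw [max_eq_left (by linarith)]
      constructor <;> linarith

end Pool.Agent.Y502
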