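import Pool.Agent.Y502.Lap
import Pool.Agent.Y502.Theta

/-! # The complex Hessian of the approximants -/

set_option autoImplicit false

open Real Metric Set Filter Topology MeasureTheory
open scoped ContDiff ComplexConjugate ComplexOrder

namespace Pool.Agent.Y502

/-- The coordinate vectors of `ℂ × ℂ`. -/
def bas (j : Fin 2) : ℂ × ℂ := if j = 0 then (1, 0) else (0, 1)

/-- The complex Hessian `(∂²u/∂z_j∂z̄_k)` of a real function on `ℂ × ℂ`. -/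
noncomputable def hess (u : ℂ × ℂ → ℝ) (p : ℂ × ℂ) : Matrix (Fin 2) (Fin 2) ℂ :=
  Matrix.of fun j k => levi u p (bas j) (bas k)

lemma levi_zero_left (u : ℂ → ℝ) (p w : ℂ) : levi u p 0 w = 0 := by
  simp [levi, wd]

lemma levi_zero_right (u : ℂ → ℝ) (p w : ℂ) : levi u p w 0 = 0 := by
  have : (wdb (0 : ℂ) fun q : ℂ => (u q : ℂ)) = fun _ => 0 := by
    ext q
    simp [wdb]
  rw [levi, this]
  simp [wd]

/-- The time variable. -/
noncomputable def el (lam c : ℝ) (z : ℂ) : ℝ := lam * Real.log ‖z‖ + c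

/-- The breakpoints. -/
noncomputable def tk (f : ℕ → ℂ → ℝ) (Δ κ : ℝ) (k : ℕ) (x : ℂ) : ℝ :=
  (f k x - f (k + 1) x) / Δ + κ * k

/-- time minus breakpoint -/
noncomputable def sk (f : ℕ → ℂ → ℝ) (Δ κ lam c : ℝ) (k : ℕ) (p : ℂ × ℂ) : ℝ :=
  el lam c p.2 - tk f Δ κ k p.1

/-- The approximants. -/
noncomputable def WW (θ : ℝ → ℝ) (f : ℕ → ℂ → ℝ) (Δ κ lam c τ0 : ℝ) (n : ℕ) (p : ℂ × ℂ) : ℝ :=
  (f 0 p.1 + τ0 * el lam c p.2) + ∑ k ∈ Finset.range n, Δ * θ (sk f Δ κ lam c k p)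

section

variable {ε : ℝ} {θ θ1 θ2 : ℝ → ℝ} (hθ : Th ε θ θ1 θ2) {f : ℕ → ℂ → ℝ}
  (hf : ∀ k, ContDiff ℝ ∞ (f k)) {Δ κ lam c τ0 : ℝ} {n : ℕ} {p : ℂ × ℂ}

lemma cd_el (lam c : ℝ) {m : WithTop ℕ∞} {z : ℂ} (hz : z ≠ 0) : ContDiffAt ℝ m (el lam c) z :=
  (contDiffAt_const.mul (cd_lognorm hz)).add contDiffAt_const

include hf in
lemma cd_tk (Δ κ : ℝ) (k : ℕ) : ContDiff ℝ ∞ (tk f Δ κ k) :=
  (((hf k).sub (hf (k + 1))).div_const Δ).add contDiff_const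

include hf in
lemma cd_sk (Δ κ lam c : ℝ) (k : ℕ) (hp : p.2 ≠ 0) : ContDiffAt ℝ ∞ (sk f Δ κ lam c k) p :=
  (cd_snd (cd_el lam c hp)).sub (cd_fst (cd_tk hf Δ κ k).contDiffAt)

include hf hθ in
lemma cd_WW (Δ κ lam c τ0 : ℝ) (n : ℕ) (hp : p.2 ≠ 0) :
    ContDiffAt ℝ ∞ (WW θ f Δ κ lam c τ0 n) p := by
  refine ((cd_fst (hf 0).contDiffAt).add (contDiffAt_const.mul (cd_snd (cd_el lam c hp)))).add ?_
  apply ContDiffAt.sum
  intro k _
  exact contDiffAt_const.mul ((hθ.smooth.contDiffAt).comp p (cd_sk hf Δ κ lam c k hp))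

lemma levi_el {z : ℂ} (hz : z ≠ 0) (v w : ℂ) : levi (el lam c) z v w = 0 := by
  have h : el lam c = fun z => lam * Real.log ‖z‖ + c := rfl
  rw [h, levi_add (contDiffAt_const.mul (cd_lognorm hz)) contDiffAt_const,
    levi_mul lam (cd_lognorm hz), levi_lognorm hz, levi_const]
  simp

lemma two_le_inf : (2 : WithTop ℕ∞) ≤ ∞ := by norm_cast

include hf in
lemma levi_tk (κ : ℝ) (k : ℕ) (x v w : ℂ) :
    levi (tk f Δ κ k) x v w = (levi (f k) x v w - levi (f (k + 1)) x v w) / Δ := by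
  have h : tk f Δ κ k = fun x => (Δ⁻¹ * f k x + (-Δ⁻¹) * f (k + 1) x) + κ * k := by
    ext x
    rw [tk, div_eq_inv_mul]
    ring
  rw [h, levi_add (((contDiffAt_const.mul (cd2 (hf k) x))).add
    (contDiffAt_const.mul (cd2 (hf (k + 1)) x))) contDiffAt_const,
    levi_add (contDiffAt_const.mul (cd2 (hf k) x)) (contDiffAt_const.mul (cd2 (hf (k + 1)) x)),
    levi_mul _ (cd2 (hf k) x), levi_mul _ (cd2 (hf (k + 1)) x), levi_const]
  push_cast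
  rw [div_eq_inv_mul]
  ring

include hf in
lemma levi_sk (hp : p.2 ≠ 0) (k : ℕ) (v w : ℂ × ℂ) :
    levi (sk f Δ κ lam c k) p v w =
      -((levi (f k) p.1 v.1 w.1 - levi (f (k + 1)) p.1 v.1 w.1) / Δ) := by
  have h : sk f Δ κ lam c k = fun q => el lam c q.2 + (-1) * tk f Δ κ k q.1 := by
    ext q
    rw [sk]
    ring
  have c1 : ContDiffAt ℝ 2 (fun q : ℂ × ℂ => el lam c q.2) p := cd_snd (cd_el lam c hp)
  have c2 : ContDiffAt ℝ 2 (fun q : ℂ × ℂ => tk f Δ κ k q.1) p :=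
    cd_fst (cd2 (cd_tk hf Δ κ k) p.1)
  rw [h, levi_add c1 (contDiffAt_const.mul c2), levi_mul (-1) c2,
    levi_snd (cd_el lam c hp), levi_fst (cd2 (cd_tk hf Δ κ k) p.1), levi_el hp, levi_tk hf]
  push_cast
  ring

include hf in
lemma wr_sk_snd (hp : p.2 ≠ 0) (k : ℕ) :
    wr (sk f Δ κ lam c k) p (bas 1) = lam * (p.2)⁻¹ / 2 := by
  have key : ∀ v : ℂ, fderiv ℝ (sk f Δ κ lam c k) p (0, v) = lam * ((p.2)⁻¹ * v).re := by
    intro v
    have h : sk f Δ κ lam c k = fun q => el lam c q.2 - tk f Δ κ k q.1 := rfl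
    have c1 : DifferentiableAt ℝ (el lam c) p.2 :=
      (cd_el (m := 1) lam c hp).differentiableAt (by norm_num)
    have c2 : DifferentiableAt ℝ (tk f Δ κ k) p.1 :=
      ((cd_tk hf Δ κ k).differentiable (by simp)) p.1
    have c1' : DifferentiableAt ℝ (fun q : ℂ × ℂ => el lam c q.2) p :=
      c1.comp p differentiableAt_snd
    have c2' : DifferentiableAt ℝ (fun q : ℂ × ℂ => tk f Δ κ k q.1) p :=
      c2.comp p differentiableAt_fst
    rw [h, fderiv_fun_sub c1' c2', _root_.sub_apply, fderiv_snd_comp c1, fderiv_fst_comp c2]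
    simp only [map_zero, sub_zero]
    have h3 : HasFDerivAt (el lam c) (lam • (fderiv ℝ (fun z : ℂ => Real.log ‖z‖) p.2)) p.2 :=
      ((((cd_lognorm (n := 1) hp).differentiableAt (by norm_num)).hasFDerivAt).const_mul
        lam).add_const c
    rw [h3.fderiv, _root_.smul_apply, fderiv_lognorm hp, smul_eq_mul]
  have hb : bas 1 = (0, 1) := rfl
  have hI : Complex.I • ((0, 1) : ℂ × ℂ) = (0, Complex.I) := by simp
  rw [wr, hb, hI, key, key]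
  have : (p.2)⁻¹ = (((p.2)⁻¹).re : ℂ) + (((p.2)⁻¹).im : ℂ) * Complex.I := (Complex.re_add_im _).symm
  have e2 : ((p.2)⁻¹ * Complex.I).re = -((p.2)⁻¹).im := by simp
  rw [e2, mul_one]
  nth_rewrite 3 [this]
  push_cast
  linear_combination (0 : ℂ) * Complex.I_mul_I

include hf hθ in
lemma levi_WW (hp : p.2 ≠ 0) (hΔ : Δ ≠ 0) (v w : ℂ × ℂ) :
    levi (WW θ f Δ κ lam c τ0 n) p v w =
      (levi (f 0) p.1 v.1 w.1 - ∑ k ∈ Finset.range n, (θ1 (sk f Δ κ lam c k p) : ℂ) *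
        (levi (f k) p.1 v.1 w.1 - levi (f (k + 1)) p.1 v.1 w.1)) +
      ∑ k ∈ Finset.range n, ((Δ * θ2 (sk f Δ κ lam c k p) : ℝ) : ℂ) *
        (wr (sk f Δ κ lam c k) p v * conj (wr (sk f Δ κ lam c k) p w)) := by
  have h : WW θ f Δ κ lam c τ0 n = fun p => (f 0 p.1 + τ0 * el lam c p.2) +
    ∑ k ∈ Finset.range n, Δ * θ (sk f Δ κ lam c k p) := rfl
  have c1 : ContDiffAt ℝ 2 (fun q : ℂ × ℂ => f 0 q.1) p := cd_fst (cd2 (hf 0) p.1)
  have c2 : ContDiffAt ℝ 2 (fun q : ℂ × ℂ => el lam c q.2) p := cd_snd (cd_el lam c hp)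
  have c3 : ∀ k, ContDiffAt ℝ 2 (sk f Δ κ lam c k) p := fun k =>
    (cd_sk hf Δ κ lam c k hp).of_le two_le_inf
  have hθ2 : ContDiff ℝ 2 θ := hθ.smooth.of_le two_le_inf
  have c4 : ∀ k, ContDiffAt ℝ 2 (fun q => θ (sk f Δ κ lam c k q)) p := fun k =>
    hθ2.contDiffAt.comp p (c3 k)
  have c5 : ∀ k, ContDiffAt ℝ 2 (fun q => Δ * θ (sk f Δ κ lam c k q)) p := fun k =>
    contDiffAt_const.mul (c4 k)
  have hΔ' : (Δ : ℂ) ≠ 0 := by exact_mod_cast hΔ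
  rw [h, levi_add (c1.add (contDiffAt_const.mul c2)) (ContDiffAt.sum fun k _ => c5 k),
    levi_add c1 (contDiffAt_const.mul c2), levi_mul _ c2, levi_fst (cd2 (hf 0) p.1),
    levi_snd (cd_el lam c hp), levi_el hp, levi_sum _ (fun k _ => c5 k), mul_zero, add_zero,
    sub_add, ← Finset.sum_sub_distrib, sub_eq_add_neg, ← Finset.sum_neg_distrib]
  congr 1
  apply Finset.sum_congr rfl
  intro k _
  rw [levi_mul Δ (c4 k), levi_comp hθ.d1 hθ.d2 (c3 k) hθ2, levi_sk hf hp]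
  push_cast
  field_simp
  ring

/-- The coefficient of the `(1,1)` entry. -/
noncomputable def BB (θ1 : ℝ → ℝ) (A : ℕ → ℝ) (s : ℕ → ℝ) (n : ℕ) : ℝ :=
  A 0 - ∑ k ∈ Finset.range n, θ1 (s k) * (A k - A (k + 1))

lemma BB_nonneg_aux {θ1 : ℝ → ℝ} (h0 : ∀ x, 0 ≤ θ1 x) (h1 : ∀ x, θ1 x ≤ 1) (hm : Monotone θ1)
    {A s : ℕ → ℝ} (hA : ∀ k, 0 ≤ A k) (hs : ∀ k, s (k + 1) ≤ s k) (n : ℕ) :
    θ1 (s n) * A (n + 1) ≤ BB θ1 A s (n + 1) := by
  induction n with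
  | zero =>
    rw [BB]
    simp only [zero_add, Finset.range_one, Finset.sum_singleton]
    nlinarith [hA 0, hA 1, h0 (s 0), h1 (s 0)]
  | succ n ih =>
    rw [BB, Finset.sum_range_succ]
    rw [BB] at ih
    have := hm (hs n)
    nlinarith [hA (n + 1), hA (n + 1 + 1)]

lemma BB_nonneg {θ1 : ℝ → ℝ} (h0 : ∀ x, 0 ≤ θ1 x) (h1 : ∀ x, θ1 x ≤ 1) (hm : Monotone θ1)
    {A s : ℕ → ℝ} (hA : ∀ k, 0 ≤ A k) (hs : ∀ k, s (k + 1) ≤ s k) (n : ℕ) :
    0 ≤ BB θ1 A s n := by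
  cases n with
  | zero => simpa [BB] using hA 0
  | succ n =>
    exact le_trans (mul_nonneg (h0 _) (hA _)) (BB_nonneg_aux h0 h1 hm hA hs n)

/-- If exactly the breakpoints before `m` have been passed. -/
lemma BB_eq {θ1 : ℝ → ℝ} {A s : ℕ → ℝ} {n m : ℕ} (hm : m < n)
    (h1 : ∀ k, k < m → θ1 (s k) = 1) (h0 : ∀ k, m < k → θ1 (s k) = 0) :
    BB θ1 A s n = (1 - θ1 (s m)) * A m + θ1 (s m) * A (m + 1) := by
  obtain ⟨d, rfl⟩ : ∃ d, n = m + 1 + d := ⟨n - (m + 1), by omega⟩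
  rw [BB, Finset.sum_range_add, Finset.sum_range_succ]
  have e1 : ∑ k ∈ Finset.range m, θ1 (s k) * (A k - A (k + 1)) = A 0 - A m := by
    rw [← Finset.sum_range_sub' A m]
    apply Finset.sum_congr rfl
    intro k hk
    rw [h1 k (Finset.mem_range.1 hk), one_mul]
  have e2 : ∑ k ∈ Finset.range d, θ1 (s (m + 1 + k)) * (A (m + 1 + k) - A (m + 1 + k + 1)) = 0 := by
    apply Finset.sum_eq_zero
    intro k _
    rw [h0 (m + 1 + k) (by omega), zero_mul]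
  rw [e1, e2]
  ring

end

end Pool.Agent.Y502
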