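import Pool.Agent.Y502.MAh

/-! # Positivity and determinant of the complex Hessian of the approximants -/

set_option autoImplicit false

open Real Metric Set Filter Topology MeasureTheory
open scoped ContDiff ComplexConjugate ComplexOrder

namespace Pool.Agent.Y502

lemma levi_bas {g : ℂ → ℝ} (hg : ContDiff ℝ ∞ g) (x : ℂ) (j k : Fin 2) :
    levi g x (bas j).1 (bas k).1 = (lap g x : ℂ) * ((bas j).1 * conj (bas k).1) := by
  fin_cases j <;> fin_cases k
  · simp [bas, levi_im hg]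
  · simp [bas, levi_zero_right]
  · simp [bas, levi_zero_left]
  · simp [bas, levi_zero_left]

section

variable {ε : ℝ} {θ θ1 θ2 : ℝ → ℝ} (hθ : Th ε θ θ1 θ2) {f : ℕ → ℂ → ℝ}
  (hf : ∀ k, ContDiff ℝ ∞ (f k)) {Δ κ lam c τ0 : ℝ} {n : ℕ} {p : ℂ × ℂ}

include hf hθ in
lemma hess_WW (hp : p.2 ≠ 0) (hΔ : Δ ≠ 0) :
    hess (WW θ f Δ κ lam c τ0 n) p =
      ((BB θ1 (fun k => lap (f k) p.1) (fun k => sk f Δ κ lam c k p) n : ℝ) : ℂ) •
        Matrix.vecMulVec (fun j => (bas j).1) (star fun j => (bas j).1) +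
      ∑ k ∈ Finset.range n, ((Δ * θ2 (sk f Δ κ lam c k p) : ℝ) : ℂ) •
        Matrix.vecMulVec (fun j => wr (sk f Δ κ lam c k) p (bas j))
          (star fun j => wr (sk f Δ κ lam c k) p (bas j)) := by
  ext j k
  rw [hess, Matrix.of_apply, levi_WW hθ hf hp hΔ, Matrix.add_apply, Matrix.smul_apply,
    Matrix.sum_apply, levi_bas (hf 0)]
  congr 1
  · rw [BB, Matrix.vecMulVec_apply, Pi.star_apply, smul_eq_mul]
    push_cast
    rw [sub_mul, Finset.sum_mul]
    congr 1
    apply Finset.sum_congr rfl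
    intro i _
    rw [levi_bas (hf i), levi_bas (hf (i + 1))]
    simp only [RCLike.star_def]
    ring

include hf hθ in
lemma psd_WW (hp : p.2 ≠ 0) (hΔ : 0 < Δ) (hA : ∀ k, 0 ≤ lap (f k) p.1)
    (hs : ∀ k, sk f Δ κ lam c (k + 1) p ≤ sk f Δ κ lam c k p) :
    (hess (WW θ f Δ κ lam c τ0 n) p).PosSemidef := by
  rw [hess_WW hθ hf hp hΔ.ne']
  apply Matrix.PosSemidef.add
  · apply Matrix.PosSemidef.smul (Matrix.posSemidef_vecMulVec_self_star _)
    exact_mod_cast BB_nonneg hθ.nn1 hθ.le1 hθ.mono1 hA hs n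
  · apply Matrix.posSemidef_sum
    intro k _
    apply Matrix.PosSemidef.smul (Matrix.posSemidef_vecMulVec_self_star _)
    exact_mod_cast mul_nonneg hΔ.le (hθ.nn2 _)

lemma det_rank_two (b d : ℂ) (P : Fin 2 → ℂ) :
    (b • Matrix.vecMulVec (fun j => (bas j).1) (star fun j => (bas j).1) +
      d • Matrix.vecMulVec P (star P)).det = b * d * (P 1 * conj (P 1)) := by
  rw [Matrix.det_fin_two]
  simp [Matrix.vecMulVec_apply, bas]
  ring

include hf hθ in
lemma det_WW_le (hε : 0 < ε) (hp : p.2 ≠ 0) (hΔ : 0 < Δ) (hA : ∀ k, 0 ≤ lap (f k) p.1)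
    (hs : ∀ k, sk f Δ κ lam c (k + 1) p + 2 * ε ≤ sk f Δ κ lam c k p) :
    (hess (WW θ f Δ κ lam c τ0 n) p).det.re ≤
      ∑ k ∈ Finset.range n, Δ * θ2 (sk f Δ κ lam c k p) *
        ((lap (f k) p.1 + lap (f (k + 1)) p.1) * (lam ^ 2 / (4 * ‖p.2‖ ^ 2))) := by
  have hterm : ∀ k, 0 ≤ Δ * θ2 (sk f Δ κ lam c k p) *
        ((lap (f k) p.1 + lap (f (k + 1)) p.1) * (lam ^ 2 / (4 * ‖p.2‖ ^ 2))) := by
    intro k
    have := hA k
    have := hA (k + 1)
    have := hθ.nn2 (sk f Δ κ lam c k p)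
    positivity
  by_cases hall : ∀ k ∈ Finset.range n, θ2 (sk f Δ κ lam c k p) = 0
  · have h1 : (hess (WW θ f Δ κ lam c τ0 n) p).det = 0 := by
      rw [hess_WW hθ hf hp hΔ.ne']
      have : ∑ k ∈ Finset.range n, ((Δ * θ2 (sk f Δ κ lam c k p) : ℝ) : ℂ) •
        Matrix.vecMulVec (fun j => wr (sk f Δ κ lam c k) p (bas j))
          (star fun j => wr (sk f Δ κ lam c k) p (bas j)) =
          (0 : ℂ) • Matrix.vecMulVec (fun _ => 0) (star fun _ : Fin 2 => (0 : ℂ)) := by
        rw [zero_smul]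
        apply Finset.sum_eq_zero
        intro k hk
        rw [hall k hk]
        simp
      rw [this, det_rank_two]
      simp
    rw [h1, Complex.zero_re]
    exact Finset.sum_nonneg fun k _ => hterm k
  · push Not at hall
    obtain ⟨m, hm, hm2⟩ := hall
    have hmn := Finset.mem_range.1 hm
    -- the position of the other breakpoints
    have hmono : ∀ i j, i ≤ j → sk f Δ κ lam c j p ≤ sk f Δ κ lam c i p := by
      intro i j hij
      induction j, hij using Nat.le_induction with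
      | base => exact le_rfl
      | succ j _ ih => linarith [hs j]
    have hlt : ∀ i j, i < j → sk f Δ κ lam c j p + 2 * ε ≤ sk f Δ κ lam c i p := by
      intro i j hij
      have h1 := hmono (i + 1) j hij
      linarith [hs i]
    have habs : |sk f Δ κ lam c m p| < ε := by
      by_contra h
      exact hm2 (hθ.z2 _ (not_lt.1 h))
    rw [abs_lt] at habs
    have hhigh : ∀ k, k < m → ε ≤ sk f Δ κ lam c k p := by
      intro k hk
      linarith [hlt k m hk]
    have hlow : ∀ k, m < k → sk f Δ κ lam c k p ≤ -ε := by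
      intro k hk
      linarith [hlt m k hk]
    have hz : ∀ k, k ≠ m → θ2 (sk f Δ κ lam c k p) = 0 := by
      intro k hk
      rcases lt_or_gt_of_ne hk with h | h
      · exact hθ.z2 _ (le_trans (hhigh k h) (le_abs_self _))
      · apply hθ.z2
        rw [abs_of_nonpos (by linarith [hlow k h])]
        linarith [hlow k h]
    have hB := BB_eq (θ1 := θ1) (A := fun k => lap (f k) p.1)
      (s := fun k => sk f Δ κ lam c k p) hmn (fun k hk => hθ.o1 _ (hhigh k hk))
      (fun k hk => hθ.z1 _ (hlow k hk))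
    have hsum : ∑ k ∈ Finset.range n, ((Δ * θ2 (sk f Δ κ lam c k p) : ℝ) : ℂ) •
        Matrix.vecMulVec (fun j => wr (sk f Δ κ lam c k) p (bas j))
          (star fun j => wr (sk f Δ κ lam c k) p (bas j)) =
        ((Δ * θ2 (sk f Δ κ lam c m p) : ℝ) : ℂ) •
        Matrix.vecMulVec (fun j => wr (sk f Δ κ lam c m) p (bas j))
          (star fun j => wr (sk f Δ κ lam c m) p (bas j)) := by
      apply Finset.sum_eq_single_of_mem m hm
      intro k _ hk
      rw [hz k hk]
      simp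
    have hdet : (hess (WW θ f Δ κ lam c τ0 n) p).det.re =
        ((1 - θ1 (sk f Δ κ lam c m p)) * lap (f m) p.1 +
          θ1 (sk f Δ κ lam c m p) * lap (f (m + 1)) p.1) *
        (Δ * θ2 (sk f Δ κ lam c m p)) * (lam ^ 2 / (4 * ‖p.2‖ ^ 2)) := by
      rw [hess_WW hθ hf hp hΔ.ne', hB, hsum, det_rank_two, wr_sk_snd hf hp]
      have e1 : (lam : ℂ) * (p.2)⁻¹ / 2 * conj ((lam : ℂ) * (p.2)⁻¹ / 2) =
          ((lam ^ 2 / (4 * ‖p.2‖ ^ 2) : ℝ) : ℂ) := by
        rw [Complex.mul_conj, Complex.normSq_eq_norm_sq]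
        congr 1
        rw [norm_div, norm_mul, norm_inv, Complex.norm_real, Real.norm_eq_abs]
        simp only [Complex.norm_ofNat]
        rw [div_pow, mul_pow, sq_abs, inv_pow]
        field_simp
        ring
      rw [e1, ← Complex.ofReal_mul, ← Complex.ofReal_mul, Complex.ofReal_re]
    rw [hdet]
    refine le_trans ?_ (Finset.single_le_sum (f := fun k => Δ * θ2 (sk f Δ κ lam c k p) *
        ((lap (f k) p.1 + lap (f (k + 1)) p.1) * (lam ^ 2 / (4 * ‖p.2‖ ^ 2))))
        (fun k _ => hterm k) hm)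
    have g0 := hA m
    have g1 := hA (m + 1)
    have g2 := hθ.nn1 (sk f Δ κ lam c m p)
    have g3 := hθ.le1 (sk f Δ κ lam c m p)
    have g4 : (1 - θ1 (sk f Δ κ lam c m p)) * lap (f m) p.1 +
          θ1 (sk f Δ κ lam c m p) * lap (f (m + 1)) p.1 ≤ lap (f m) p.1 + lap (f (m + 1)) p.1 := by
      nlinarith
    have g5 : 0 ≤ Δ * θ2 (sk f Δ κ lam c m p) := mul_nonneg hΔ.le (hθ.nn2 _)
    have g6 : 0 ≤ lam ^ 2 / (4 * ‖p.2‖ ^ 2) := by positivity
    calc _ ≤ (lap (f m) p.1 + lap (f (m + 1)) p.1) * (Δ * θ2 (sk f Δ κ lam c m p)) *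
          (lam ^ 2 / (4 * ‖p.2‖ ^ 2)) := by
          apply mul_le_mul_of_nonneg_right _ g6
          exact mul_le_mul_of_nonneg_right g4 g5
      _ = _ := by ring

end

end Pool.Agent.Y502
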