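import Pool.Agent.Y502.App

/-! # The Monge-Ampere measure of the geodesic vanishes -/

set_option autoImplicit false

open Real Metric Set Filter Topology MeasureTheory
open scoped ContDiff ENNReal ComplexOrder

namespace Pool.Agent.Y502

/-- `(dd^c u)² = 0` on `Ω` in the sense of Bedford and Taylor. -/
def MAZero (Ω : Set (ℂ × ℂ)) (u : ℂ × ℂ → ℝ) : Prop :=
  ∀ U : Set (ℂ × ℂ), IsOpen U → IsCompact (closure U) → closure U ⊆ Ω →
    ∃ v : ℕ → ℂ × ℂ → ℝ,
      (∀ k, ContDiffOn ℝ ∞ (v k) U) ∧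
      (∀ k, ∀ p ∈ U, (hess (v k) p).PosSemidef) ∧
      (∀ p ∈ U, Antitone fun k => v k p) ∧
      (∀ p ∈ U, Tendsto (fun k => v k p) atTop (𝓝 (u p))) ∧
      ∀ χ : ℂ × ℂ → ℝ, Continuous χ → HasCompactSupport χ → tsupport χ ⊆ U →
        Tendsto (fun k => ∫ p, χ p * (hess (v k) p).det.re) atTop (𝓝 0)

lemma hess_add_const {W : ℂ × ℂ → ℝ} {p : ℂ × ℂ} (h : ContDiffAt ℝ 2 W p) (a : ℝ) :
    hess (fun q => W q + a) p = hess W p := by
  ext j k
  rw [hess, hess, Matrix.of_apply, Matrix.of_apply, levi_add h contDiffAt_const, levi_const,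
    add_zero]

lemma el_cont {lam c : ℝ} {a b : ℝ} (ha : 0 < a) :
    ContinuousOn (fun p : ℂ × ℂ => el lam c p.2) {p | a < ‖p.2‖ ∧ ‖p.2‖ < b} := by
  intro p hp
  have hp0 : p.2 ≠ 0 := by
    intro h
    have := hp.1
    rw [h, norm_zero] at this
    linarith
  exact (cd_snd (cd_el (m := 0) lam c hp0)).continuousAt.continuousWithinAt

theorem MAZero_uu {a b lam c : ℝ} (ha : 0 < a) (hab : a < b) (hlam : 0 < lam)
    (hel : ∀ z : ℂ, a < ‖z‖ → ‖z‖ < b → el lam c z ∈ Ioo (0 : ℝ) 1) :
    MAZero {p | a < ‖p.2‖ ∧ ‖p.2‖ < b} (uu lam c) := by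
  intro U _ hUc hUs
  -- bounds on U
  obtain ⟨R, hR, hRU⟩ : ∃ R > 0, ∀ p ∈ closure U, ‖p.1‖ < R := by
    obtain ⟨C, hC⟩ := hUc.isBounded.exists_norm_le
    refine ⟨|C| + 1, by positivity, fun p hp => ?_⟩
    have h1 := hC p hp
    have h2 : ‖p.1‖ ≤ ‖p‖ := norm_fst_le p
    linarith [le_abs_self C]
  obtain ⟨η, hη, hηU⟩ : ∃ η > 0, ∀ p ∈ closure U, el lam c p.2 ∈ Icc η (1 - η) := by
    rcases (closure U).eq_empty_or_nonempty with he | hne
    · exact ⟨1, one_pos, fun p hp => by rw [he] at hp; exact absurd hp (notMem_empty p)⟩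
    · have hc : ContinuousOn (fun p : ℂ × ℂ => el lam c p.2) (closure U) := (el_cont ha).mono hUs
      obtain ⟨m, hm, hmin⟩ := hUc.exists_isMinOn hne hc
      obtain ⟨M, hM, hmax⟩ := hUc.exists_isMaxOn hne hc
      have h1 := (hel m.2 (hUs hm).1 (hUs hm).2).1
      have h2 := (hel M.2 (hUs hM).1 (hUs hM).2).2
      refine ⟨min (el lam c m.2) (1 - el lam c M.2), lt_min h1 (by linarith), ?_⟩
      intro p hp
      have h3 : el lam c m.2 ≤ el lam c p.2 := hmin hp
      have h4 : el lam c p.2 ≤ el lam c M.2 := hmax hp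
      constructor
      · exact (min_le_left _ _).trans h3
      · linarith [min_le_right (el lam c m.2) (1 - el lam c M.2)]
  have hUsub : U ⊆ closure U := subset_closure
  have hU0 : ∀ p ∈ U, p.2 ≠ 0 := by
    intro p hp h
    have := (hUs (hUsub hp)).1
    rw [h, norm_zero] at this
    linarith
  choose W hW1 hW2 hW3 hW4 using fun k : ℕ => exists_app (a := a) (b := b) (lam := lam) (c := c)
    (R := R) (η := η) (E := (1 / 2) ^ k) ha hab hlam hR hη (by positivity)
  have hcd : ∀ k, ∀ p ∈ U, ContDiffAt ℝ 2 (W k) p := fun k p hp =>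
    (hW1 k p (hU0 p hp)).of_le two_le_inf
  have hel01 : ∀ p ∈ U, el lam c p.2 ∈ Icc (0 : ℝ) 1 := by
    intro p hp
    have := hel p.2 (hUs (hUsub hp)).1 (hUs (hUsub hp)).2
    exact ⟨this.1.le, this.2.le⟩
  have hclose : ∀ k, ∀ p ∈ U, |W k p - uu lam c p| ≤ (1 / 2) ^ k := fun k p hp =>
    hW3 k p (hRU p (hUsub hp)).le (hel01 p hp)
  refine ⟨fun k p => W k p + 3 * (1 / 2) ^ k, ?_, ?_, ?_, ?_, ?_⟩
  · intro k p hp
    exact ((hW1 k p (hU0 p hp)).add contDiffAt_const).contDiffWithinAt
  · intro k p hp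
    rw [hess_add_const (hcd k p hp)]
    exact hW2 k p (hU0 p hp)
  · intro p hp
    apply antitone_nat_of_succ_le
    intro k
    have h1 := abs_le.1 (hclose k p hp)
    have h2 := abs_le.1 (hclose (k + 1) p hp)
    have h3 : ((1 : ℝ) / 2) ^ (k + 1) = (1 / 2) ^ k / 2 := by rw [pow_succ]; ring
    rw [h3] at h2
    simp only
    rw [h3]
    linarith [h1.1, h2.2]
  · intro p hp
    have hlim : Tendsto (fun k : ℕ => ((1 : ℝ) / 2) ^ k) atTop (𝓝 0) :=
      tendsto_pow_atTop_nhds_zero_of_lt_one (by norm_num) (by norm_num)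
    have h1 : Tendsto (fun k => W k p) atTop (𝓝 (uu lam c p)) := by
      rw [tendsto_iff_norm_sub_tendsto_zero]
      exact squeeze_zero (fun k => norm_nonneg _) (fun k => hclose k p hp) hlim
    have h2 := h1.add (hlim.const_mul 3)
    simpa using h2
  · intro χ hχ hχc hχU
    obtain ⟨C, hC⟩ := hχ.bounded_above_of_compact_support hχc
    have hC0 : 0 ≤ C := le_trans (norm_nonneg _) (hC 0)
    set Z : Set ℂ := {z : ℂ | (a < ‖z‖ ∧ ‖z‖ < b) ∧ el lam c z ∈ Icc η (1 - η)} with hZ
    have helm : Measurable (el lam c) := by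
      unfold el
      fun_prop
    have hZm : MeasurableSet Z :=
      ((measurableSet_lt measurable_const measurable_norm).inter
        (measurableSet_lt measurable_norm measurable_const)).inter (helm measurableSet_Icc)
    have hUZ : U ⊆ ball (0 : ℂ) R ×ˢ Z := by
      intro p hp
      refine ⟨?_, ⟨hUs (hUsub hp), hηU p (hUsub hp)⟩⟩
      rw [mem_ball_zero_iff]
      exact hRU p (hUsub hp)
    have hbound : ∀ k, |∫ p, χ p * (hess (fun q => W k q + 3 * (1 / 2) ^ k) p).det.re| ≤
        C * (1 / 2) ^ k := by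
      intro k
      have hzero : ∀ p, p ∉ U → χ p = 0 := by
        intro p hp
        exact image_eq_zero_of_notMem_tsupport (fun h => hp (hχU h))
      have hstep : ∫⁻ p, ‖χ p * (hess (fun q => W k q + 3 * (1 / 2) ^ k) p).det.re‖ₑ ≤
          ENNReal.ofReal (C * (1 / 2) ^ k) := by
        calc ∫⁻ p, ‖χ p * (hess (fun q => W k q + 3 * (1 / 2) ^ k) p).det.re‖ₑ
            ≤ ∫⁻ p, (ball (0 : ℂ) R ×ˢ Z).indicator
              (fun p => ENNReal.ofReal C * ENNReal.ofReal (hess (W k) p).det.re) p := by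
              apply lintegral_mono
              intro p
              simp only
              by_cases hp : p ∈ U
              · rw [indicator_of_mem (hUZ hp), hess_add_const (hcd k p hp),
                  Real.enorm_eq_ofReal_abs, abs_mul, ENNReal.ofReal_mul (abs_nonneg _)]
                have hdet : 0 ≤ (hess (W k) p).det.re := by
                  have := (hW2 k p (hU0 p hp)).det_nonneg
                  exact (Complex.nonneg_iff.1 this).1
                rw [abs_of_nonneg hdet]
                gcongr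
                exact hC p
              · rw [hzero p hp]
                simp
          _ = ∫⁻ p in ball (0 : ℂ) R ×ˢ Z,
              ENNReal.ofReal C * ENNReal.ofReal (hess (W k) p).det.re :=
              lintegral_indicator (measurableSet_ball.prod hZm) _
          _ = ENNReal.ofReal C * ∫⁻ p in ball (0 : ℂ) R ×ˢ Z,
              ENNReal.ofReal (hess (W k) p).det.re :=
              lintegral_const_mul' _ _ ENNReal.ofReal_ne_top
          _ ≤ ENNReal.ofReal C * ENNReal.ofReal ((1 / 2) ^ k) := by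
              gcongr
              exact hW4 k Z hZm (fun z hz => hz.1) (fun z hz => hz.2)
          _ = ENNReal.ofReal (C * (1 / 2) ^ k) := (ENNReal.ofReal_mul hC0).symm
      have h1 := (enorm_integral_le_lintegral_enorm
        (fun p => χ p * (hess (fun q => W k q + 3 * (1 / 2) ^ k) p).det.re)).trans hstep
      rw [Real.enorm_eq_ofReal_abs] at h1
      exact (ENNReal.ofReal_le_ofReal_iff (by positivity)).1 h1
    apply squeeze_zero_norm (a := fun k : ℕ => C * ((1 : ℝ) / 2) ^ k)
    · intro k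
      exact hbound k
    · have hlim : Tendsto (fun k : ℕ => ((1 : ℝ) / 2) ^ k) atTop (𝓝 0) :=
        tendsto_pow_atTop_nhds_zero_of_lt_one (by norm_num) (by norm_num)
      simpa using hlim.const_mul C

end Pool.Agent.Y502
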