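import Pool.Agent.Y502.Fam

/-! # The Monge-Ampere mass of the approximants -/

set_option autoImplicit false

open Real Metric Set Filter Topology MeasureTheory
open scoped ContDiff ENNReal ComplexOrder

namespace Pool.Agent.Y502

lemma lap_cont {f : ℂ → ℝ} (hf : ContDiff ℝ ∞ f) : Continuous (lap f) := by
  have hD : ContDiff ℝ ∞ (fderiv ℝ f) := hf.fderiv_right (by simp)
  have hDD : ContDiff ℝ ∞ (fderiv ℝ (fderiv ℝ f)) := hD.fderiv_right (by simp)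
  have h1 : lap f = fun c => (fderiv ℝ (fderiv ℝ f) c 1 1 +
      fderiv ℝ (fderiv ℝ f) c Complex.I Complex.I) / 4 := by
    ext c
    rw [lap_eq hf, dd_eq hf, dd_eq hf]
  rw [h1]
  have := hDD.continuous
  fun_prop

section

variable {δ : ℝ} {ρ : ℂ → ℝ} (hρ : Mo δ ρ) {ε : ℝ} {θ θ1 θ2 : ℝ → ℝ} (hθ : Th ε θ θ1 θ2)

include hρ in
lemma sk_gap {Δ κ : ℝ} (hΔ : 0 < Δ) (lam c : ℝ) (k : ℕ) (p : ℂ × ℂ) :
    sk (ff ρ Δ) Δ κ lam c (k + 1) p + κ ≤ sk (ff ρ Δ) Δ κ lam c k p := by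
  have := tk_gap hρ (κ := κ) hΔ k p.1
  rw [sk, sk]
  linarith

include hρ hθ in
lemma psd_app {Δ κ : ℝ} (hΔ : 0 < Δ) (hκ : 0 ≤ κ) (lam c τ0 : ℝ) (n : ℕ) {p : ℂ × ℂ}
    (hp : p.2 ≠ 0) : (hess (WW θ (ff ρ Δ) Δ κ lam c τ0 n) p).PosSemidef :=
  psd_WW hθ (ff_smooth hρ Δ) hp hΔ (fun k => lap_ff_nonneg hρ Δ k p.1)
    (fun k => by linarith [sk_gap hρ (κ := κ) hΔ lam c k p])

include hρ hθ in
/-- Pointwise bound of the determinant by the active breakpoints. -/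
lemma det_app {Δ κ e η : ℝ} (hε : 0 < ε) (hΔ : 0 < Δ) (hκ : 2 * ε ≤ κ) (lam c τ0 : ℝ) (n : ℕ)
    (hη : e + ε ≤ η) {p : ℂ × ℂ} (hp : p.2 ≠ 0) (hel : el lam c p.2 ∈ Icc η (1 - η)) :
    (hess (WW θ (ff ρ Δ) Δ κ lam c τ0 n) p).det.re ≤
      ∑ k ∈ Finset.range n, (if e < tk (ff ρ Δ) Δ κ k p.1 ∧ tk (ff ρ Δ) Δ κ k p.1 < 1 - e then
        Δ * (lap (ff ρ Δ k) p.1 + lap (ff ρ Δ (k + 1)) p.1) else 0) *
        wt θ2 lam c (tk (ff ρ Δ) Δ κ k p.1) p.2 := by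
  refine (det_WW_le hθ (ff_smooth hρ Δ) hε hp hΔ (fun k => lap_ff_nonneg hρ Δ k p.1)
    (fun k => by linarith [sk_gap hρ (κ := κ) hΔ lam c k p])).trans ?_
  apply Finset.sum_le_sum
  intro k _
  split_ifs with h
  · rw [wt, sk]
    apply le_of_eq
    ring
  · have hz : θ2 (sk (ff ρ Δ) Δ κ lam c k p) = 0 := by
      apply hθ.z2
      rw [sk]
      rw [not_and_or, not_lt, not_lt] at h
      rcases h with h | h
      · rw [abs_of_nonneg] <;> linarith [hel.1]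
      · rw [abs_of_nonpos] <;> linarith [hel.2]
    rw [hz]
    simp

include hρ hθ in
lemma mass_app {Δ κ e η a b lam c : ℝ} (hε : 0 < ε) (hΔ : 0 < Δ) (hκ : 2 * ε ≤ κ)
    (ha : 0 < a) (hab : a < b) (hlam : 0 < lam) (τ0 : ℝ) (n : ℕ)
    (he : 40 * δ / Δ + κ * n ≤ e) (hη : e + ε ≤ η) (B : Set ℂ) (Z : Set ℂ)
    (hZ : MeasurableSet Z) (hB : MeasurableSet B)
    (hZa : ∀ z ∈ Z, a < ‖z‖ ∧ ‖z‖ < b) (hZe : ∀ z ∈ Z, el lam c z ∈ Icc η (1 - η)) :
    ∫⁻ p in B ×ˢ Z, ENNReal.ofReal (hess (WW θ (ff ρ Δ) Δ κ lam c τ0 n) p).det.re ≤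
      ENNReal.ofReal (6 * π * lam * Δ) * volume B := by
  set g : ℂ → ℂ → ℝ≥0∞ := fun x z => ∑ k ∈ Finset.range n,
    ENNReal.ofReal (if e < tk (ff ρ Δ) Δ κ k x ∧ tk (ff ρ Δ) Δ κ k x < 1 - e then
        Δ * (lap (ff ρ Δ k) x + lap (ff ρ Δ (k + 1)) x) else 0) *
        ENNReal.ofReal (wt θ2 lam c (tk (ff ρ Δ) Δ κ k x) z) with hg
  have hlapc : ∀ k, Continuous (lap (ff ρ Δ k)) := fun k => lap_cont (ff_smooth hρ Δ k)
  have htk : ∀ k, Continuous (tk (ff ρ Δ) Δ κ k) := fun k => (cd_tk (ff_smooth hρ Δ) Δ κ k).continuous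
  have hcoef : ∀ k, Measurable fun x : ℂ =>
      (if e < tk (ff ρ Δ) Δ κ k x ∧ tk (ff ρ Δ) Δ κ k x < 1 - e then
        Δ * (lap (ff ρ Δ k) x + lap (ff ρ Δ (k + 1)) x) else 0) := by
    intro k
    apply Measurable.ite
    · exact (measurableSet_lt measurable_const (htk k).measurable).inter
        (measurableSet_lt (htk k).measurable measurable_const)
    · exact (((hlapc k).add (hlapc (k + 1))).measurable).const_mul Δ
    · exact measurable_const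
  have hwtm : ∀ k, Measurable fun p : ℂ × ℂ => wt θ2 lam c (tk (ff ρ Δ) Δ κ k p.1) p.2 := by
    intro k
    have h1 := hθ.c2.measurable
    have h2 := (htk k).measurable
    unfold wt el
    fun_prop
  have hwtm' : ∀ t, Measurable fun z : ℂ => wt θ2 lam c t z := by
    intro t
    have h1 := hθ.c2.measurable
    unfold wt el
    fun_prop
  have hcoefnn : ∀ k x, 0 ≤ (if e < tk (ff ρ Δ) Δ κ k x ∧ tk (ff ρ Δ) Δ κ k x < 1 - e then
        Δ * (lap (ff ρ Δ k) x + lap (ff ρ Δ (k + 1)) x) else 0) := by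
    intro k x
    split_ifs
    · have := lap_ff_nonneg hρ Δ k x
      have := lap_ff_nonneg hρ Δ (k + 1) x
      positivity
    · exact le_rfl
  have hwtnn : ∀ t z, 0 ≤ wt θ2 lam c t z := by
    intro t z
    have := hθ.nn2 (el lam c z - t)
    unfold wt
    positivity
  have hgm : Measurable (Function.uncurry g) := by
    apply Finset.measurable_sum
    intro k _
    exact (((hcoef k).comp measurable_fst).ennreal_ofReal).mul (hwtm k).ennreal_ofReal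
  have step1 : ∫⁻ p in B ×ˢ Z, ENNReal.ofReal (hess (WW θ (ff ρ Δ) Δ κ lam c τ0 n) p).det.re ≤
      ∫⁻ p in B ×ˢ Z, Function.uncurry g p := by
    apply setLIntegral_mono' (hB.prod hZ)
    rintro ⟨x, z⟩ ⟨_, hz⟩
    have hz0 : z ≠ 0 := by
      intro h
      have := (hZa z hz).1
      rw [h, norm_zero] at this
      linarith
    refine (ENNReal.ofReal_le_ofReal (det_app hρ hθ (e := e) (η := η) hε hΔ hκ lam c τ0 n hη hz0
      (hZe z hz))).trans ?_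
    rw [ENNReal.ofReal_sum_of_nonneg (fun k _ => mul_nonneg (hcoefnn k x) (hwtnn _ z))]
    simp only [Function.uncurry, hg]
    apply Finset.sum_le_sum
    intro k _
    rw [ENNReal.ofReal_mul (hcoefnn k x)]
  have step2 : ∫⁻ p in B ×ˢ Z, Function.uncurry g p ≤
      ∫⁻ p in B ×ˢ {z : ℂ | a < ‖z‖ ∧ ‖z‖ < b}, Function.uncurry g p :=
    lintegral_mono_set (prod_mono le_rfl fun z hz => hZa z hz)
  have step3 : ∫⁻ p in B ×ˢ {z : ℂ | a < ‖z‖ ∧ ‖z‖ < b}, Function.uncurry g p =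
      ∫⁻ x in B, ∫⁻ z in {z : ℂ | a < ‖z‖ ∧ ‖z‖ < b}, g x z := by
    rw [Measure.volume_eq_prod, ← Measure.prod_restrict, lintegral_prod _ hgm.aemeasurable]
    rfl
  have step4 : ∀ x, ∫⁻ z in {z : ℂ | a < ‖z‖ ∧ ‖z‖ < b}, g x z ≤
      ENNReal.ofReal (6 * π * lam * Δ) := by
    intro x
    rw [hg]
    simp only
    rw [lintegral_finsetSum _ (fun k _ => ((hwtm' _).ennreal_ofReal).const_mul _)]
    have e1 : ∀ k ∈ Finset.range n, ∫⁻ z in {z : ℂ | a < ‖z‖ ∧ ‖z‖ < b},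
        ENNReal.ofReal (if e < tk (ff ρ Δ) Δ κ k x ∧ tk (ff ρ Δ) Δ κ k x < 1 - e then
        Δ * (lap (ff ρ Δ k) x + lap (ff ρ Δ (k + 1)) x) else 0) *
        ENNReal.ofReal (wt θ2 lam c (tk (ff ρ Δ) Δ κ k x) z) ≤
        ENNReal.ofReal (if e < tk (ff ρ Δ) Δ κ k x ∧ tk (ff ρ Δ) Δ κ k x < 1 - e then
        Δ * (lap (ff ρ Δ k) x + lap (ff ρ Δ (k + 1)) x) else 0) * ENNReal.ofReal (π * lam / 2) := by
      intro k _
      rw [lintegral_const_mul _ (hwtm' _).ennreal_ofReal]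
      gcongr
      exact wt_int hθ ha hab hlam c _
    refine (Finset.sum_le_sum e1).trans ?_
    rw [← Finset.sum_mul, ← ENNReal.ofReal_sum_of_nonneg (fun k _ => hcoefnn k x),
      ← ENNReal.ofReal_mul (Finset.sum_nonneg fun k _ => hcoefnn k x)]
    apply ENNReal.ofReal_le_ofReal
    have e2 : ∑ k ∈ Finset.range n, (if e < tk (ff ρ Δ) Δ κ k x ∧ tk (ff ρ Δ) Δ κ k x < 1 - e then
        Δ * (lap (ff ρ Δ k) x + lap (ff ρ Δ (k + 1)) x) else 0) ≤ Δ * 12 := by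
      rw [← Finset.sum_filter, ← Finset.mul_sum]
      apply mul_le_mul_of_nonneg_left _ hΔ.le
      apply active_sum hρ hΔ (by linarith) he
      intro k hk
      rw [Finset.mem_filter, Finset.mem_range] at hk
      exact ⟨hk.1, hk.2.1, hk.2.2⟩
    have e3 : 0 ≤ π * lam / 2 := by positivity
    calc _ ≤ Δ * 12 * (π * lam / 2) := mul_le_mul_of_nonneg_right e2 e3
      _ = 6 * π * lam * Δ := by ring
  calc _ ≤ _ := step1
    _ ≤ _ := step2
    _ = _ := step3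
    _ ≤ ∫⁻ _ in B, ENNReal.ofReal (6 * π * lam * Δ) := lintegral_mono step4
    _ = _ := by rw [setLIntegral_const]

end

end Pool.Agent.Y502
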