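import Pool.Agent.Y502.CA
import Pool.Agent.Y502.Levi

/-! # Mollification and the Laplacian -/

set_option autoImplicit false

open Real Metric Set Filter Topology MeasureTheory
open scoped ContDiff Convolution

namespace Pool.Agent.Y502

/-- Mollifiers of radius `δ`. -/
structure Mo (δ : ℝ) (ρ : ℂ → ℝ) : Prop where
  smooth : ContDiff ℝ ∞ ρ
  supp : HasCompactSupport ρ
  nn : ∀ x, 0 ≤ ρ x
  int : ∫ x, ρ x = 1
  z : ∀ x, δ ≤ ‖x‖ → ρ x = 0

lemma exists_mo {δ : ℝ} (hδ : 0 < δ) : ∃ ρ : ℂ → ℝ, Mo δ ρ := by
  let b : ContDiffBump (0 : ℂ) := ⟨δ / 2, δ, by positivity, by linarith⟩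
  refine ⟨b.normed volume, b.contDiff_normed, b.hasCompactSupport_normed, b.nonneg_normed,
    b.integral_normed, ?_⟩
  intro x hx
  by_contra h
  have h1 : x ∈ Function.support (b.normed volume) := h
  rw [b.support_normed_eq, mem_ball_zero_iff] at h1
  have : b.rOut = δ := rfl
  linarith

/-- The mollification of `F`. -/
noncomputable def mo (ρ F : ℂ → ℝ) (x : ℂ) : ℝ := ∫ y, ρ y * F (x - y)

lemma cont_ca {F : ℂ → ℝ} (hF : Continuous F) (r : ℝ) :
    Continuous fun c => circleAverage F c r := by
  simp only [circleAverage_def, smul_eq_mul]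
  apply continuous_const.mul
  apply intervalIntegral.continuous_parametric_intervalIntegral_of_continuous'
  have : Continuous (Function.uncurry fun (c : ℂ) (θ : ℝ) => circleMap c r θ) := by
    unfold Function.uncurry circleMap
    fun_prop
  exact hF.comp this

section

variable {δ : ℝ} {ρ : ℂ → ℝ} (hρ : Mo δ ρ)

include hρ

lemma Mo.contDiff {F : ℂ → ℝ} (hF : Continuous F) : ContDiff ℝ ∞ (mo ρ F) := by
  have h := hρ.supp.contDiff_convolution_left (ContinuousLinearMap.lsmul ℝ ℝ) hρ.smooth
    (hF.locallyIntegrable (μ := volume))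
  exact h

lemma Mo.integrable {F : ℂ → ℝ} (hF : Continuous F) : Integrable fun y => ρ y * F y :=
  (hρ.smooth.continuous.mul hF).integrable_of_hasCompactSupport hρ.supp.mul_right

lemma Mo.integrable' {F : ℂ → ℝ} (hF : Continuous F) (x : ℂ) :
    Integrable fun y => ρ y * F (x - y) :=
  hρ.integrable (F := fun y => F (x - y)) (by fun_prop)

lemma Mo.sub {F G : ℂ → ℝ} (hF : Continuous F) (hG : Continuous G) (x : ℂ) :
    mo ρ F x - mo ρ G x = mo ρ (fun y => F y - G y) x := by
  rw [mo, mo, ← integral_sub (hρ.integrable' hF x) (hρ.integrable' hG x), mo]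
  congr 1
  ext y
  ring

lemma Mo.mono {F G : ℂ → ℝ} (hF : Continuous F) (hG : Continuous G) 
    (h : ∀ y, ‖y‖ < δ → F y ≤ G y) : ∫ y, ρ y * F y ≤ ∫ y, ρ y * G y := by
  apply integral_mono (hρ.integrable hF) (hρ.integrable hG)
  intro y
  simp only
  by_cases hy : ‖y‖ < δ
  · exact mul_le_mul_of_nonneg_left (h y hy) (hρ.nn y)
  · rw [hρ.z y (not_lt.1 hy)]
    simp

lemma Mo.const (a : ℝ) : ∫ y, ρ y * a = a := by
  rw [integral_mul_const, hρ.int, one_mul]

lemma Mo.close {F : ℂ → ℝ} (hF : Continuous F) {x : ℂ} {a e : ℝ}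
    (h : ∀ y, ‖y‖ < δ → |F (x - y) - a| ≤ e) : |mo ρ F x - a| ≤ e := by
  have h1 := hρ.mono (F := fun y => F (x - y)) (G := fun _ => a + e) (by fun_prop)
    continuous_const (fun y hy => by linarith [(abs_le.1 (h y hy)).2])
  have h2 := hρ.mono (F := fun _ => a - e) (G := fun y => F (x - y)) 
    continuous_const (by fun_prop) (fun y hy => by linarith [(abs_le.1 (h y hy)).1])
  rw [hρ.const] at h1 h2
  rw [mo, abs_le]
  constructor <;> linarith

/-- Circle averages commute with mollification. -/
lemma Mo.ca {F : ℂ → ℝ} (hF : Continuous F) (c : ℂ) (r : ℝ) :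
    circleAverage (mo ρ F) c r = ∫ y, ρ y * circleAverage F (c - y) r := by
  have hK : IsCompact (tsupport ρ) := hρ.supp
  have hint : Integrable (Function.uncurry fun (θ : ℝ) (y : ℂ) => ρ y * F (circleMap c r θ - y))
      ((volume.restrict (Ioc 0 (2 * π))).prod volume) := by
    have hc : Continuous (Function.uncurry
        fun (θ : ℝ) (y : ℂ) => ρ y * F (circleMap c r θ - y)) := by
      have := hρ.smooth.continuous
      have := continuous_circleMap c r
      unfold Function.uncurry
      fun_prop
    have h1 : IntegrableOn (Function.uncurry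
        fun (θ : ℝ) (y : ℂ) => ρ y * F (circleMap c r θ - y))
        (Icc 0 (2 * π) ×ˢ tsupport ρ) (volume.prod volume) :=
      hc.continuousOn.integrableOn_compact (isCompact_Icc.prod hK)
    have h2 : IntegrableOn (Function.uncurry
        fun (θ : ℝ) (y : ℂ) => ρ y * F (circleMap c r θ - y))
        (Ioc 0 (2 * π) ×ˢ tsupport ρ) (volume.prod volume) :=
      h1.mono_set (prod_mono Ioc_subset_Icc_self le_rfl)
    have h3 : IntegrableOn (Function.uncurry
        fun (θ : ℝ) (y : ℂ) => ρ y * F (circleMap c r θ - y))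
        (Ioc 0 (2 * π) ×ˢ univ) (volume.prod volume) := by
      apply h2.of_forall_sdiff_eq_zero (measurableSet_Ioc.prod MeasurableSet.univ)
      rintro ⟨θ, y⟩ hx
      have hy : y ∉ tsupport ρ := by
        intro hy
        exact hx.2 ⟨hx.1.1, hy⟩
      simp only [Function.uncurry]
      rw [image_eq_zero_of_notMem_tsupport hy, zero_mul]
    rw [IntegrableOn, ← Measure.prod_restrict, Measure.restrict_univ] at h3
    exact h3
  have hswap := integral_integral_swap hint
  rw [circleAverage_def, intervalIntegral.integral_of_le (by positivity)]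
  simp only [mo]
  rw [hswap, smul_eq_mul, ← integral_const_mul]
  congr 1
  ext y
  rw [circleAverage_def, intervalIntegral.integral_of_le (by positivity), integral_const_mul,
    smul_eq_mul]
  have : ∀ θ, circleMap c r θ - y = circleMap (c - y) r θ := by
    intro θ; simp only [circleMap]; ring
  simp only [this]
  ring

/-- The sub-mean value inequality is inherited by the mollification. -/
lemma Mo.submean {F : ℂ → ℝ} (hF : Continuous F) {c : ℂ} {r b : ℝ}
    (h : ∀ y, ‖y‖ < δ → F (c - y) ≤ circleAverage F (c - y) r + b) :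
    mo ρ F c ≤ circleAverage (mo ρ F) c r + b := by
  have hcc := cont_ca hF r
  rw [hρ.ca hF]
  have h1 := hρ.mono (F := fun y => F (c - y)) (G := fun y => circleAverage F (c - y) r + b)
    (by fun_prop) (by fun_prop) h
  have h2 : ∫ y, ρ y * (circleAverage F (c - y) r + b) =
      (∫ y, ρ y * circleAverage F (c - y) r) + b := by
    have e : (fun y => ρ y * (circleAverage F (c - y) r + b)) =
      fun y => ρ y * circleAverage F (c - y) r + ρ y * b := by ext y; ring
    rw [e, integral_add (hρ.integrable (F := fun y => circleAverage F (c - y) r) (by fun_prop))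
      (hρ.integrable continuous_const), hρ.const]
  rw [h2] at h1
  exact h1

lemma Mo.supermean {F : ℂ → ℝ} (hF : Continuous F) {c : ℂ} {r b : ℝ}
    (h : ∀ y, ‖y‖ < δ → circleAverage F (c - y) r ≤ F (c - y) + b) :
    circleAverage (mo ρ F) c r ≤ mo ρ F c + b := by
  have h1 := hρ.submean (F := fun z => - F z) (by fun_prop) (c := c) (r := r) (b := b)
    (fun y hy => by rw [ca_neg]; linarith [h y hy])
  have h2 : mo ρ (fun z => - F z) = fun z => - mo ρ F z := by
    ext z
    rw [mo, mo, ← integral_neg]
    congr 1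
    ext y
    ring
  rw [h2, ca_neg] at h1
  linarith

end

end Pool.Agent.Y502
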