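import Pool.Agent.Y502.Env

/-! # The two potentials -/

set_option autoImplicit false

open Real Metric Set Filter Topology MeasureTheory

namespace Pool.Agent.Y502

/-- The primitive third root of unity. -/
noncomputable def om : ℂ := ⟨-1 / 2, √3 / 2⟩

lemma sq3 : √3 * √3 = 3 := Real.mul_self_sqrt (by norm_num)

lemma sq3' : √3 ^ 2 = 3 := Real.sq_sqrt (by norm_num)

lemma om_norm : ‖om‖ = 1 := by
  have : ‖om‖ ^ 2 = 1 := by
    rw [← Complex.normSq_eq_norm_sq, Complex.normSq_apply, om]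
    simp only
    nlinarith [sq3]
  nlinarith [norm_nonneg om, sq_nonneg (‖om‖ - 1)]

lemma om_re : om.re = -1 / 2 := rfl
lemma om_im : om.im = √3 / 2 := rfl

lemma om_sum : 1 + om + om ^ 2 = 0 := by
  apply Complex.ext
  · simp only [pow_two, Complex.add_re, Complex.mul_re, Complex.one_re, om_re, om_im,
      Complex.zero_re]
    nlinarith [sq3]
  · simp only [pow_two, Complex.add_im, Complex.mul_im, Complex.one_im, om_re, om_im,
      Complex.zero_im]
    ring

/-- The real parts of `ω ξ` and `ω² ξ`. -/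
noncomputable def X1 (z : ℂ) : ℝ := -z.re / 2 - √3 / 2 * z.im
noncomputable def X2 (z : ℂ) : ℝ := -z.re / 2 + √3 / 2 * z.im

lemma X1_eq (z : ℂ) : X1 z = (om * z).re := by
  rw [Complex.mul_re, om_re, om_im, X1]
  ring

lemma X2_eq (z : ℂ) : X2 z = (om ^ 2 * z).re := by
  rw [pow_two, Complex.mul_re, Complex.mul_re, Complex.mul_im, om_re, om_im, X2]
  linear_combination (z.re / 4) * sq3

lemma X1_om (z : ℂ) : X1 (om * z) = X2 z := by
  rw [X1_eq, X2_eq]; ring_nf

lemma om_re_mul (z : ℂ) : (om * z).re = X1 z := (X1_eq z).symm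

lemma X2_om (z : ℂ) : X2 (om * z) = z.re := by
  rw [X2_eq]
  have : om ^ 2 * (om * z) = z := by
    have : om ^ 3 = 1 := by
      have : om ^ 3 - 1 = (om - 1) * (1 + om + om ^ 2) := by ring
      rw [om_sum, mul_zero, sub_eq_zero] at this
      exact this
    calc om ^ 2 * (om * z) = om ^ 3 * z := by ring
      _ = z := by rw [this, one_mul]
  rw [this]

lemma X_sum (z : ℂ) : z.re + X1 z + X2 z = 0 := by
  rw [X1, X2]; ring

lemma X_sq (z : ℂ) : z.re ^ 2 + X1 z ^ 2 + X2 z ^ 2 = 3 / 2 * ‖z‖ ^ 2 := by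
  rw [← Complex.normSq_eq_norm_sq, Complex.normSq_apply, X1, X2]
  nlinarith [sq3]

lemma X1_add (z a : ℂ) : X1 (z + a) = X1 z + X1 a := by
  rw [X1, X1, X1, Complex.add_re, Complex.add_im]; ring

lemma X2_add (z a : ℂ) : X2 (z + a) = X2 z + X2 a := by
  rw [X2, X2, X2, Complex.add_re, Complex.add_im]; ring

lemma X1_neg (z : ℂ) : X1 (-z) = - X1 z := by
  rw [X1, X1, Complex.neg_re, Complex.neg_im]; ring

lemma X2_neg (z : ℂ) : X2 (-z) = - X2 z := by
  rw [X2, X2, Complex.neg_re, Complex.neg_im]; ring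

lemma abs_X1_le (z : ℂ) : |X1 z| ≤ ‖z‖ := by
  rw [X1_eq]
  refine (Complex.abs_re_le_norm _).trans ?_
  rw [norm_mul, om_norm, one_mul]

lemma abs_X2_le (z : ℂ) : |X2 z| ≤ ‖z‖ := by
  rw [X2_eq]
  refine (Complex.abs_re_le_norm _).trans ?_
  rw [norm_mul, norm_pow, om_norm, one_pow, one_mul]

@[fun_prop] lemma X1_cont : Continuous X1 := by unfold X1; fun_prop
@[fun_prop] lemma X2_cont : Continuous X2 := by unfold X2; fun_prop

/-- The profile. -/
noncomputable def kk (x : ℝ) : ℝ := 13 / 10 * cos x + 2 * sin x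

/-- The first potential. -/
noncomputable def u0 (z : ℂ) : ℝ := kk z.re + kk (X1 z) + kk (X2 z)

/-- The second potential. -/
noncomputable def u1 (z : ℂ) : ℝ := u0 (-z)

lemma kk_bd (x : ℝ) : |kk x| ≤ 33 / 10 := by
  rw [kk, abs_le]
  constructor <;> nlinarith [neg_one_le_cos x, cos_le_one x, neg_one_le_sin x, sin_le_one x]

lemma kk_lip (x h : ℝ) : |kk (x + h) - kk x| ≤ 33 / 10 * |h| := by
  have h1 := abs_sin_sub_sin_le (x + h) x
  have h2 := abs_cos_sub_cos_le (x + h) x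
  rw [add_sub_cancel_left] at h1 h2
  rw [kk, kk]
  have : 13 / 10 * cos (x + h) + 2 * sin (x + h) - (13 / 10 * cos x + 2 * sin x) =
    13 / 10 * (cos (x + h) - cos x) + 2 * (sin (x + h) - sin x) := by ring
  rw [this]
  calc _ ≤ |13 / 10 * (cos (x + h) - cos x)| + |2 * (sin (x + h) - sin x)| := abs_add_le _ _
    _ = 13 / 10 * |cos (x + h) - cos x| + 2 * |sin (x + h) - sin x| := by
        rw [abs_mul, abs_mul, abs_of_pos (by norm_num : (0:ℝ) < 13 / 10),
          abs_of_pos (by norm_num : (0:ℝ) < 2)]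
    _ ≤ _ := by linarith

lemma kk_sym (x h : ℝ) : kk (x + h) + kk (x - h) = 2 * kk x * cos h := by
  rw [kk, kk, kk, cos_add, cos_sub, sin_add, sin_sub]
  ring

@[fun_prop] lemma kk_cont : Continuous kk := by unfold kk; fun_prop

@[fun_prop] lemma u0_cont : Continuous u0 := by unfold u0; fun_prop

@[fun_prop] lemma u1_cont : Continuous u1 := by unfold u1; fun_prop

lemma u0_bd (z : ℂ) : |u0 z| ≤ 10 := by
  rw [u0]
  have h1 := abs_le.1 (kk_bd z.re)
  have h2 := abs_le.1 (kk_bd (X1 z))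
  have h3 := abs_le.1 (kk_bd (X2 z))
  rw [abs_le]
  constructor <;> linarith [h1.1, h1.2, h2.1, h2.2, h3.1, h3.2]

lemma u0_lip (z a : ℂ) : |u0 (z + a) - u0 z| ≤ 10 * ‖a‖ := by
  rw [u0, u0, X1_add, X2_add, Complex.add_re]
  have h1 := abs_le.1 (kk_lip z.re a.re)
  have h2 := abs_le.1 (kk_lip (X1 z) (X1 a))
  have h3 := abs_le.1 (kk_lip (X2 z) (X2 a))
  have e1 := Complex.abs_re_le_norm a
  have e2 := abs_X1_le a
  have e3 := abs_X2_le a
  have := norm_nonneg a
  rw [abs_le]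
  constructor <;> linarith [h1.1, h1.2, h2.1, h2.2, h3.1, h3.2]

lemma u0_sym (z a : ℂ) : u0 (z + a) + u0 (z - a) =
    2 * (kk z.re * cos a.re + kk (X1 z) * cos (X1 a) + kk (X2 z) * cos (X2 a)) := by
  have e : z - a = z + -a := sub_eq_add_neg _ _
  rw [u0, u0, X1_add, X2_add, e, X1_add, X2_add, X1_neg, X2_neg, Complex.add_re, Complex.add_re,
    Complex.neg_re]
  have h1 := kk_sym z.re a.re
  have h2 := kk_sym (X1 z) (X1 a)
  have h3 := kk_sym (X2 z) (X2 a)
  simp only [sub_eq_add_neg] at h1 h2 h3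
  linarith

lemma one_sub_cos_le (x : ℝ) : 1 - cos x ≤ x ^ 2 / 2 := by
  linarith [one_sub_sq_div_two_le_cos (x := x)]

lemma u0_semi (z a : ℂ) : u0 (z + a) + u0 (z - a) ≤ 2 * u0 z + 10 * ‖a‖ ^ 2 := by
  rw [u0_sym, u0]
  have key : ∀ x h : ℝ, kk x * cos h ≤ kk x + 33 / 10 * (h ^ 2 / 2) := by
    intro x h
    have h1 := one_sub_cos_le h
    have h2 := abs_le.1 (kk_bd x)
    have h3 : 0 ≤ 1 - cos h := by linarith [cos_le_one h]
    nlinarith [h2.1, h2.2]
  have k1 := key z.re a.re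
  have k2 := key (X1 z) (X1 a)
  have k3 := key (X2 z) (X2 a)
  have := X_sq a
  nlinarith [sq_nonneg ‖a‖]

/-- The maximum of `u0` is `39/10`. -/
lemma u0_le (z : ℂ) : u0 z ≤ 39 / 10 := by
  set p := (z.re + X1 z) / 2 with hp
  set m := (z.re - X1 z) / 2 with hm
  have e1 : z.re = p + m := by rw [hp, hm]; ring
  have e2 : X1 z = p - m := by rw [hp, hm]; ring
  have e3 : X2 z = -(2 * p) := by
    have := X_sum z
    rw [hp]; linarith
  have h1 := kk_sym p m
  rw [u0, e1, e2, e3]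
  have h2 : kk (p + m) + kk (p - m) + kk (-(2 * p)) =
      2 * (13 / 10 * cos p + 2 * sin p) * cos m + (13 / 10 * (2 * cos p ^ 2 - 1)
        - 2 * (2 * sin p * cos p)) := by
    rw [h1, kk, kk, cos_neg, sin_neg, cos_two_mul, sin_two_mul]
    ring
  rw [h2]
  have hsc := sin_sq_add_cos_sq p
  set C := cos p
  set S := sin p
  have hC1 : C ≤ 1 := cos_le_one p
  have hC2 : -1 ≤ C := neg_one_le_cos p
  have hc1 : cos m ≤ 1 := cos_le_one m
  have hc2 : -1 ≤ cos m := neg_one_le_cos m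
  -- the two endpoint inequalities
  have key1 : 4 * S - 13 / 5 * C ≤ 26 / 5 := by
    nlinarith [sq_nonneg (4 * S - 13 / 5 * C - 26 / 5), sq_nonneg (4 * C + 13 / 5 * S)]
  have A1 : 2 * (13 / 10 * C + 2 * S) + (13 / 10 * (2 * C ^ 2 - 1) - 2 * (2 * S * C)) ≤ 39 / 10 := by
    have : 2 * (13 / 10 * C + 2 * S) + (13 / 10 * (2 * C ^ 2 - 1) - 2 * (2 * S * C)) - 39 / 10 =
      (1 - C) * (4 * S - 13 / 5 * (C + 2)) := by ring
    nlinarith
  have key2 : 13 / 5 * C - 4 * S ≤ 26 / 5 := by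
    nlinarith [sq_nonneg (13 / 5 * C - 4 * S - 26 / 5), sq_nonneg (4 * C + 13 / 5 * S)]
  have A2 : -(2 * (13 / 10 * C + 2 * S)) + (13 / 10 * (2 * C ^ 2 - 1) - 2 * (2 * S * C)) ≤
      39 / 10 := by
    have : -(2 * (13 / 10 * C + 2 * S)) + (13 / 10 * (2 * C ^ 2 - 1) - 2 * (2 * S * C)) - 39 / 10 =
      (1 + C) * (13 / 5 * (C - 2) - 4 * S) := by ring
    nlinarith
  nlinarith

end Pool.Agent.Y502
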