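import Pool.Agent.Y502.Obs

/-! # The two potentials: averages -/

set_option autoImplicit false

open Real Metric Set Filter Topology MeasureTheory

namespace Pool.Agent.Y502

lemma ca_six {f : ℂ → ℝ} (hf : Continuous f) (c : ℂ) (r : ℝ) :
    circleAverage f c r = circleAverage (fun z => (1 / 6 : ℝ) * ((f (c + (z - c)) + f (c - (z - c)))
      + (f (c + om * (z - c)) + f (c - om * (z - c)))
      + (f (c + om * (om * (z - c))) + f (c - om * (om * (z - c)))))) c r := by
  have h0 : circleAverage (fun z => f (c + (z - c))) c r = circleAverage f c r := by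
    congr 1; ext z; congr 1; ring
  have h1 : circleAverage (fun z => f (c - (z - c))) c r = circleAverage f c r := by
    have := ca_rot f c r (u := -1) (by simp)
    rw [← this]; congr 1; ext z; congr 1; ring
  have h2 := ca_rot f c r om_norm
  have h3 : circleAverage (fun z => f (c - om * (z - c))) c r = circleAverage f c r := by
    have := ca_rot f c r (u := -om) (by rw [norm_neg, om_norm])
    rw [← this]; congr 1; ext z; congr 1; ring
  have h4 : circleAverage (fun z => f (c + om * (om * (z - c)))) c r = circleAverage f c r := by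
    have := ca_rot f c r (u := om * om) (by rw [norm_mul, om_norm, one_mul])
    rw [← this]; congr 1; ext z; congr 1; ring
  have h5 : circleAverage (fun z => f (c - om * (om * (z - c)))) c r = circleAverage f c r := by
    have := ca_rot f c r (u := -(om * om)) (by rw [norm_neg, norm_mul, om_norm, one_mul])
    rw [← this]; congr 1; ext z; congr 1; ring
  rw [ca_mul, ca_add (by fun_prop) (by fun_prop), ca_add (by fun_prop) (by fun_prop),
    ca_add (by fun_prop) (by fun_prop), ca_add (by fun_prop) (by fun_prop),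
    ca_add (by fun_prop) (by fun_prop), h0, h1, h2, h3, h4, h5]
  ring

lemma six_sum (c D : ℂ) : (u0 (c + D) + u0 (c - D)) + (u0 (c + om * D) + u0 (c - om * D))
      + (u0 (c + om * (om * D)) + u0 (c - om * (om * D))) =
      2 * u0 c * (cos D.re + cos (X1 D) + cos (X2 D)) := by
  rw [u0_sym, u0_sym, u0_sym, X1_om, X1_om, X2_om, X2_om, om_re_mul, om_re_mul, X1_om, u0]
  ring

/-- `u0` satisfies the sub-mean inequality, that is `|z|² + u0` is subharmonic. -/
lemma u0_QS : QS 1 u0 := by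
  intro c r hr
  rw [ca_six u0_cont c r]
  have : u0 c - r ^ 2 ≤ circleAverage (fun z => (1 / 6 : ℝ) *
      ((u0 (c + (z - c)) + u0 (c - (z - c)))
      + (u0 (c + om * (z - c)) + u0 (c - om * (z - c)))
      + (u0 (c + om * (om * (z - c))) + u0 (c - om * (om * (z - c)))))) c r := by
    apply ca_ge_of_ge (by fun_prop)
    intro z hz
    rw [six_sum]
    set D := z - c with hD
    have hn : ‖D‖ = r := by
      rw [abs_of_pos hr, mem_sphere, dist_eq_norm] at hz
      exact hz
    have h1 := one_sub_cos_le D.re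
    have h2 := one_sub_cos_le (X1 D)
    have h3 := one_sub_cos_le (X2 D)
    have h4 := X_sq D
    rw [hn] at h4
    have h5 := u0_le c
    have h6 : cos D.re + cos (X1 D) + cos (X2 D) - 3 ≤ 0 := by
      linarith [cos_le_one D.re, cos_le_one (X1 D), cos_le_one (X2 D)]
    have h7 : -(3 / 4 * r ^ 2) ≤ cos D.re + cos (X1 D) + cos (X2 D) - 3 := by linarith
    nlinarith [mul_nonneg_of_nonpos_of_nonpos (sub_nonpos.2 h5) h6]
  linarith

lemma u1_QS : QS 1 u1 := u0_QS.neg0

lemma u1_bd (z : ℂ) : |u1 z| ≤ 10 := u0_bd _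

lemma u1_lip (z a : ℂ) : |u1 (z + a) - u1 z| ≤ 10 * ‖a‖ := by
  rw [u1, u1, neg_add]
  have := u0_lip (-z) (-a)
  rwa [norm_neg] at this

lemma u1_semi (z a : ℂ) : u1 (z + a) + u1 (z - a) ≤ 2 * u1 z + 10 * ‖a‖ ^ 2 := by
  have := u0_semi (-z) (-a)
  rw [norm_neg, sub_neg_eq_add] at this
  rw [u1, u1, u1, neg_add, neg_sub, sub_eq_add_neg a z]
  rw [add_comm a (-z)]
  exact this

lemma u0_om (z : ℂ) : u0 (om * z) = u0 z := by
  rw [u0, X1_om, X2_om, om_re_mul, u0]
  ring

lemma u1_om (z : ℂ) : u1 (om * z) = u1 z := by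
  rw [u1, u1, ← mul_neg, u0_om]

lemma u0_zero : u0 0 = 39 / 10 := by
  rw [u0, X1, X2]
  norm_num [kk]

/-- `cos (3 φ)²` averages to one half. -/
lemma ca_cube : circleAverage (fun z => ((z ^ 3).re) ^ 2) 0 1 = 1 / 2 := by
  set u : ℂ := Complex.exp ((π / 6 : ℝ) * Complex.I) with hu
  have hun : ‖u‖ = 1 := Complex.norm_exp_ofReal_mul_I _
  have hu3 : u ^ 3 = Complex.I := by
    have e : ((3 : ℕ) : ℂ) * ((π / 6 : ℝ) * Complex.I) = π / 2 * Complex.I := by
      push_cast
      ring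
    rw [hu, ← Complex.exp_nat_mul, e, Complex.exp_pi_div_two_mul_I]
  have h1 := ca_rot0 (fun z => ((z ^ 3).re) ^ 2) 0 1 hun
  have h2 : (fun z : ℂ => (((u * z) ^ 3).re) ^ 2) = fun z => ((z ^ 3).im) ^ 2 := by
    ext z
    rw [mul_pow, hu3, Complex.mul_re]
    simp
  rw [h2, mul_zero] at h1
  have h3 : circleAverage (fun z => ((z ^ 3).re) ^ 2 + ((z ^ 3).im) ^ 2) 0 1 = 1 := by
    apply circleAverage_const_on_circle
    intro z hz
    have hz' : ‖z‖ = 1 := by simpa using hz
    have : ((z ^ 3).re) ^ 2 + ((z ^ 3).im) ^ 2 = ‖z ^ 3‖ ^ 2 := by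
      rw [← Complex.normSq_eq_norm_sq, Complex.normSq_apply]; ring
    rw [this, norm_pow, hz']
    norm_num
  rw [ca_add (by fun_prop) (by fun_prop)] at h3
  linarith

lemma cube_re (z : ℂ) : z.re * X1 z * X2 z = (z ^ 3).re / 4 := by
  have : z ^ 3 = z * (z * z) := by ring
  rw [this, Complex.mul_re, Complex.mul_re, Complex.mul_im, X1, X2]
  linear_combination (-(z.re * z.im ^ 2) / 4) * sq3

lemma sin_lower {y : ℝ} : |y| * (1 - y ^ 2 / 6) ≤ |sin y| := by
  have key : ∀ y : ℝ, 0 ≤ y → y * (1 - y ^ 2 / 6) ≤ |sin y| := by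
    intro y hy
    rcases hy.eq_or_lt with h | h
    · rw [← h]; simp
    · have := sin_gt_sub_cube h
      have h2 := le_abs_self (sin y)
      nlinarith
  rcases le_total 0 y with hy | hy
  · rw [abs_of_nonneg hy]; exact key y hy
  · have := key (-y) (by linarith)
    rw [sin_neg, abs_neg] at this
    rw [abs_of_nonpos hy]
    simpa using this

/-- The pointwise bound on the unit circle. -/
lemma min_le_circle {z : ℂ} (hz : ‖z‖ = 1) :
    min (u0 z) (u1 z) ≤ 3002 / 1000 - 22 / 100 * ((z ^ 3).re) ^ 2 := by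
  set a := z.re with ha
  set b := X1 z with hb
  set c := X2 z with hc
  have hsum : a + b + c = 0 := X_sum z
  have hsq : a ^ 2 + b ^ 2 + c ^ 2 = 3 / 2 := by
    have := X_sq z
    rw [hz] at this
    linarith
  have hcube : a * b * c = (z ^ 3).re / 4 := cube_re z
  have hR : |(z ^ 3).re| ≤ 1 := by
    have := Complex.abs_re_le_norm (z ^ 3)
    rwa [norm_pow, hz, one_pow] at this
  have hA : |a| ≤ 1 := by rw [← hz]; exact Complex.abs_re_le_norm z
  have hB : |b| ≤ 1 := by rw [← hz]; exact abs_X1_le z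
  have hC : |c| ≤ 1 := by rw [← hz]; exact abs_X2_le z
  -- cosines
  have cosb : ∀ x : ℝ, |x| ≤ 1 → cos x ≤ 1 - x ^ 2 / 2 + x ^ 4 * (5 / 96) := by
    intro x hx
    have := (abs_le.1 (cos_bound hx)).2
    have h4 : |x| ^ 4 = x ^ 4 := by
      rw [show (4 : ℕ) = 2 * 2 from rfl, pow_mul, pow_mul, sq_abs]
    rw [h4] at this
    linarith
  have hfour : a ^ 4 + b ^ 4 + c ^ 4 = 9 / 8 := by
    have hc' : c = -(a + b) := by linarith
    have h2 : a ^ 2 + a * b + b ^ 2 = 3 / 4 := by rw [hc'] at hsq; nlinarith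
    have : a ^ 4 + b ^ 4 + c ^ 4 = 2 * (a ^ 2 + a * b + b ^ 2) ^ 2 := by rw [hc']; ring
    rw [this, h2]; norm_num
  have hcos : cos a + cos b + cos c ≤ 9 / 4 + 9 / 8 * (5 / 96) := by
    linarith [cosb a hA, cosb b hB, cosb c hC]
  -- sines
  have hsin : sin a + sin b + sin c = -(4 * sin (a / 2) * sin (b / 2) * sin (c / 2)) := by
    have hc' : c = -(2 * (a / 2 + b / 2)) := by linarith
    have e1 : sin a = 2 * sin (a / 2) * cos (a / 2) := by rw [← sin_two_mul]; ring_nf
    have e2 : sin b = 2 * sin (b / 2) * cos (b / 2) := by rw [← sin_two_mul]; ring_nf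
    have e3 : sin c = -(2 * sin (a / 2 + b / 2) * cos (a / 2 + b / 2)) := by
      rw [hc', sin_neg, sin_two_mul]
    have e4 : sin (c / 2) = - sin (a / 2 + b / 2) := by
      rw [← sin_neg]; congr 1; linarith
    rw [e1, e2, e3, e4, sin_add, cos_add]
    have s1 := sin_sq_add_cos_sq (a / 2)
    have s2 := sin_sq_add_cos_sq (b / 2)
    set sa := sin (a / 2)
    set ca := cos (a / 2)
    set sb := sin (b / 2)
    set cb := cos (b / 2)
    have e5 : ca ^ 2 = 1 - sa ^ 2 := by linarith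
    have e6 : cb ^ 2 = 1 - sb ^ 2 := by linarith
    have : 2 * sa * ca + 2 * sb * cb + -(2 * (sa * cb + ca * sb) * (ca * cb - sa * sb)) =
      2 * sa * ca + 2 * sb * cb - 2 * (sa * ca * cb ^ 2 - sa ^ 2 * sb * cb + ca ^ 2 * sb * cb
        - sa * ca * sb ^ 2) := by ring
    rw [this, e5, e6]
    ring
  have hprod : |(z ^ 3).re| / 8 * (29 / 32) ≤ |sin a + sin b + sin c| := by
    rw [hsin, abs_neg, abs_mul, abs_mul, abs_mul, abs_of_pos (by norm_num : (0 : ℝ) < 4)]
    have l1 := sin_lower (y := a / 2)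
    have l2 := sin_lower (y := b / 2)
    have l3 := sin_lower (y := c / 2)
    have ta : 0 ≤ a ^ 2 / 16 := by positivity
    have sa1 : a ^ 2 ≤ 1 := by rw [← sq_abs]; nlinarith [abs_nonneg a]
    have sb1 : b ^ 2 ≤ 1 := by rw [← sq_abs]; nlinarith [abs_nonneg b]
    have sc1 : c ^ 2 ≤ 1 := by rw [← sq_abs]; nlinarith [abs_nonneg c]
    have m1 : |a| / 2 * (1 - a ^ 2 / 16) ≤ |sin (a / 2)| := by
      refine le_trans ?_ l1
      rw [abs_div, abs_of_pos (by norm_num : (0 : ℝ) < 2)]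
      apply mul_le_mul_of_nonneg_left _ (by positivity)
      nlinarith [sq_nonneg a]
    have m2 : |b| / 2 * (1 - b ^ 2 / 16) ≤ |sin (b / 2)| := by
      refine le_trans ?_ l2
      rw [abs_div, abs_of_pos (by norm_num : (0 : ℝ) < 2)]
      apply mul_le_mul_of_nonneg_left _ (by positivity)
      nlinarith [sq_nonneg b]
    have m3 : |c| / 2 * (1 - c ^ 2 / 16) ≤ |sin (c / 2)| := by
      refine le_trans ?_ l3
      rw [abs_div, abs_of_pos (by norm_num : (0 : ℝ) < 2)]
      apply mul_le_mul_of_nonneg_left _ (by positivity)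
      nlinarith [sq_nonneg c]
    have n1 : 0 ≤ |a| / 2 * (1 - a ^ 2 / 16) := by
      apply mul_nonneg (by positivity); linarith
    have n2 : 0 ≤ |b| / 2 * (1 - b ^ 2 / 16) := by
      apply mul_nonneg (by positivity); linarith
    have n3 : 0 ≤ |c| / 2 * (1 - c ^ 2 / 16) := by
      apply mul_nonneg (by positivity); linarith
    have p1 : (|a| / 2 * (1 - a ^ 2 / 16)) * (|b| / 2 * (1 - b ^ 2 / 16)) ≤
      |sin (a / 2)| * |sin (b / 2)| := mul_le_mul m1 m2 n2 (abs_nonneg _)
    have p2 : (|a| / 2 * (1 - a ^ 2 / 16)) * (|b| / 2 * (1 - b ^ 2 / 16)) *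
        (|c| / 2 * (1 - c ^ 2 / 16)) ≤
      |sin (a / 2)| * |sin (b / 2)| * |sin (c / 2)| :=
      mul_le_mul p1 m3 n3 (by positivity)
    have q1 : |(z ^ 3).re| = 4 * (|a| * |b| * |c|) := by
      rw [← abs_mul, ← abs_mul, hcube, abs_div, abs_of_pos (by norm_num : (0 : ℝ) < 4)]
      ring
    have q2 : (29 / 32 : ℝ) ≤ (1 - a ^ 2 / 16) * (1 - b ^ 2 / 16) * (1 - c ^ 2 / 16) := by
      have y1 : 0 ≤ a ^ 2 := sq_nonneg _
      have y2 : 0 ≤ b ^ 2 := sq_nonneg _
      have y3 : 0 ≤ c ^ 2 := sq_nonneg _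
      have w1 : 1 - (a ^ 2 / 16 + b ^ 2 / 16) ≤ (1 - a ^ 2 / 16) * (1 - b ^ 2 / 16) := by
        nlinarith [mul_nonneg y1 y2]
      have w2 : (1 - (a ^ 2 / 16 + b ^ 2 / 16)) * (1 - c ^ 2 / 16) ≤
          (1 - a ^ 2 / 16) * (1 - b ^ 2 / 16) * (1 - c ^ 2 / 16) :=
        mul_le_mul_of_nonneg_right w1 (by linarith)
      nlinarith [mul_nonneg y1 y3, mul_nonneg y2 y3]
    rw [q1]
    have q3 : 0 ≤ |a| * |b| * |c| := by positivity
    have q4 := mul_le_mul_of_nonneg_left q2 q3
    nlinarith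
  have hRR : ((z ^ 3).re) ^ 2 ≤ |(z ^ 3).re| := by
    rw [← sq_abs]
    nlinarith [abs_nonneg (z ^ 3).re]
  have e0 : u0 z = 13 / 10 * (cos a + cos b + cos c) + 2 * (sin a + sin b + sin c) := by
    rw [u0, kk, kk, kk]; ring
  have e1 : u1 z = 13 / 10 * (cos a + cos b + cos c) - 2 * (sin a + sin b + sin c) := by
    rw [u1, u0, X1_neg, X2_neg, Complex.neg_re, kk, kk, kk, cos_neg, cos_neg, cos_neg, sin_neg,
      sin_neg, sin_neg]; ring
  have hmin : min (u0 z) (u1 z) ≤ 13 / 10 * (cos a + cos b + cos c) -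
      2 * |sin a + sin b + sin c| := by
    rw [e0, e1]
    rcases le_total 0 (sin a + sin b + sin c) with h | h
    · rw [abs_of_nonneg h]
      exact min_le_right _ _
    · rw [abs_of_nonpos h]
      exact (min_le_left _ _).trans (by linarith)
  nlinarith

end Pool.Agent.Y502
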