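import Pool.Agent.Y502.CA

/-! # The Dirichlet problem on a disc -/

set_option autoImplicit false

open Real Metric Set Filter Topology MeasureTheory

namespace Pool.Agent.Y502

/-- The Poisson kernel for discs centred at the origin. -/
noncomputable def K0 (w z : ℂ) : ℝ := (herglotzRieszKernel 0 w z).re

lemma K0_eq {w z : ℂ} : K0 w z = (‖z‖ ^ 2 - ‖w‖ ^ 2) / ‖z - w‖ ^ 2 := by
  have := congrFun (poissonKernel_eq_re_herglotzRieszKernel (c := 0) (w := w)) z
  rw [Function.comp_apply] at this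
  rw [K0, ← this, poissonKernel_def]
  simp

lemma K0_nonneg {w z : ℂ} {R : ℝ} (hw : ‖w‖ < R) (hz : ‖z‖ = R) : 0 ≤ K0 w z := by
  rw [K0_eq]
  apply div_nonneg _ (by positivity)
  rw [hz]
  have : ‖w‖ ^ 2 ≤ R ^ 2 := pow_le_pow_left₀ (norm_nonneg _) hw.le 2
  linarith

lemma K0_contOn {w : ℂ} {R : ℝ} (hw : ‖w‖ < R) : ContinuousOn (K0 w) (sphere 0 |R|) := by
  have h : w ∈ ball (0 : ℂ) R := by simpa using hw
  have := (continuousOn_herglotzRieszKernel_sphere h)
  exact Complex.continuous_re.comp_continuousOn this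

lemma K0_ci {w : ℂ} {R : ℝ} (hw : ‖w‖ < R) {f : ℂ → ℝ} (hf : Continuous f) :
    CircleIntegrable (fun z => K0 w z * f z) 0 R :=
  ((K0_contOn hw).mul hf.continuousOn).circleIntegrable'

/-- The Poisson kernel has average one. -/
lemma K0_avg {w : ℂ} {R : ℝ} (hw : ‖w‖ < R) (a : ℝ) :
    circleAverage (fun z => K0 w z * a) 0 R = a := by
  have h : w ∈ ball (0 : ℂ) R := by simpa using hw
  have h1 : InnerProductSpace.HarmonicContOnCl (fun _ : ℂ => a) (ball 0 R) :=
    InnerProductSpace.harmonicContOnCl_const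
  exact h1.circleAverage_re_herglotzRieszKernel_smul h

/-- Poisson modification of `f` on the disc `|w| < R`. -/
noncomputable def PM0 (f : ℂ → ℝ) (R : ℝ) (w : ℂ) : ℝ :=
  if ‖w‖ < R then circleAverage (fun z => K0 w z * f z) 0 R else f w

lemma PM0_in {f : ℂ → ℝ} {R : ℝ} {w : ℂ} (hw : ‖w‖ < R) :
    PM0 f R w = circleAverage (fun z => K0 w z * f z) 0 R := by
  rw [PM0, if_pos hw]

lemma PM0_out {f : ℂ → ℝ} {R : ℝ} {w : ℂ} (hw : R ≤ ‖w‖) : PM0 f R w = f w := by
  rw [PM0, if_neg (not_lt.2 hw)]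

/-- The analytic function whose real part is the Poisson integral. -/
noncomputable def HH (f : ℂ → ℝ) (R : ℝ) (w : ℂ) : ℂ :=
  circleAverage (fun ζ => herglotzRieszKernel 0 w ζ • (f ζ : ℂ)) 0 R

lemma HH_re {f : ℂ → ℝ} (hf : Continuous f) {R : ℝ} {w : ℂ} (hw : ‖w‖ < R) :
    (HH f R w).re = PM0 f R w := by
  rw [PM0_in hw, HH]
  have h : w ∈ ball (0 : ℂ) R := by simpa using hw
  have := re_circleAverage_herglotzRieszKernel_smul (ci hf 0 R) h
  rw [this]
  rfl

lemma HH_an {f : ℂ → ℝ} (hf : Continuous f) (R : ℝ) :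
    AnalyticOnNhd ℂ (HH f R) (ball 0 R) := by
  have h : CircleIntegrable (fun ζ => (f ζ : ℂ)) 0 R :=
    (Complex.continuous_ofReal.comp hf).continuousOn.circleIntegrable'
  exact analyticOnNhd_circleAverage_herglotzRieszKernel_smul h

/-- The mean value property inside the disc. -/
lemma PM0_mean {f : ℂ → ℝ} (hf : Continuous f) {R r : ℝ} {w : ℂ} (hr : 0 < r)
    (h : ‖w‖ + r < R) : circleAverage (PM0 f R) w r = PM0 f R w := by
  have hsub : closedBall w r ⊆ ball (0 : ℂ) R := by
    intro x hx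
    rw [mem_closedBall, dist_eq_norm] at hx
    rw [mem_ball_zero_iff]
    calc ‖x‖ = ‖w + (x - w)‖ := by ring_nf
      _ ≤ ‖w‖ + ‖x - w‖ := norm_add_le _ _
      _ < R := by linarith
  have hw : ‖w‖ < R := by linarith
  have hA := HH_an hf R
  have h1 : DiffContOnCl ℂ (HH f R) (ball w |r|) := by
    rw [abs_of_pos hr]
    apply DifferentiableOn.diffContOnCl
    rw [closure_ball w hr.ne']
    exact (hA.mono hsub).differentiableOn
  have h2 := h1.circleAverage
  have h3 : CircleIntegrable (HH f R) w r := by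
    apply ContinuousOn.circleIntegrable'
    rw [abs_of_pos hr]
    exact (hA.continuousOn.mono hsub).mono sphere_subset_closedBall
  have h4 := Complex.reCLM.circleAverage_comp_comm h3
  rw [h2] at h4
  rw [← HH_re hf hw]
  have h5 : circleAverage (PM0 f R) w r = circleAverage (Complex.reCLM ∘ HH f R) w r := by
    apply circleAverage_congr_sphere
    intro x hx
    rw [abs_of_pos hr] at hx
    have : ‖x‖ < R := by
      have := hsub (sphere_subset_closedBall hx)
      simpa using this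
    rw [Function.comp_apply, Complex.reCLM_apply, HH_re hf this]
  rw [h5, h4]
  rfl

lemma PM0_center {f : ℂ → ℝ} {R : ℝ} (hR : 0 < R) : PM0 f R 0 = circleAverage f 0 R := by
  rw [PM0_in (by simpa using hR)]
  apply circleAverage_congr_sphere
  intro z hz
  have : ‖z‖ = R := by
    rw [mem_sphere, dist_zero_right, abs_of_pos hR] at hz
    exact hz
  simp only [K0_eq, norm_zero, sub_zero]
  rw [this]
  have : R ≠ 0 := hR.ne'
  field_simp
  ring

lemma PM0_mono {f g : ℂ → ℝ} (hf : Continuous f) (hg : Continuous g) {R : ℝ}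
    (h : ∀ z, f z ≤ g z) (w : ℂ) : PM0 f R w ≤ PM0 g R w := by
  by_cases hw : ‖w‖ < R
  · rw [PM0_in hw, PM0_in hw]
    apply circleAverage_mono (K0_ci hw hf) (K0_ci hw hg)
    intro z hz
    have hR : 0 < R := lt_of_le_of_lt (norm_nonneg _) hw
    rw [mem_sphere, dist_zero_right, abs_of_pos hR] at hz
    exact mul_le_mul_of_nonneg_left (h z) (K0_nonneg hw hz)
  · rw [PM0_out (not_lt.1 hw), PM0_out (not_lt.1 hw)]
    exact h w

lemma PM0_le {f : ℂ → ℝ} (hf : Continuous f) {R : ℝ} {M : ℝ}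
    (h : ∀ z, ‖z‖ = R → f z ≤ M) {w : ℂ} (hw : ‖w‖ < R) : PM0 f R w ≤ M := by
  rw [PM0_in hw, ← K0_avg hw M]
  apply circleAverage_mono (K0_ci hw hf) (K0_ci hw continuous_const)
  intro z hz
  have hR : 0 < R := lt_of_le_of_lt (norm_nonneg _) hw
  rw [mem_sphere, dist_zero_right, abs_of_pos hR] at hz
  exact mul_le_mul_of_nonneg_left (h z hz) (K0_nonneg hw hz)

lemma PM0_sub_abs {f : ℂ → ℝ} (hf : Continuous f) {R : ℝ} {w : ℂ} (hw : ‖w‖ < R) (a : ℝ)
    {e M δ : ℝ} (hδ : 0 < δ) (he : 0 ≤ e) (hM : 0 ≤ M) {ζ : ℂ}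
    (h1 : ∀ z, ‖z‖ = R → ‖z - ζ‖ < δ → |f z - a| ≤ e)
    (h2 : ∀ z, ‖z‖ = R → |f z - a| ≤ M) (h3 : ‖w - ζ‖ < δ / 2) :
    |PM0 f R w - a| ≤ e + M * ((R ^ 2 - ‖w‖ ^ 2) * (4 / δ ^ 2)) := by
  have hR : 0 < R := lt_of_le_of_lt (norm_nonneg _) hw
  have hpos : 0 ≤ R ^ 2 - ‖w‖ ^ 2 := by
    have : ‖w‖ ^ 2 ≤ R ^ 2 := pow_le_pow_left₀ (norm_nonneg _) hw.le 2
    linarith
  have e1 : PM0 f R w - a = circleAverage (fun z => K0 w z * (f z - a)) 0 R := by
    rw [PM0_in hw]
    nth_rewrite 1 [← K0_avg hw a]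
    rw [← circleAverage_fun_sub (K0_ci hw hf) (K0_ci hw continuous_const)]
    congr 1
    ext z
    ring
  have key : ∀ z, ‖z‖ = R → K0 w z * |f z - a| ≤
      K0 w z * e + M * ((R ^ 2 - ‖w‖ ^ 2) * (4 / δ ^ 2)) := by
    intro z hz
    have hK := K0_nonneg hw hz
    by_cases hzd : ‖z - ζ‖ < δ
    · have := mul_le_mul_of_nonneg_left (h1 z hz hzd) hK
      have : 0 ≤ M * ((R ^ 2 - ‖w‖ ^ 2) * (4 / δ ^ 2)) := by positivity
      linarith
    · have hzw : δ / 2 ≤ ‖z - w‖ := by
        have : ‖z - ζ‖ ≤ ‖z - w‖ + ‖w - ζ‖ := by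
          have := norm_add_le (z - w) (w - ζ)
          rwa [sub_add_sub_cancel] at this
        linarith [not_lt.1 hzd]
      have hKle : K0 w z ≤ (R ^ 2 - ‖w‖ ^ 2) * (4 / δ ^ 2) := by
        rw [K0_eq, hz, div_eq_mul_inv]
        apply mul_le_mul_of_nonneg_left _ hpos
        have h4 : (δ / 2) ^ 2 ≤ ‖z - w‖ ^ 2 := pow_le_pow_left₀ (by positivity) hzw 2
        have h5 : 0 < (δ / 2) ^ 2 := by positivity
        calc (‖z - w‖ ^ 2)⁻¹ ≤ ((δ / 2) ^ 2)⁻¹ := inv_anti₀ h5 h4
          _ = 4 / δ ^ 2 := by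
            field_simp
            norm_num
      calc K0 w z * |f z - a| ≤ ((R ^ 2 - ‖w‖ ^ 2) * (4 / δ ^ 2)) * M :=
            mul_le_mul hKle (h2 z hz) (abs_nonneg _) (by positivity)
        _ ≤ _ := by
            have := mul_nonneg hK he
            linarith
  rw [e1]
  have hint : CircleIntegrable (fun z => K0 w z * (f z - a)) 0 R := K0_ci hw (by fun_prop)
  have hint2 : CircleIntegrable
      (fun z => K0 w z * e + M * ((R ^ 2 - ‖w‖ ^ 2) * (4 / δ ^ 2))) 0 R :=
    (((K0_contOn hw).mul continuousOn_const).add continuousOn_const).circleIntegrable'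
  have hval : circleAverage (fun z => K0 w z * e + M * ((R ^ 2 - ‖w‖ ^ 2) * (4 / δ ^ 2))) 0 R =
      e + M * ((R ^ 2 - ‖w‖ ^ 2) * (4 / δ ^ 2)) := by
    rw [circleAverage_fun_add (K0_ci hw continuous_const) (ci continuous_const _ _), K0_avg hw,
      ca_const]
  rw [abs_le]
  constructor
  · have hneg : CircleIntegrable
        (fun z => -(K0 w z * e + M * ((R ^ 2 - ‖w‖ ^ 2) * (4 / δ ^ 2)))) 0 R := by
      have := (((K0_contOn hw).mul continuousOn_const).add continuousOn_const).neg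
        (f := fun z => K0 w z * e + M * ((R ^ 2 - ‖w‖ ^ 2) * (4 / δ ^ 2)))
      exact this.circleIntegrable'
    have := circleAverage_mono hneg hint (by
      intro z hz
      rw [mem_sphere, dist_zero_right, abs_of_pos hR] at hz
      have h6 := key z hz
      have h7 : -(K0 w z * |f z - a|) ≤ K0 w z * (f z - a) := by
        rw [← mul_neg]
        exact mul_le_mul_of_nonneg_left (neg_abs_le _) (K0_nonneg hw hz)
      linarith)
    rw [ca_neg, hval] at this
    exact this
  · have := circleAverage_mono hint hint2 (by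
      intro z hz
      rw [mem_sphere, dist_zero_right, abs_of_pos hR] at hz
      have h6 := key z hz
      have h7 : K0 w z * (f z - a) ≤ K0 w z * |f z - a| :=
        mul_le_mul_of_nonneg_left (le_abs_self _) (K0_nonneg hw hz)
      linarith)
    rw [hval] at this
    exact this

/-- The Poisson modification of a continuous function is continuous. -/
lemma PM0_cont {f : ℂ → ℝ} (hf : Continuous f) {R : ℝ} (hR : 0 < R) : Continuous (PM0 f R) := by
  rw [continuous_iff_continuousAt]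
  intro w
  rcases lt_trichotomy ‖w‖ R with hw | hw | hw
  · have h1 : ContinuousAt (fun w => (HH f R w).re) w := by
      have := (HH_an hf R) w (by simpa using hw)
      exact Complex.continuous_re.continuousAt.comp this.continuousAt
    apply h1.congr
    have : ∀ᶠ x in 𝓝 w, ‖x‖ < R := (continuous_norm.tendsto w).eventually (gt_mem_nhds hw)
    filter_upwards [this] with x hx
    exact HH_re hf hx
  · -- boundary
    rw [Metric.continuousAt_iff]
    intro ε hε
    rw [PM0_out hw.ge]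
    obtain ⟨δ, hδ, hδf⟩ := Metric.continuousAt_iff.1 (hf.continuousAt (x := w)) (ε / 2)
      (by positivity)
    obtain ⟨M, hM⟩ : ∃ M, ∀ z, ‖z‖ = R → |f z - f w| ≤ M := by
      obtain ⟨M, hM⟩ := (isCompact_sphere (0 : ℂ) R).exists_bound_of_continuousOn
        (f := fun z => f z - f w) (by fun_prop)
      exact ⟨M, fun z hz => hM z (by simpa using hz)⟩
    have hM0 : 0 ≤ M := le_trans (abs_nonneg _) (hM w hw)
    have hcont : ContinuousAt (fun x : ℂ => M * ((R ^ 2 - ‖x‖ ^ 2) * (4 / δ ^ 2))) w := by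
      fun_prop
    have h0 : M * ((R ^ 2 - ‖w‖ ^ 2) * (4 / δ ^ 2)) = 0 := by rw [hw]; ring
    obtain ⟨δ', hδ', hδ'f⟩ := Metric.continuousAt_iff.1 hcont (ε / 4) (by positivity)
    refine ⟨min (δ / 2) δ', by positivity, ?_⟩
    intro x hx
    by_cases hxR : ‖x‖ < R
    · have h1 := PM0_sub_abs hf hxR (f w) (e := ε / 2) (M := M) (δ := δ) (ζ := w) hδ
        (by positivity) hM0
        (fun z _ hz2 => by
          have := hδf (x := z) (by rwa [dist_eq_norm])
          rw [Real.dist_eq] at this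
          exact this.le) hM
        (by
          rw [← dist_eq_norm]
          exact lt_of_lt_of_le hx (min_le_left _ _))
      have h2 := hδ'f (x := x) (lt_of_lt_of_le hx (min_le_right _ _))
      rw [h0, Real.dist_eq, sub_zero] at h2
      rw [Real.dist_eq]
      have := le_abs_self (M * ((R ^ 2 - ‖x‖ ^ 2) * (4 / δ ^ 2)))
      linarith
    · rw [PM0_out (not_lt.1 hxR)]
      have := hδf (x := x) (by
        have := lt_of_lt_of_le hx (min_le_left _ _)
        linarith)
      linarith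
  · apply (hf.continuousAt (x := w)).congr
    have : ∀ᶠ x in 𝓝 w, R < ‖x‖ := (continuous_norm.tendsto w).eventually (lt_mem_nhds hw)
    filter_upwards [this] with x hx
    rw [PM0_out hx.le]

end Pool.Agent.Y502
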