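import Pool.Agent.Y502.MAzero

/-! # The geodesic is plurisubharmonic -/

set_option autoImplicit false

open Real Metric Set Filter Topology MeasureTheory
open scoped ContDiff ENNReal

namespace Pool.Agent.Y502

/-- Continuous plurisubharmonic functions on an open subset `Ω` of `ℂ × ℂ`. -/
def PSHc (Ω : Set (ℂ × ℂ)) (u : ℂ × ℂ → ℝ) : Prop :=
  ContinuousOn u Ω ∧ ∀ p d : ℂ × ℂ, (∀ ζ : ℂ, ‖ζ‖ ≤ 1 → p + ζ • d ∈ Ω) →
    u p ≤ circleAverage (fun ζ => u (p + ζ • d)) 0 1

lemma ca_affine (f : ℂ → ℝ) (p d : ℂ) :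
    circleAverage (fun ζ => f (p + ζ * d)) 0 1 = circleAverage f p ‖d‖ := by
  conv_rhs => rw [circleAverage_eq_integral_add d.arg]
  rw [circleAverage_def]
  congr 2
  ext θ
  congr 1
  have := Complex.norm_mul_exp_arg_mul_I d
  simp only [circleMap]
  nth_rewrite 1 [← this]
  push_cast
  rw [add_mul (θ : ℂ) (d.arg : ℂ), Complex.exp_add]
  ring

lemma ca_log {p : ℂ} {r : ℝ} (hr : 0 ≤ r) (h : ∀ z ∈ closedBall p r, z ≠ 0) :
    circleAverage (fun z : ℂ => Real.log ‖z‖) p r = Real.log ‖p‖ := by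
  have h1 : InnerProductSpace.HarmonicOnNhd (fun z : ℂ => Real.log ‖z‖) (closedBall p |r|) := by
    intro z hz
    rw [abs_of_nonneg hr] at hz
    exact AnalyticAt.harmonicAt_log_norm (f := fun z => z) analyticAt_id (h z hz)
  exact h1.circleAverage_eq

lemma cont_uu_on {a b lam c : ℝ} (ha : 0 < a) :
    ContinuousOn (uu lam c) {p : ℂ × ℂ | a < ‖p.2‖ ∧ ‖p.2‖ < b} := by
  have h1 := el_cont (lam := lam) (c := c) (a := a) (b := b) ha
  have h2 : ContinuousOn (fun p : ℂ × ℂ => (p.1, el lam c p.2))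
      {p : ℂ × ℂ | a < ‖p.2‖ ∧ ‖p.2‖ < b} := continuousOn_fst.prodMk h1
  have h3 : ContinuousOn (fun p : ℂ × ℂ => phi (el lam c p.2) p.1)
      {p : ℂ × ℂ | a < ‖p.2‖ ∧ ‖p.2‖ < b} := phi_cont.comp_continuousOn h2
  have h4 : ContinuousOn (fun p : ℂ × ℂ => ‖p.1‖ ^ 2)
      {p : ℂ × ℂ | a < ‖p.2‖ ∧ ‖p.2‖ < b} := by fun_prop
  exact h4.add h3

theorem PSHc_uu {a b lam c : ℝ} (ha : 0 < a) :
    PSHc {p | a < ‖p.2‖ ∧ ‖p.2‖ < b} (uu lam c) := by
  refine ⟨cont_uu_on ha, ?_⟩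
  intro p d hd
  have hne : ∀ ζ : ℂ, ‖ζ‖ ≤ 1 → p.2 + ζ * d.2 ≠ 0 := by
    intro ζ hζ h
    have := (hd ζ hζ).1
    simp only [Prod.snd_add, Prod.smul_snd, smul_eq_mul, h, norm_zero] at this
    linarith
  -- the logarithm
  have hlog : circleAverage (fun ζ => el lam c (p.2 + ζ * d.2)) 0 1 = el lam c p.2 := by
    have e1 : circleAverage (fun ζ => el lam c (p.2 + ζ * d.2)) 0 1 =
        circleAverage (el lam c) p.2 ‖d.2‖ := ca_affine (el lam c) p.2 d.2
    have hball : ∀ z ∈ closedBall p.2 ‖d.2‖, z ≠ 0 := by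
      intro z hz
      by_cases hd0 : d.2 = 0
      · rw [hd0, norm_zero, closedBall_zero, mem_singleton_iff] at hz
        have := hne 0 (by simp)
        rw [zero_mul, add_zero] at this
        rwa [hz]
      · have h2 := hne ((z - p.2) / d.2) (by
          rw [norm_div, div_le_one (norm_pos_iff.2 hd0)]
          rw [mem_closedBall, dist_eq_norm] at hz
          exact hz)
        rw [div_mul_cancel₀ _ hd0, add_sub_cancel] at h2
        exact h2
    have hci : CircleIntegrable (fun z : ℂ => Real.log ‖z‖) p.2 ‖d.2‖ := by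
      apply ContinuousOn.circleIntegrable'
      rw [abs_of_nonneg (norm_nonneg _)]
      intro z hz
      exact (cd_lognorm (n := 0) (hball z (sphere_subset_closedBall hz))).continuousAt.continuousWithinAt
    have e2 : circleAverage (el lam c) p.2 ‖d.2‖ = lam * Real.log ‖p.2‖ + c := by
      have e3 : el lam c = fun z => lam * Real.log ‖z‖ + c := rfl
      have hci2 : CircleIntegrable (fun z : ℂ => lam * Real.log ‖z‖) p.2 ‖d.2‖ := by
        have := hci.const_smul (a := lam)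
        exact this
      rw [e3, circleAverage_fun_add hci2 (ci continuous_const _ _), ca_mul,
        ca_log (norm_nonneg _) hball, ca_const]
    rw [e1, e2]
    rfl
  -- continuity on the circle
  have hcel : ContinuousOn (fun ζ : ℂ => el lam c (p.2 + ζ * d.2)) (sphere 0 |1|) := by
    intro ζ hζ
    have hζ1 : ‖ζ‖ ≤ 1 := by
      rw [mem_sphere, dist_zero_right, abs_one] at hζ
      exact hζ.le
    have h1 : ContinuousAt (el lam c) (p.2 + ζ * d.2) := (cd_el (m := 0) lam c (hne ζ hζ1)).continuousAt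
    exact (ContinuousAt.comp (f := fun ζ : ℂ => p.2 + ζ * d.2) h1
      (by fun_prop)).continuousWithinAt
  have hcuu : ContinuousOn (fun ζ : ℂ => uu lam c (p + ζ • d)) (sphere 0 |1|) := by
    have h1 := cont_uu_on (a := a) (b := b) (lam := lam) (c := c) ha
    apply h1.comp (by fun_prop)
    intro ζ hζ
    rw [mem_sphere, dist_zero_right, abs_one] at hζ
    exact hd ζ hζ.le
  have hI := hcuu.circleIntegrable'
  have key : ∀ τ ∈ Icc (-20 : ℝ) 20, psi τ p.1 + τ * el lam c p.2 ≤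
      circleAverage (fun ζ => uu lam c (p + ζ • d)) 0 1 - ‖p.1‖ ^ 2 := by
    intro τ hτ
    have c1 := psi_cont τ
    have hF : QS 0 (fun z => ‖z‖ ^ 2 + psi τ z) := (QS_one_iff c1).1 (psi_QS τ)
    have h1 : ‖p.1‖ ^ 2 + psi τ p.1 ≤
        circleAverage (fun ζ => ‖p.1 + ζ * d.1‖ ^ 2 + psi τ (p.1 + ζ * d.1)) 0 1 := by
      have e1 := ca_affine (fun z => ‖z‖ ^ 2 + psi τ z) p.1 d.1
      rw [e1]
      rcases (norm_nonneg d.1).eq_or_lt with h | h
      · rw [← h, ca_zero]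
      · have := hF p.1 ‖d.1‖ h
        linarith
    have c2 : Continuous fun ζ : ℂ => ‖p.1 + ζ * d.1‖ ^ 2 + psi τ (p.1 + ζ * d.1) := by fun_prop
    have hci3 : CircleIntegrable (fun ζ => τ * el lam c (p.2 + ζ * d.2)) 0 1 :=
      (continuousOn_const.mul hcel).circleIntegrable'
    have hci4 : CircleIntegrable (fun ζ => (‖p.1 + ζ * d.1‖ ^ 2 + psi τ (p.1 + ζ * d.1)) +
        τ * el lam c (p.2 + ζ * d.2)) 0 1 :=
      (c2.continuousOn.add (continuousOn_const.mul hcel)).circleIntegrable'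
    have h2 : ‖p.1‖ ^ 2 + psi τ p.1 + τ * el lam c p.2 ≤
        circleAverage (fun ζ => (‖p.1 + ζ * d.1‖ ^ 2 + psi τ (p.1 + ζ * d.1)) +
        τ * el lam c (p.2 + ζ * d.2)) 0 1 := by
      rw [circleAverage_fun_add (ci c2 0 1) hci3, ca_mul, hlog]
      linarith
    have h3 : circleAverage (fun ζ => (‖p.1 + ζ * d.1‖ ^ 2 + psi τ (p.1 + ζ * d.1)) +
        τ * el lam c (p.2 + ζ * d.2)) 0 1 ≤ circleAverage (fun ζ => uu lam c (p + ζ • d)) 0 1 := by
      apply circleAverage_mono hci4 hI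
      intro ζ _
      have := le_phi (t := el lam c (p.2 + ζ * d.2)) hτ (p.1 + ζ * d.1)
      simp only [uu, Prod.fst_add, Prod.snd_add, Prod.smul_fst, Prod.smul_snd, smul_eq_mul]
      linarith
    linarith
  have := phi_le key
  rw [uu]
  linarith

end Pool.Agent.Y502
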