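import Pool.Agent.Y502.Obs

/-! # Harmonic functions with a three-fold symmetry are constant up to third order -/

set_option autoImplicit false

open Real Metric Set Filter Topology MeasureTheory

namespace Pool.Agent.Y502

lemma om_cube : om ^ 3 = 1 := by
  have : om ^ 3 - 1 = (om - 1) * (1 + om + om ^ 2) := by ring
  rw [om_sum, mul_zero, sub_eq_zero] at this
  exact this

lemma three_identity' {z ζ a b : ℂ} (h0 : ζ - z ≠ 0) (h1 : ζ - a ≠ 0)
    (h2 : ζ - b ≠ 0) (e1 : z + a + b = 0) (e2 : z * a + z * b + a * b = 0)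
    (e3 : z * a * b = z ^ 3) :
    (ζ + z) / (ζ - z) + (ζ + a) / (ζ - a) + (ζ + b) / (ζ - b) =
      3 * ((ζ ^ 3 + z ^ 3) / (ζ ^ 3 - z ^ 3)) := by
  have hp : (ζ - z) * (ζ - a) * (ζ - b) = ζ ^ 3 - z ^ 3 := by
    linear_combination (-ζ ^ 2) * e1 + ζ * e2 - e3
  have hne : (ζ - z) * (ζ - a) * (ζ - b) ≠ 0 := mul_ne_zero (mul_ne_zero h0 h1) h2
  have hq : (ζ + z) * (ζ - a) * (ζ - b) + (ζ + a) * (ζ - z) * (ζ - b) +
      (ζ + b) * (ζ - z) * (ζ - a) = 3 * (ζ ^ 3 + z ^ 3) := by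
    linear_combination (-ζ ^ 2) * e1 - ζ * e2 + 3 * e3
  rw [← hp, ← mul_div_assoc, ← hq]
  field_simp

lemma three_identity {z ζ : ℂ} (h0 : ζ - z ≠ 0) (h1 : ζ - om * z ≠ 0)
    (h2 : ζ - om * (om * z) ≠ 0) :
    (ζ + z) / (ζ - z) + (ζ + om * z) / (ζ - om * z) + (ζ + om * (om * z)) / (ζ - om * (om * z)) =
      3 * ((ζ ^ 3 + z ^ 3) / (ζ ^ 3 - z ^ 3)) := by
  apply three_identity' h0 h1 h2
  · have : z + om * z + om * (om * z) = (1 + om + om ^ 2) * z := by ring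
    rw [this, om_sum, zero_mul]
  · have : z * (om * z) + z * (om * (om * z)) + om * z * (om * (om * z)) =
      om * (1 + om + om ^ 2) * z ^ 2 := by ring
    rw [this, om_sum]; ring
  · have : z * (om * z) * (om * (om * z)) = om ^ 3 * z ^ 3 := by ring
    rw [this, om_cube, one_mul]

/-- A function which is its own Poisson modification and has a three-fold symmetry. -/
lemma three_bound {f : ℂ → ℝ} (hf : Continuous f) (hs : ∀ z, f (om * z) = f z) {R B : ℝ}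
    (hR : 0 < R) (hB : ∀ z, ‖z‖ = R → |f z| ≤ B) (hP : ∀ z, PM0 f R z = f z) {z : ℂ}
    (hz : ‖z‖ ≤ R / 2) : |f z - f 0| ≤ 3 * B * (‖z‖ / R) ^ 3 := by
  have hzR : ‖z‖ < R := by linarith
  have hn1 : ‖om * z‖ < R := by rw [norm_mul, om_norm, one_mul]; exact hzR
  have hn2 : ‖om * (om * z)‖ < R := by rw [norm_mul, om_norm, one_mul]; exact hn1
  have hB0 : 0 ≤ B := by
    have := hB (R : ℂ) (by simp [abs_of_pos hR])
    exact le_trans (abs_nonneg _) this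
  have E0 : circleAverage (fun ζ => K0 z ζ * f ζ) 0 R = f z := by
    rw [← PM0_in hzR, hP]
  have E1 : circleAverage (fun ζ => K0 (om * z) ζ * f ζ) 0 R = f z := by
    rw [← PM0_in hn1, hP, hs]
  have E2 : circleAverage (fun ζ => K0 (om * (om * z)) ζ * f ζ) 0 R = f z := by
    rw [← PM0_in hn2, hP, hs, hs]
  have E3 : circleAverage f 0 R = f 0 := by
    rw [← PM0_center hR, hP]
  have I0 := K0_ci hzR hf
  have I1 := K0_ci hn1 hf
  have I2 := K0_ci hn2 hf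
  have I3 := ci hf 0 R
  have I01 : CircleIntegrable (fun ζ => K0 z ζ * f ζ + K0 (om * z) ζ * f ζ) 0 R :=
    (((K0_contOn hzR).mul hf.continuousOn).add ((K0_contOn hn1).mul hf.continuousOn)).circleIntegrable'
  have I012 : CircleIntegrable (fun ζ => K0 z ζ * f ζ + K0 (om * z) ζ * f ζ
      + K0 (om * (om * z)) ζ * f ζ) 0 R :=
    ((((K0_contOn hzR).mul hf.continuousOn).add ((K0_contOn hn1).mul hf.continuousOn)).add
      ((K0_contOn hn2).mul hf.continuousOn)).circleIntegrable'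
  have I3' : CircleIntegrable (fun ζ => 3 * f ζ) 0 R := ci (by fun_prop) 0 R
  have E4 : circleAverage (fun ζ => (K0 z ζ * f ζ + K0 (om * z) ζ * f ζ
      + K0 (om * (om * z)) ζ * f ζ) - 3 * f ζ) 0 R = 3 * (f z - f 0) := by
    rw [circleAverage_fun_sub I012 I3', circleAverage_fun_add I01 I2, circleAverage_fun_add I0 I1,
      ca_mul, E0, E1, E2, E3]
    ring
  have key : ∀ ζ ∈ sphere (0 : ℂ) |R|, |(K0 z ζ * f ζ + K0 (om * z) ζ * f ζ
      + K0 (om * (om * z)) ζ * f ζ) - 3 * f ζ| ≤ 9 * B * (‖z‖ / R) ^ 3 := by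
    intro ζ hζ
    rw [mem_sphere, dist_zero_right, abs_of_pos hR] at hζ
    have d0 : ζ - z ≠ 0 := by
      intro h; rw [sub_eq_zero] at h; rw [h] at hζ; linarith
    have d1 : ζ - om * z ≠ 0 := by
      intro h; rw [sub_eq_zero] at h; rw [h] at hζ; linarith
    have d2 : ζ - om * (om * z) ≠ 0 := by
      intro h; rw [sub_eq_zero] at h; rw [h] at hζ; linarith
    have hζ0 : ζ ≠ 0 := by
      intro h; rw [h, norm_zero] at hζ; linarith
    have hid := three_identity d0 d1 d2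
    have kdef : ∀ w, K0 w ζ = ((ζ + w) / (ζ - w)).re := by
      intro w
      rw [K0, herglotzRieszKernel_def]
      simp
    have hsum : K0 z ζ + K0 (om * z) ζ + K0 (om * (om * z)) ζ =
        3 * ((ζ ^ 3 + z ^ 3) / (ζ ^ 3 - z ^ 3)).re := by
      rw [kdef, kdef, kdef, ← Complex.add_re, ← Complex.add_re, hid]
      simp
    have hx : ‖z ^ 3‖ ≤ R ^ 3 / 8 := by
      rw [norm_pow]
      have := pow_le_pow_left₀ (norm_nonneg z) hz 3
      calc ‖z‖ ^ 3 ≤ (R / 2) ^ 3 := this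
        _ = R ^ 3 / 8 := by ring
    have hR3 : 0 < R ^ 3 := by positivity
    have hden : 7 / 8 * R ^ 3 ≤ ‖ζ ^ 3 - z ^ 3‖ := by
      have h1 := norm_sub_norm_le (ζ ^ 3) (z ^ 3)
      rw [norm_pow ζ, hζ] at h1
      linarith
    have hne : ζ ^ 3 - z ^ 3 ≠ 0 := by
      intro h; rw [h, norm_zero] at hden; linarith
    have hdiff : (ζ ^ 3 + z ^ 3) / (ζ ^ 3 - z ^ 3) - 1 = 2 * z ^ 3 / (ζ ^ 3 - z ^ 3) := by
      field_simp
      ring
    have hre : |((ζ ^ 3 + z ^ 3) / (ζ ^ 3 - z ^ 3)).re - 1| ≤ 3 * (‖z‖ / R) ^ 3 := by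
      have h1 : ((ζ ^ 3 + z ^ 3) / (ζ ^ 3 - z ^ 3)).re - 1 =
          ((ζ ^ 3 + z ^ 3) / (ζ ^ 3 - z ^ 3) - 1).re := by simp
      rw [h1, hdiff]
      refine (Complex.abs_re_le_norm _).trans ?_
      rw [norm_div, norm_mul, norm_pow, div_le_iff₀ (by linarith)]
      have h2 : ‖(2 : ℂ)‖ = 2 := by norm_num
      rw [h2, div_pow]
      have h3 : ‖z‖ ^ 3 / R ^ 3 * R ^ 3 = ‖z‖ ^ 3 := by field_simp
      have h4 : 0 ≤ ‖z‖ ^ 3 / R ^ 3 := by positivity
      calc 2 * ‖z‖ ^ 3 ≤ 3 * (7 / 8) * ‖z‖ ^ 3 := by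
            have : 0 ≤ ‖z‖ ^ 3 := by positivity
            linarith
        _ = 3 * (‖z‖ ^ 3 / R ^ 3) * (7 / 8 * R ^ 3) := by field_simp
        _ ≤ 3 * (‖z‖ ^ 3 / R ^ 3) * ‖ζ ^ 3 - z ^ 3‖ :=
            mul_le_mul_of_nonneg_left hden (by positivity)
    have hfin : (K0 z ζ * f ζ + K0 (om * z) ζ * f ζ + K0 (om * (om * z)) ζ * f ζ) - 3 * f ζ =
        3 * (((ζ ^ 3 + z ^ 3) / (ζ ^ 3 - z ^ 3)).re - 1) * f ζ := by
      linear_combination (f ζ) * hsum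
    rw [hfin, abs_mul, abs_mul, abs_of_pos (by norm_num : (0 : ℝ) < 3)]
    calc 3 * |((ζ ^ 3 + z ^ 3) / (ζ ^ 3 - z ^ 3)).re - 1| * |f ζ|
        ≤ 3 * (3 * (‖z‖ / R) ^ 3) * B := by
          apply mul_le_mul _ (hB ζ hζ) (abs_nonneg _) (by positivity)
          exact mul_le_mul_of_nonneg_left hre (by norm_num)
      _ = 9 * B * (‖z‖ / R) ^ 3 := by ring
  have I4 : CircleIntegrable (fun ζ => (K0 z ζ * f ζ + K0 (om * z) ζ * f ζ
      + K0 (om * (om * z)) ζ * f ζ) - 3 * f ζ) 0 R := I012.sub I3'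
  have up : circleAverage (fun ζ => (K0 z ζ * f ζ + K0 (om * z) ζ * f ζ
      + K0 (om * (om * z)) ζ * f ζ) - 3 * f ζ) 0 R ≤ 9 * B * (‖z‖ / R) ^ 3 :=
    circleAverage_mono_on_of_le_circle I4 fun ζ hζ => (abs_le.1 (key ζ hζ)).2
  have lo : -(9 * B * (‖z‖ / R) ^ 3) ≤ circleAverage (fun ζ => (K0 z ζ * f ζ + K0 (om * z) ζ * f ζ
      + K0 (om * (om * z)) ζ * f ζ) - 3 * f ζ) 0 R := by
    have := circleAverage_mono (ci (continuous_const (y := -(9 * B * (‖z‖ / R) ^ 3))) 0 R) I4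
      fun ζ hζ => (abs_le.1 (key ζ hζ)).1
    rwa [ca_const] at this
  rw [E4] at up lo
  rw [abs_le]
  constructor <;> linarith

end Pool.Agent.Y502
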