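import Pool.Agent.Y502.Obs2
import Pool.Agent.Y502.Three

/-! # The family of envelopes `ψ_τ` -/

set_option autoImplicit false

open Real Metric Set Filter Topology MeasureTheory

namespace Pool.Agent.Y502

/-- The obstacle `min (u0, u1 - τ)`. -/
noncomputable def obs (τ : ℝ) (z : ℂ) : ℝ := min (u0 z) (u1 z - τ)

/-- The envelope `ψ_τ`. -/
noncomputable def psi (τ : ℝ) : ℂ → ℝ := env (obs τ)

lemma abs_min_sub_min (a b c d e : ℝ) (h1 : |a - c| ≤ e) (h2 : |b - d| ≤ e) :
    |min a b - min c d| ≤ e := by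
  have := abs_le.1 h1
  have := abs_le.1 h2
  rw [abs_le]
  constructor
  · rcases min_cases a b with h | h <;> rcases min_cases c d with h' | h' <;> linarith
  · rcases min_cases a b with h | h <;> rcases min_cases c d with h' | h' <;> linarith

lemma obs_ob (τ : ℝ) : Ob (10 + |τ|) 10 (obs τ) := by
  constructor
  · intro z
    rw [obs]
    have h1 := abs_le.1 (u0_bd z)
    have h2 := abs_le.1 (u1_bd z)
    have h3 := neg_abs_le τ
    have h4 := le_abs_self τ
    have h5 := abs_nonneg τ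
    rw [abs_le]
    constructor
    · apply le_min <;> linarith
    · exact (min_le_left _ _).trans (by linarith)
  · intro z a
    apply abs_min_sub_min
    · exact u0_lip z a
    · have := u1_lip z a
      rwa [sub_sub_sub_cancel_right]

lemma psi_cont (τ : ℝ) : Continuous (psi τ) := (obs_ob τ).env_cont

lemma psi_lip (τ : ℝ) (z a : ℂ) : |psi τ (z + a) - psi τ z| ≤ 10 * ‖a‖ := (obs_ob τ).env_lip z a

lemma psi_QS (τ : ℝ) : QS 1 (psi τ) := (obs_ob τ).env_QS

lemma psi_le_obs (τ : ℝ) (z : ℂ) : psi τ z ≤ obs τ z := (obs_ob τ).env_le z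

lemma psi_le0 (τ : ℝ) (z : ℂ) : psi τ z ≤ u0 z := (psi_le_obs τ z).trans (min_le_left _ _)

lemma psi_le1 (τ : ℝ) (z : ℂ) : psi τ z ≤ u1 z - τ := (psi_le_obs τ z).trans (min_le_right _ _)

lemma psi_bd (τ : ℝ) (z : ℂ) : |psi τ z| ≤ 10 + |τ| := by
  rw [abs_le]
  constructor
  · exact le_env (obs_ob τ).const_mem z
  · have := psi_le0 τ z
    have := abs_le.1 (u0_bd z)
    have := abs_nonneg τ
    linarith

lemma psi_anti {τ τ' : ℝ} (h : τ ≤ τ') (z : ℂ) : psi τ' z ≤ psi τ z :=
  (obs_ob τ').env_mono (fun w => min_le_min le_rfl (by linarith)) z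

lemma psi_lipt {τ τ' : ℝ} (h : τ ≤ τ') (z : ℂ) : psi τ z ≤ psi τ' z + (τ' - τ) := by
  have := (obs_ob τ).env_add (g' := obs τ') (a := -(τ' - τ)) (fun w => by
    rw [obs, obs]
    apply le_min
    · have := min_le_left (u0 w) (u1 w - τ)
      linarith
    · have := min_le_right (u0 w) (u1 w - τ)
      linarith) z
  rw [psi, psi]
  linarith

lemma psi_concave {τ τ' s t : ℝ} (hs : 0 ≤ s) (ht : 0 ≤ t) (hst : s + t = 1) (z : ℂ) :
    s * psi τ z + t * psi τ' z ≤ psi (s * τ + t * τ') z := by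
  apply (obs_ob τ).env_concave (obs_ob τ') hs ht hst
  intro w
  rw [obs, obs, obs]
  have a1 := mul_le_mul_of_nonneg_left (min_le_left (u0 w) (u1 w - τ)) hs
  have a2 := mul_le_mul_of_nonneg_left (min_le_left (u0 w) (u1 w - τ')) ht
  have b1 := mul_le_mul_of_nonneg_left (min_le_right (u0 w) (u1 w - τ)) hs
  have b2 := mul_le_mul_of_nonneg_left (min_le_right (u0 w) (u1 w - τ')) ht
  apply le_min
  · have : s * u0 w + t * u0 w = u0 w := by rw [← add_mul, hst, one_mul]
    linarith
  · have : s * (u1 w - τ) + t * (u1 w - τ') = u1 w - (s * τ + t * τ') := by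
      have : s * u1 w + t * u1 w = u1 w := by rw [← add_mul, hst, one_mul]
      linarith
    linarith

lemma psi_low {τ : ℝ} (h : τ ≤ -20) (z : ℂ) : psi τ z = u0 z := by
  apply le_antisymm (psi_le0 τ z)
  apply le_env (g := obs τ)
  refine ⟨u0_cont, u0_QS, fun w => ?_⟩
  rw [obs]
  apply le_min le_rfl
  have h1 := abs_le.1 (u0_bd w)
  have h2 := abs_le.1 (u1_bd w)
  linarith [h1.2, h2.1]

lemma psi_high {τ : ℝ} (h : 20 ≤ τ) (z : ℂ) : psi τ z = u1 z - τ := by
  apply le_antisymm (psi_le1 τ z)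
  have := le_env (g := obs τ) (v := fun z => u1 z + -τ)
    ⟨by fun_prop, u1_QS.add_const u1_cont _, fun w => by
      rw [obs]
      apply le_min
      · have h1 := abs_le.1 (u0_bd w)
        have h2 := abs_le.1 (u1_bd w)
        linarith [h1.1, h2.2]
      · linarith⟩ z
  rw [psi]
  linarith

lemma psi_neg (τ : ℝ) (z : ℂ) : psi (-τ) (-z) = psi τ z + τ := by
  have key : ∀ (τ : ℝ) (z : ℂ), psi τ z + τ ≤ psi (-τ) (-z) := by
    intro τ z
    have h1 := (obs_ob τ).env_comp (g' := fun w => obs (-τ) w - τ) (u := -1) (by simp) 0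
      (fun w => by
        rw [obs, obs, u1, u1]
        simp only [neg_mul, one_mul, add_zero, neg_neg]
        rcases min_cases (u0 w) (u0 (-w) - -τ) with h | h
        · rw [h.1]; exact (min_le_right _ _)
        · rw [h.1]; exact (min_le_left _ _).trans (by linarith)) (-z)
    simp only [neg_mul, one_mul, add_zero, neg_neg] at h1
    have h2 := Ob.env_add (B := 10 + |τ| + |τ|) (L := 10) (g := fun w => obs (-τ) w - τ)
      (g' := obs (-τ)) (a := τ)
      ⟨fun w => by
        have := (obs_ob (-τ)).bd w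
        rw [abs_neg] at this
        calc |obs (-τ) w - τ| ≤ |obs (-τ) w| + |τ| := abs_sub _ _
          _ ≤ _ := by linarith,
       fun w a => by
        have := (obs_ob (-τ)).lip w a
        rwa [sub_sub_sub_cancel_right]⟩ (fun w => by linarith) (-z)
    rw [psi, psi]
    linarith
  apply le_antisymm _ (key τ z)
  have := key (-τ) (-z)
  rw [neg_neg, neg_neg] at this
  linarith

lemma obs_om (τ : ℝ) (z : ℂ) : obs τ (om * z) = obs τ z := by
  rw [obs, obs, u0_om, u1_om]

lemma psi_om (τ : ℝ) (z : ℂ) : psi τ (om * z) = psi τ z := by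
  have key : ∀ z, psi τ (om * z) ≤ psi τ z := by
    intro z
    have := (obs_ob τ).env_comp (g' := obs τ) om_norm 0 (fun w => by
      rw [add_zero, obs_om]) z
    rwa [add_zero] at this
  apply le_antisymm (key z)
  have h1 := key (om * z)
  have h2 := key (om * (om * z))
  have h3 : om * (om * (om * z)) = z := by
    have : om * (om * (om * z)) = om ^ 3 * z := by ring
    rw [this, om_cube, one_mul]
  rw [h3] at h2
  linarith

lemma psi_per {p : ℂ} (h0 : ∀ z, u0 (z + p) = u0 z) (τ : ℝ) (z : ℂ) :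
    psi τ (z + p) = psi τ z := by
  have h0' : ∀ z, u0 (z - p) = u0 z := by
    intro z
    have := h0 (z - p)
    rw [sub_add_cancel] at this
    exact this.symm
  have o1 : ∀ z, obs τ (z + p) = obs τ z := by
    intro z
    rw [obs, obs, h0, u1, u1, neg_add, ← sub_eq_add_neg, h0']
  have o2 : ∀ z, obs τ (z + -p) = obs τ z := by
    intro z
    have := o1 (z + -p)
    rw [neg_add_cancel_right] at this
    exact this.symm
  apply le_antisymm
  · have := (obs_ob τ).env_comp (g' := obs τ) (u := 1) (by simp) p (fun w => by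
      rw [one_mul, o1]) z
    rwa [one_mul] at this
  · have := (obs_ob τ).env_comp (g' := obs τ) (u := 1) (by simp) (-p) (fun w => by
      rw [one_mul, o2]) (z + p)
    rwa [one_mul, add_neg_cancel_right] at this

lemma psi_semi (τ : ℝ) (z a : ℂ) :
    psi τ (z + a) + psi τ (z - a) ≤ 2 * psi τ z + 10 * ‖a‖ ^ 2 := by
  apply (obs_ob τ).env_semiconcave
  intro w b
  rw [obs, obs, obs]
  have h1 := u0_semi w b
  have h2 := u1_semi w b
  have m1 := min_le_left (u0 (w + b)) (u1 (w + b) - τ)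
  have m2 := min_le_right (u0 (w + b)) (u1 (w + b) - τ)
  have m3 := min_le_left (u0 (w - b)) (u1 (w - b) - τ)
  have m4 := min_le_right (u0 (w - b)) (u1 (w - b) - τ)
  rcases min_cases (u0 w) (u1 w - τ) with h | h <;> rw [h.1] <;> linarith

lemma psi_mean {τ : ℝ} {a : ℂ} {R : ℝ} (hR : 0 < R)
    (hgap : 20 * R + R ^ 2 ≤ obs τ a - psi τ a) :
    circleAverage (psi τ) a R + R ^ 2 = psi τ a := by
  rw [psi] at hgap
  exact (obs_ob τ).env_mean hR (by linarith) (by norm_num)

/-- At the centre the envelope is strictly below the obstacle for `τ = 0`. -/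
lemma psi_zero_zero : psi 0 0 ≤ 39 / 10 - 1 / 200 := by
  have h1 := psi_QS 0 0 1 one_pos
  have h2 : circleAverage (psi 0) 0 1 ≤
      circleAverage (fun z => 3002 / 1000 - 22 / 100 * ((z ^ 3).re) ^ 2) 0 1 := by
    apply ca_mono_on (psi_cont 0) (by fun_prop)
    intro z hz
    have hz' : ‖z‖ = 1 := by simpa using hz
    refine (psi_le_obs 0 z).trans ?_
    rw [obs, sub_zero]
    exact min_le_circle hz'
  rw [ca_sub (by fun_prop) (by fun_prop), ca_const, ca_mul, ca_cube] at h2
  linarith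

/-- `ψ_τ(0)`. -/
noncomputable def cc (τ : ℝ) : ℝ := psi τ 0

lemma cc_neg (τ : ℝ) : cc (-τ) = cc τ + τ := by
  have := psi_neg τ 0
  rwa [neg_zero] at this

lemma cc_le (τ : ℝ) : cc τ + τ / 2 ≤ cc 0 := by
  have h := psi_concave (τ := τ) (τ' := -τ) (s := 1 / 2) (t := 1 / 2) (by norm_num) (by norm_num)
    (by norm_num) 0
  have e : (1 / 2 * τ + 1 / 2 * -τ) = 0 := by ring
  rw [e] at h
  have h2 := cc_neg τ
  simp only [cc] at h2 ⊢
  rw [h2] at h
  linarith

lemma gap_zero {τ : ℝ} (h : |τ| ≤ 1 / 200) : 1 / 400 ≤ obs τ 0 - psi τ 0 := by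
  have h1 := cc_le τ
  have h2 := psi_zero_zero
  simp only [cc] at h1
  have h3 := abs_le.1 h
  have h4 : u1 0 = 39 / 10 := by rw [u1, neg_zero, u0_zero]
  rw [obs, u0_zero, h4]
  rcases min_cases (39 / 10 : ℝ) (39 / 10 - τ) with h | h <;> rw [h.1] <;> linarith

lemma psi_self_PM {τ : ℝ} (h : |τ| ≤ 1 / 200) (z : ℂ) :
    PM0 (fun z => ‖z‖ ^ 2 + psi τ z) (1 / 10000) z = ‖z‖ ^ 2 + psi τ z := by
  have := (obs_ob τ).env_PV (a := 0) (R := 1 / 10000) (by norm_num) (by
    have := gap_zero h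
    rw [psi] at this
    refine le_trans ?_ this
    norm_num) (by norm_num) z
  rw [PV] at this
  simp only [add_zero, sub_zero] at this
  rw [psi]
  linarith

/-- The expansion at the centre. -/
lemma psi_expand {τ : ℝ} (h : |τ| ≤ 1 / 200) {z : ℂ} (hz : ‖z‖ ≤ 1 / 20000) :
    |‖z‖ ^ 2 + psi τ z - cc τ| ≤ 36 * 10 ^ 12 * ‖z‖ ^ 3 := by
  have := three_bound (f := fun z => ‖z‖ ^ 2 + psi τ z) (by have := psi_cont τ; fun_prop)
    (fun w => by rw [norm_mul, om_norm, one_mul, psi_om]) (R := 1 / 10000) (B := 12) (by norm_num)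
    (fun w hw => by
      have h1 := abs_le.1 (psi_bd τ w)
      rw [hw, abs_le]
      constructor <;> linarith [h1.1, h1.2]) (psi_self_PM h) (z := z) (by linarith)
  simp only [norm_zero] at this
  have e : (0 : ℝ) ^ 2 + psi τ 0 = cc τ := by rw [cc]; ring
  rw [e] at this
  refine this.trans (le_of_eq ?_)
  ring

end Pool.Agent.Y502
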