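import Pool.Agent.Y502.Poi

/-! # The sub-mean value property, the maximum principle and Poisson modification -/

set_option autoImplicit false

open Real Metric Set Filter Topology MeasureTheory

namespace Pool.Agent.Y502

/-- `v` satisfies `v(c) ≤ (mean of v over the circle of radius r about c) + κ r²`. -/
def QS (κ : ℝ) (v : ℂ → ℝ) : Prop := ∀ (c : ℂ) (r : ℝ), 0 < r → v c ≤ circleAverage v c r + κ * r ^ 2

/-- Local sub-mean value property at a point. -/
def LS (f : ℂ → ℝ) (w : ℂ) : Prop := ∃ r₀ > 0, ∀ r, 0 < r → r < r₀ → f w ≤ circleAverage f w r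

lemma QS.transl {κ : ℝ} {v : ℂ → ℝ} (h : QS κ v) (a : ℂ) : QS κ (fun z => v (z + a)) := by
  intro c r hr
  rw [ca_transl]
  exact h _ r hr

lemma QS.rot {κ : ℝ} {v : ℂ → ℝ} (h : QS κ v) {u : ℂ} (hu : ‖u‖ = 1) :
    QS κ (fun z => v (u * z)) := by
  intro c r hr
  rw [ca_rot0 v c r hu]
  exact h _ r hr

lemma QS.neg0 {κ : ℝ} {v : ℂ → ℝ} (h : QS κ v) : QS κ (fun z => v (-z)) := by
  intro c r hr
  rw [ca_neg0]
  exact h _ r hr

lemma QS.add_const {κ : ℝ} {v : ℂ → ℝ} (hv : Continuous v) (h : QS κ v) (a : ℝ) :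
    QS κ (fun z => v z + a) := by
  intro c r hr
  rw [ca_add hv continuous_const, ca_const]
  linarith [h c r hr]

lemma QS.combo {κ : ℝ} {v w : ℂ → ℝ} (hv : Continuous v) (hw : Continuous w) (h : QS κ v)
    (h' : QS κ w) {s t : ℝ} (hs : 0 ≤ s) (ht : 0 ≤ t) (hst : s + t = 1) :
    QS κ (fun z => s * v z + t * w z) := by
  intro c r hr
  rw [ca_add (by fun_prop) (by fun_prop), ca_mul, ca_mul]
  have h1 := mul_le_mul_of_nonneg_left (h c r hr) hs
  have h2 := mul_le_mul_of_nonneg_left (h' c r hr) ht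
  have h3 : κ * r ^ 2 = s * (κ * r ^ 2) + t * (κ * r ^ 2) := by
    rw [← add_mul, hst, one_mul]
  nlinarith

lemma QS_one_iff {v : ℂ → ℝ} (hv : Continuous v) :
    QS 1 v ↔ QS 0 (fun z => ‖z‖ ^ 2 + v z) := by
  constructor
  · intro h c r hr
    rw [ca_add (by fun_prop) hv, ca_sq]
    linarith [h c r hr]
  · intro h c r hr
    have := h c r hr
    rw [ca_add (by fun_prop) hv, ca_sq] at this
    linarith

lemma LS_congr {f g : ℂ → ℝ} {w : ℂ} {ρ : ℝ} (hρ : 0 < ρ) (h : ∀ z, ‖z - w‖ < ρ → f z = g z)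
    (hf : LS f w) : LS g w := by
  obtain ⟨r₀, hr₀, h1⟩ := hf
  refine ⟨min r₀ ρ, lt_min hr₀ hρ, ?_⟩
  intro r hr hr2
  have h2 := h1 r hr (lt_of_lt_of_le hr2 (min_le_left _ _))
  rw [h w (by simpa using hρ)] at h2
  refine h2.trans (le_of_eq ?_)
  apply circleAverage_congr_sphere
  intro z hz
  rw [abs_of_pos hr, mem_sphere, dist_eq_norm] at hz
  exact h z (by rw [hz]; exact lt_of_lt_of_le hr2 (min_le_right _ _))

lemma LS_sub {f g : ℂ → ℝ} {w : ℂ} (hf : Continuous f) (hg : Continuous g) (h : LS f w)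
    {ρ : ℝ} (hρ : 0 < ρ) (h2 : ∀ r, 0 < r → r < ρ → circleAverage g w r = g w) :
    LS (fun z => f z - g z) w := by
  obtain ⟨r₀, hr₀, h1⟩ := h
  refine ⟨min r₀ ρ, lt_min hr₀ hρ, ?_⟩
  intro r hr hr2
  rw [ca_sub hf hg]
  have h3 := h1 r hr (lt_of_lt_of_le hr2 (min_le_left _ _))
  have h4 := h2 r hr (lt_of_lt_of_le hr2 (min_le_right _ _))
  linarith

/-- Maximum principle on the disc `|w| ≤ R`. -/
lemma max_principle {f : ℂ → ℝ} (hf : Continuous f) {R M : ℝ} (hR : 0 < R)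
    (hl : ∀ w, ‖w‖ < R → LS f w) (hb : ∀ w, ‖w‖ = R → f w ≤ M) {w : ℂ} (hw : ‖w‖ ≤ R) :
    f w ≤ M := by
  have key : ∀ ε > 0, f w ≤ M + ε * R ^ 2 := by
    intro ε hε
    have hg : Continuous fun z : ℂ => f z + ε * ‖z‖ ^ 2 := by fun_prop
    obtain ⟨m, hm, hmax⟩ := (isCompact_closedBall (0 : ℂ) R).exists_isMaxOn
      ⟨0, by simpa using hR.le⟩ hg.continuousOn
    rw [mem_closedBall_zero_iff] at hm
    have hmax' : ∀ z : ℂ, ‖z‖ ≤ R → f z + ε * ‖z‖ ^ 2 ≤ f m + ε * ‖m‖ ^ 2 := by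
      intro z hz
      exact hmax (mem_closedBall_zero_iff.2 hz)
    rcases hm.lt_or_eq with hm' | hm'
    · exfalso
      obtain ⟨r₀, hr₀, h1⟩ := hl m hm'
      set r := min (r₀ / 2) (R - ‖m‖) with hrdef
      have hr : 0 < r := lt_min (by positivity) (by linarith)
      have h2 := h1 r hr (lt_of_le_of_lt (min_le_left _ _) (by linarith))
      have h3 : circleAverage (fun z => f z + ε * ‖z‖ ^ 2) m r ≤ f m + ε * ‖m‖ ^ 2 := by
        apply ca_le_of_le hg
        intro x hx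
        rw [abs_of_pos hr, mem_sphere, dist_eq_norm] at hx
        apply hmax'
        calc ‖x‖ = ‖m + (x - m)‖ := by ring_nf
          _ ≤ ‖m‖ + ‖x - m‖ := norm_add_le _ _
          _ ≤ ‖m‖ + (R - ‖m‖) := by rw [hx]; linarith [min_le_right (r₀ / 2) (R - ‖m‖)]
          _ = R := by ring
      rw [ca_add hf (by fun_prop), ca_mul, ca_sq] at h3
      have : 0 < ε * r ^ 2 := by positivity
      nlinarith
    · have h1 := hmax' w hw
      have h2 := hb m hm'
      rw [hm'] at h1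
      have : 0 ≤ ε * ‖w‖ ^ 2 := by positivity
      linarith
  by_contra hcon
  push Not at hcon
  have h1 := key ((f w - M) / (2 * R ^ 2)) (by
    apply div_pos (by linarith) (by positivity))
  have h2 : (f w - M) / (2 * R ^ 2) * R ^ 2 = (f w - M) / 2 := by
    field_simp
  rw [h2] at h1
  linarith

lemma PM0_mean_small {f : ℂ → ℝ} (hf : Continuous f) {R : ℝ} {w : ℂ} (hw : ‖w‖ < R) :
    ∀ r, 0 < r → r < R - ‖w‖ → circleAverage (PM0 f R) w r = PM0 f R w :=
  fun _ hr hr2 => PM0_mean hf hr (by linarith)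

/-- A function with the local sub-mean value property in the disc lies below its Poisson
modification. -/
lemma le_PM0 {f : ℂ → ℝ} (hf : Continuous f) {R : ℝ} (hR : 0 < R)
    (hl : ∀ w, ‖w‖ < R → LS f w) (w : ℂ) : f w ≤ PM0 f R w := by
  by_cases hw : ‖w‖ < R
  · have h1 : f w - PM0 f R w ≤ 0 := by
      refine max_principle (f := fun z => f z - PM0 f R z) (hf.sub (PM0_cont hf hR)) hR ?_ ?_ hw.le
      · intro x hx
        exact LS_sub hf (PM0_cont hf hR) (hl x hx) (ρ := R - ‖x‖) (by linarith)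
          (PM0_mean_small hf hx)
      · intro x hx
        rw [PM0_out hx.ge]
        simp
    linarith
  · rw [PM0_out (not_lt.1 hw)]

/-- The local sub-mean value property implies the global one. -/
lemma QS0_of_LS {f : ℂ → ℝ} (hf : Continuous f) (hl : ∀ w, LS f w) : QS 0 f := by
  intro c r hr
  have h1 : ∀ w, LS (fun z => f (z + c)) w := by
    intro w
    obtain ⟨r₀, hr₀, h2⟩ := hl (w + c)
    refine ⟨r₀, hr₀, fun r hr hr2 => ?_⟩
    rw [ca_transl]
    exact h2 r hr hr2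
  have h2 := le_PM0 (f := fun z => f (z + c)) (by fun_prop) hr (fun w _ => h1 w) 0
  rw [PM0_center hr, ca_transl] at h2
  simpa using h2

lemma QS0.LS {f : ℂ → ℝ} (h : QS 0 f) (w : ℂ) : LS f w :=
  ⟨1, one_pos, fun r hr _ => by simpa using h w r hr⟩

/-- Poisson modification preserves the sub-mean value property. -/
lemma PM0_QS {f : ℂ → ℝ} (hf : Continuous f) (h : QS 0 f) {R : ℝ} (hR : 0 < R) :
    QS 0 (PM0 f R) := by
  apply QS0_of_LS (PM0_cont hf hR)
  intro w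
  by_cases hw : ‖w‖ < R
  · refine ⟨R - ‖w‖, by linarith, fun r hr hr2 => ?_⟩
    rw [PM0_mean_small hf hw r hr hr2]
  · refine ⟨1, one_pos, fun r hr _ => ?_⟩
    rw [PM0_out (not_lt.1 hw)]
    have h1 := h w r hr
    have h2 := ca_mono hf (PM0_cont hf hR) w r (le_PM0 hf hR (fun w _ => QS0.LS h w))
    linarith

/-- The modification of `v` on the disc of radius `R` about `a`. -/
noncomputable def PV (v : ℂ → ℝ) (a : ℂ) (R : ℝ) (w : ℂ) : ℝ :=
  PM0 (fun z => ‖z‖ ^ 2 + v (z + a)) R (w - a) - ‖w - a‖ ^ 2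

lemma PV_cont {v : ℂ → ℝ} (hv : Continuous v) (a : ℂ) {R : ℝ} (hR : 0 < R) :
    Continuous (PV v a R) := by
  have := PM0_cont (f := fun z => ‖z‖ ^ 2 + v (z + a)) (by fun_prop) hR
  unfold PV
  fun_prop

lemma PV_out {v : ℂ → ℝ} {a : ℂ} {R : ℝ} {w : ℂ} (hw : R ≤ ‖w - a‖) : PV v a R w = v w := by
  rw [PV, PM0_out hw]
  simp

lemma PV_QS {v : ℂ → ℝ} (hv : Continuous v) (h : QS 1 v) (a : ℂ) {R : ℝ} (hR : 0 < R) :
    QS 1 (PV v a R) := by
  have h1 : QS 1 fun z => v (z + a) := h.transl a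
  have h2 := (QS_one_iff (v := fun z => v (z + a)) (by fun_prop)).1 h1
  have h3 := PM0_QS (f := fun z => ‖z‖ ^ 2 + v (z + a)) (by fun_prop) h2 hR
  have hc := PM0_cont (f := fun z => ‖z‖ ^ 2 + v (z + a)) (by fun_prop) hR
  have h4 : QS 1 fun z => PM0 (fun z => ‖z‖ ^ 2 + v (z + a)) R z - ‖z‖ ^ 2 := by
    rw [QS_one_iff (by fun_prop)]
    have : (fun z : ℂ => ‖z‖ ^ 2 + (PM0 (fun z => ‖z‖ ^ 2 + v (z + a)) R z - ‖z‖ ^ 2)) =
      PM0 (fun z => ‖z‖ ^ 2 + v (z + a)) R := by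
      ext z
      ring
    rw [this]
    exact h3
  have h5 := h4.transl (-a)
  exact h5

lemma le_PV {v : ℂ → ℝ} (hv : Continuous v) (h : QS 1 v) (a : ℂ) {R : ℝ} (hR : 0 < R) (w : ℂ) :
    v w ≤ PV v a R w := by
  have h1 : QS 1 fun z => v (z + a) := h.transl a
  have h2 := (QS_one_iff (v := fun z => v (z + a)) (by fun_prop)).1 h1
  have h3 := le_PM0 (f := fun z => ‖z‖ ^ 2 + v (z + a)) (by fun_prop) hR
    (fun w _ => QS0.LS h2 w) (w - a)
  simp only [sub_add_cancel] at h3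
  rw [PV]
  linarith

lemma PV_le {v : ℂ → ℝ} (hv : Continuous v) {a : ℂ} {R M : ℝ} 
    (hM : ∀ z, ‖z - a‖ = R → v z ≤ M) {w : ℂ} (hw : ‖w - a‖ < R) :
    PV v a R w ≤ M + R ^ 2 := by
  have h1 := PM0_le (f := fun z => ‖z‖ ^ 2 + v (z + a)) (by fun_prop) (R := R) (M := R ^ 2 + M)
    (by
      intro z hz
      have := hM (z + a) (by simpa using hz)
      rw [hz]
      linarith) hw
  rw [PV]
  have : 0 ≤ ‖w - a‖ ^ 2 := by positivity
  linarith

end Pool.Agent.Y502
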