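import Pool.Agent.Y502.Psh
import Pool.Agent.Y502.Fail

/-! # The torus and the main theorem -/

set_option autoImplicit false

open Real Metric Set Filter Topology MeasureTheory
open scoped ContDiff

namespace Pool.Agent.Y502

/-- The hexagonal lattice of periods. -/
noncomputable def Lam : AddSubgroup ℂ where
  carrier := {p | (∃ m : ℤ, p.re = 2 * π * m) ∧ ∃ n : ℤ, X1 p = 2 * π * n}
  zero_mem' := ⟨⟨0, by simp⟩, ⟨0, by simp [X1]⟩⟩
  add_mem' := by
    rintro p q ⟨⟨m, hm⟩, ⟨n, hn⟩⟩ ⟨⟨m', hm'⟩, ⟨n', hn'⟩⟩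
    refine ⟨⟨m + m', ?_⟩, ⟨n + n', ?_⟩⟩
    · rw [Complex.add_re, hm, hm']; push_cast; ring
    · rw [X1_add, hn, hn']; push_cast; ring
  neg_mem' := by
    rintro p ⟨⟨m, hm⟩, ⟨n, hn⟩⟩
    refine ⟨⟨-m, ?_⟩, ⟨-n, ?_⟩⟩
    · rw [Complex.neg_re, hm]; push_cast; ring
    · rw [X1_neg, hn]; push_cast; ring

lemma mem_Lam {p : ℂ} : p ∈ Lam ↔ (∃ m : ℤ, p.re = 2 * π * m) ∧ ∃ n : ℤ, X1 p = 2 * π * n :=
  Iff.rfl

lemma kk_per (x : ℝ) (n : ℤ) : kk (x + 2 * π * n) = kk x := by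
  rw [kk, kk]
  have h1 := Real.cos_add_int_mul_two_pi x n
  have h2 := Real.sin_add_int_mul_two_pi x n
  rw [show x + 2 * π * n = x + n * (2 * π) by ring, h1, h2]

lemma u0_per {p : ℂ} (hp : p ∈ Lam) (z : ℂ) : u0 (z + p) = u0 z := by
  obtain ⟨⟨m, hm⟩, ⟨n, hn⟩⟩ := mem_Lam.1 hp
  have h2 : X2 p = 2 * π * ((-m - n : ℤ) : ℝ) := by
    have := X_sum p
    rw [hm, hn] at this
    push_cast
    linarith
  rw [u0, u0, X1_add, X2_add, Complex.add_re, hm, hn, h2, kk_per, kk_per, kk_per]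

lemma u1_per {p : ℂ} (hp : p ∈ Lam) (z : ℂ) : u1 (z + p) = u1 z := by
  rw [u1, u1, neg_add]
  exact u0_per (Lam.neg_mem hp) _

theorem Lam_discrete : DiscreteTopology Lam := by
  apply discreteTopology_of_isOpen_singleton_zero
  have h : ({0} : Set Lam) = (fun p : Lam => (p : ℂ)) ⁻¹' ball 0 (2 * π) := by
    ext p
    simp only [mem_singleton_iff, mem_preimage, mem_ball_zero_iff]
    constructor
    · rintro rfl
      simp [Real.pi_pos]
    · intro hp
      obtain ⟨⟨m, hm⟩, ⟨n, hn⟩⟩ := mem_Lam.1 p.2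
      have hpi := Real.pi_pos
      have key : ∀ k : ℤ, |2 * π * k| < 2 * π → k = 0 := by
        intro k hk
        rw [abs_mul, abs_of_pos (by positivity)] at hk
        have h1 : |(k : ℝ)| < 1 := by
          by_contra hcon
          push Not at hcon
          nlinarith
        have h2 : |k| < 1 := by exact_mod_cast h1
        exact Int.abs_lt_one_iff.1 h2
      have hm0 : m = 0 := key m (by rw [← hm]; exact (Complex.abs_re_le_norm _).trans_lt hp)
      have hn0 : n = 0 := key n (by rw [← hn]; exact (abs_X1_le _).trans_lt hp)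
      rw [hm0] at hm
      rw [hn0] at hn
      simp only [Int.cast_zero, mul_zero] at hm hn
      have h3 := X_sq (p : ℂ)
      have h4 := X_sum (p : ℂ)
      rw [hm, hn] at h3 h4
      have h5 : X2 (p : ℂ) = 0 := by linarith
      rw [h5] at h3
      have h6 : ‖(p : ℂ)‖ = 0 := by nlinarith [norm_nonneg (p : ℂ)]
      exact Subtype.ext (norm_eq_zero.1 h6)
  rw [h]
  exact isOpen_ball.preimage continuous_subtype_val

/-- Every point is congruent to a point of a fixed ball. -/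
lemma exists_rep (z : ℂ) : ∃ p ∈ Lam, ‖z - p‖ ≤ 4 * π := by
  have hpi := Real.pi_pos
  set m := ⌊z.re / (2 * π)⌋ with hm
  set n := ⌊X1 z / (2 * π)⌋ with hn
  set p : ℂ := ⟨2 * π * m, -(2 / √3) * (2 * π * n + π * m)⟩ with hp
  have hs3 : √3 ≠ 0 := by positivity
  have hp1 : p.re = 2 * π * m := rfl
  have hp2 : X1 p = 2 * π * n := by
    rw [X1]
    have : p.im = -(2 / √3) * (2 * π * n + π * m) := rfl
    rw [hp1, this]
    field_simp
    ring
  refine ⟨p, ⟨⟨m, hp1⟩, ⟨n, hp2⟩⟩, ?_⟩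
  have f1 := Int.floor_le (z.re / (2 * π))
  have f2 := Int.lt_floor_add_one (z.re / (2 * π))
  have f3 := Int.floor_le (X1 z / (2 * π))
  have f4 := Int.lt_floor_add_one (X1 z / (2 * π))
  rw [← hm, le_div_iff₀ (by positivity)] at f1
  rw [← hm, div_lt_iff₀ (by positivity)] at f2
  rw [← hn, le_div_iff₀ (by positivity)] at f3
  rw [← hn, div_lt_iff₀ (by positivity)] at f4
  have g1 : (z - p).re = z.re - 2 * π * m := by rw [Complex.sub_re, hp1]
  have g2 : X1 (z - p) = X1 z - 2 * π * n := by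
    rw [sub_eq_add_neg, X1_add, X1_neg, hp2]; ring
  have g3 := X_sum (z - p)
  have g4 := X_sq (z - p)
  set r := (z - p).re
  set s := X1 (z - p)
  have r0 : 0 ≤ r := by rw [g1]; linarith
  have r1 : r ≤ 2 * π := by rw [g1]; linarith
  have s0 : 0 ≤ s := by rw [g2]; linarith
  have s1 : s ≤ 2 * π := by rw [g2]; linarith
  have h5 : X2 (z - p) = -(r + s) := by linarith
  rw [h5] at g4
  have h6 : r ^ 2 ≤ (2 * π) ^ 2 := pow_le_pow_left₀ r0 r1 2
  have h7 : s ^ 2 ≤ (2 * π) ^ 2 := pow_le_pow_left₀ s0 s1 2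
  have h8 : (r + s) ^ 2 ≤ (4 * π) ^ 2 := pow_le_pow_left₀ (by linarith) (by linarith) 2
  have h9 : ‖z - p‖ ^ 2 ≤ (4 * π) ^ 2 := by nlinarith
  exact le_of_sq_le_sq h9 (by positivity)

theorem Lam_compact : CompactSpace (ℂ ⧸ Lam) := by
  constructor
  have h : (univ : Set (ℂ ⧸ Lam)) = (fun z : ℂ => (z : ℂ ⧸ Lam)) '' closedBall 0 (4 * π) := by
    ext x
    simp only [mem_univ, true_iff, mem_image]
    obtain ⟨z, rfl⟩ := QuotientAddGroup.mk_surjective x
    obtain ⟨p, hp, hzp⟩ := exists_rep z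
    refine ⟨z - p, by simpa using hzp, ?_⟩
    rw [QuotientAddGroup.eq]
    have : -(z - p) + z = p := by ring
    rw [this]
    exact hp
  rw [h]
  exact (isCompact_closedBall _ _).image QuotientAddGroup.continuous_mk

lemma out_mk (z : ℂ) : ∃ p ∈ Lam, ((z : ℂ ⧸ Lam)).out = z + p := by
  obtain ⟨p, hp⟩ := QuotientAddGroup.mk_out_eq_add Lam z
  exact ⟨p, p.2, hp⟩

lemma u0_out (z : ℂ) : u0 ((z : ℂ ⧸ Lam)).out = u0 z := by
  obtain ⟨p, hp, h⟩ := out_mk z
  rw [h, u0_per hp]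

lemma u1_out (z : ℂ) : u1 ((z : ℂ ⧸ Lam)).out = u1 z := by
  obtain ⟨p, hp, h⟩ := out_mk z
  rw [h, u1_per hp]

lemma phi_out (t : ℝ) (z : ℂ) : phi t ((z : ℂ ⧸ Lam)).out = phi t z := by
  obtain ⟨p, hp, h⟩ := out_mk z
  rw [h, phi_per (u0_per hp)]

end Pool.Agent.Y502
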